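import Pool.Agent.SLZ.Stmts

/-!
# Squad SLZ (MP_57632f_nt): module APD (described numbers)
-/

set_option autoImplicit false

namespace Pool.Agent.SLZ

open Filter Pool.Agent.SBT Pool.Agent.SGL

attribute [local irreducible] Pool.Agent.SGL.instFieldOm Pool.Agent.SLZ.instFieldOm2

namespace APD_

variable {σ : Sc}

theorem Hq_congr {q r : ℕ → ℚ} (h : ∀ᶠ n in (σ.U : Filter ℕ), q n = r n) (hq : Hq σ q) :
    Hq σ r := by
  obtain ⟨C, hC⟩ := hq
  refine ⟨C, ?_⟩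
  filter_upwards [h, hC] with n h1 h2
  rwa [← h1]

theorem Hq_int (c : ℤ) : Hq σ (fun _ => (c : ℚ)) := by
  refine ⟨|(c : ℝ)|, ?_⟩
  filter_upwards [σ.large 1] with n hn
  rw [Rat.num_intCast, Rat.den_intCast]
  constructor
  · have h1 := Real.add_one_le_exp (|(c : ℝ)| * σ.T n)
    have h2 : |(c : ℝ)| ≤ |(c : ℝ)| * σ.T n := le_mul_of_one_le_right (abs_nonneg _) hn
    linarith
  · push_cast
    exact Real.one_le_exp (mul_nonneg (abs_nonneg _) (by linarith))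

theorem Hq_sum {ι : Type} (s : Finset ι) (q : ι → ℕ → ℚ) (h : ∀ i ∈ s, Hq σ (q i)) :
    Hq σ (fun n => ∑ i ∈ s, q i n) := by
  classical
  induction s using Finset.induction_on with
  | empty => simpa using Hq_int (σ := σ) 0
  | insert i s hi ih =>
    have e : (fun n => ∑ k ∈ insert i s, q k n) = fun n => q i n + ∑ k ∈ s, q k n := by
      funext n
      rw [Finset.sum_insert hi]
    rw [e]
    exact Hq_add (h i (Finset.mem_insert_self i s))
      (ih fun k hk => h k (Finset.mem_insert_of_mem hk))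

theorem OO_sum {ι : Type} (s : Finset ι) (f : ι → ℕ → ℝ) (h : ∀ i ∈ s, f i ∈ OO σ) :
    (fun n => ∑ i ∈ s, f i n) ∈ OO σ ∧
      cl σ (fun n => ∑ i ∈ s, f i n) = ∑ i ∈ s, cl σ (f i) := by
  classical
  induction s using Finset.induction_on with
  | empty =>
    simp only [Finset.sum_empty]
    exact ⟨const_mem 0, cl_zero⟩
  | insert i s hi ih =>
    obtain ⟨h1, h2⟩ := ih fun k hk => h k (Finset.mem_insert_of_mem hk)
    have h3 := h i (Finset.mem_insert_self i s)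
    have e : (fun n => ∑ k ∈ insert i s, f k n) = fun n => f i n + ∑ k ∈ s, f k n := by
      funext n
      rw [Finset.sum_insert hi]
    rw [e]
    exact ⟨(OO σ).add_mem h3 h1, by rw [cl_add h3 h1, h2, Finset.sum_insert hi]⟩

/-- a nonzero rational sequence of height `exp (O(T))` is not very small -/
theorem Hq_ne {q : ℕ → ℚ} (hq : Hq σ q) (h : ∀ᶠ n in (σ.U : Filter ℕ), q n ≠ 0) :
    cl σ (fun n => (q n : ℝ)) ≠ 0 := by
  intro h0
  rw [cl_zero_iff (Hq_mem hq)] at h0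
  obtain ⟨C, hC⟩ := hq
  obtain ⟨n, h1, h2, h3, h4⟩ := (h.and (hC.and ((h0 (C + 1)).and (σ.large 1)))).exists
  have h5 : (1 : ℝ) ≤ |((q n).num : ℝ)| := by
    have : (q n).num ≠ 0 := Rat.num_ne_zero.2 h1
    exact_mod_cast Int.one_le_abs this
  have h6 : ((q n : ℚ) : ℝ) = (q n).num / (q n).den := by
    exact_mod_cast (Rat.num_div_den (q n)).symm
  have h7 : (0 : ℝ) < (q n).den := by exact_mod_cast (q n).pos
  simp only at h3
  rw [h6, abs_div, Nat.abs_cast, div_le_iff₀ h7] at h3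
  have h8 : Real.exp (-((C + 1) * σ.T n)) * ((q n).den : ℝ) ≤
      Real.exp (-((C + 1) * σ.T n)) * Real.exp (C * σ.T n) :=
    mul_le_mul_of_nonneg_left h2.2 (Real.exp_pos _).le
  rw [← Real.exp_add] at h8
  have h9 : Real.exp (-((C + 1) * σ.T n) + C * σ.T n) < 1 := by
    rw [Real.exp_lt_one_iff]
    nlinarith
  linarith

theorem npow_le {b k : ℕ} (hb : 2 ≤ b) {C T : ℝ} (h : (k : ℝ) ≤ C * T) :
    |(((b : ℤ) ^ k : ℤ) : ℝ)| ≤ Real.exp (Real.log b * C * T) := by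
  have hb0 : (0 : ℝ) < b := by exact_mod_cast (by omega : 0 < b)
  have hlog : 0 ≤ Real.log b := Real.log_nonneg (by exact_mod_cast (by omega : 1 ≤ b))
  push_cast
  rw [abs_of_nonneg (by positivity)]
  calc (b : ℝ) ^ k = Real.exp (k * Real.log b) := by
        rw [mul_comm, Real.exp_mul, Real.exp_log hb0, Real.rpow_natCast]
    _ ≤ Real.exp (Real.log b * C * T) := by
        apply Real.exp_le_exp.2
        nlinarith

theorem Hq_zpow {b : ℕ} (hb : 2 ≤ b) {z : ℕ → ℤ} {C : ℝ}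
    (h : ∀ᶠ n in (σ.U : Filter ℕ), |(z n : ℝ)| ≤ C * σ.T n) :
    Hq σ (fun n => (b : ℚ) ^ z n) := by
  rw [Hq_iff]
  refine ⟨Real.log b * C, ?_⟩
  have hb0 : (b : ℤ) ≠ 0 := by exact_mod_cast (by omega : b ≠ 0)
  have hb1 : (b : ℚ) ≠ 0 := by exact_mod_cast (by omega : b ≠ 0)
  filter_upwards [h] with n hn
  have h1 : (((z n).toNat : ℕ) : ℝ) ≤ C * σ.T n := by
    refine le_trans ?_ hn
    have : ((z n).toNat : ℤ) ≤ |z n| := by
      rw [Int.toNat_eq_max]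
      exact max_le (le_abs_self _) (abs_nonneg _)
    exact_mod_cast this
  have h2 : (((-z n).toNat : ℕ) : ℝ) ≤ C * σ.T n := by
    refine le_trans ?_ hn
    have : ((-z n).toNat : ℤ) ≤ |z n| := by
      rw [Int.toNat_eq_max]
      exact max_le (neg_le_abs _) (abs_nonneg _)
    exact_mod_cast this
  refine ⟨(b : ℤ) ^ (z n).toNat, (b : ℤ) ^ (-z n).toNat, pow_ne_zero _ hb0, ?_,
    npow_le hb h1, npow_le hb h2⟩
  push_cast
  rw [← zpow_natCast, ← zpow_natCast, ← zpow_sub₀ hb1]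
  congr 1
  rw [Int.toNat_eq_max, Int.toNat_eq_max]
  rcases le_total 0 (z n) with h3 | h3
  · rw [max_eq_left h3, max_eq_right (by omega)]
    ring
  · rw [max_eq_right h3, max_eq_left (by omega)]
    ring

/-- the `p`-adic absolute value of `b ^ (-k)` -/
theorem av_neg {b p k : ℕ} (hb : 2 ≤ b) (hp : p.Prime) (hpb : p ∣ b) :
    (2 : ℝ) ^ k ≤ av p ((b : ℚ) ^ (-(k : ℤ))) := by
  have : Fact p.Prime := ⟨hp⟩
  have hb1 : (b : ℚ) ≠ 0 := by exact_mod_cast (by omega : b ≠ 0)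
  have h1 : padicNorm p (b : ℚ) ≤ 1 / 2 := by
    obtain ⟨c, rfl⟩ := hpb
    push_cast
    rw [padicNorm.mul, padicNorm.padicNorm_p hp.one_lt]
    have h2 : padicNorm p (c : ℚ) ≤ 1 := padicNorm.of_nat c
    have h3 : ((p : ℚ))⁻¹ ≤ 1 / 2 := by
      rw [inv_eq_one_div]
      exact one_div_le_one_div_of_le (by norm_num) (by exact_mod_cast hp.two_le)
    have h4 : 0 ≤ padicNorm p (c : ℚ) := padicNorm.nonneg _
    have h5 : (0 : ℚ) ≤ ((p : ℚ))⁻¹ := by positivity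
    nlinarith
  have h0 : 0 < padicNorm p (b : ℚ) := lt_of_le_of_ne (padicNorm.nonneg _)
    (fun h => hb1 (padicNorm.zero_of_padicNorm_eq_zero h.symm))
  have h2 : padicNorm p ((b : ℚ) ^ k) = padicNorm p (b : ℚ) ^ k := by
    induction k with
    | zero => simp
    | succ k ih => rw [pow_succ, padicNorm.mul, ih, pow_succ]
  have h3 : padicNorm p ((b : ℚ) ^ (-(k : ℤ))) = (padicNorm p (b : ℚ) ^ k)⁻¹ := by
    have h4 : padicNorm p ((b : ℚ) ^ k) * padicNorm p ((b : ℚ) ^ (-(k : ℤ))) = 1 := by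
      rw [← padicNorm.mul, zpow_neg, zpow_natCast, mul_inv_cancel₀ (pow_ne_zero _ hb1),
        padicNorm.one]
    rw [h2] at h4
    exact eq_inv_of_mul_eq_one_right h4
  have h5 : (2 : ℚ) ^ k ≤ padicNorm p ((b : ℚ) ^ (-(k : ℤ))) := by
    rw [h3]
    have h6 : padicNorm p (b : ℚ) ^ k ≤ (1 / 2) ^ k := pow_le_pow_left₀ h0.le h1 k
    calc (2 : ℚ) ^ k = ((1 / 2 : ℚ) ^ k)⁻¹ := by
          rw [← inv_pow]
          norm_num
      _ ≤ (padicNorm p (b : ℚ) ^ k)⁻¹ := inv_anti₀ (pow_pos h0 k) h6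
  unfold av
  rw [if_neg hp.ne_zero]
  exact_mod_cast h5

theorem unit_z {b : ℕ} (hb : 2 ≤ b) {S : Finset ℕ} (hbS : ∀ p : ℕ, p.Prime → p ∣ b → p ∈ S)
    {u : ℕ → ℚ} (hu : u ∈ Un σ.U S σ.T) (hw : u ∈ Wv (Wg {b})) :
    ∃ (z : ℕ → ℤ) (C : ℝ), (∀ n, u n = (b : ℚ) ^ z n) ∧
      ∀ᶠ n in (σ.U : Filter ℕ), |(z n : ℝ)| ≤ C * σ.T n := by
  have h1 : ∀ n, ∃ z : ℤ, u n = (b : ℚ) ^ z := by
    intro n
    obtain ⟨e, he⟩ := hw n
    exact ⟨e b, by rw [he]; simp⟩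
  choose z hz using h1
  obtain ⟨-, C, hC⟩ := hu
  obtain ⟨p, hp, hpb⟩ := Nat.exists_prime_and_dvd (by omega : b ≠ 1)
  have hpS := hbS p hp hpb
  have hl2 : 0 < Real.log 2 := Real.log_pos (by norm_num)
  refine ⟨z, C / Real.log 2, hz, ?_⟩
  filter_upwards [hC] with n hn
  have h0 := hn 0 (by simp [pl])
  have hpp := hn p (by simp [pl, hpS])
  rw [hz n] at h0 hpp
  have key : ∀ k : ℕ, (2 : ℝ) ^ k ≤ Real.exp (C * σ.T n) → (k : ℝ) ≤ C / Real.log 2 * σ.T n := by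
    intro k hk
    have h2 : (2 : ℝ) ^ k = Real.exp (k * Real.log 2) := by
      rw [mul_comm, Real.exp_mul, Real.exp_log (by norm_num), Real.rpow_natCast]
    rw [h2, Real.exp_le_exp] at hk
    rw [div_mul_eq_mul_div, le_div_iff₀ hl2]
    exact hk
  rcases le_total 0 (z n) with h3 | h3
  · obtain ⟨k, hk⟩ := Int.eq_ofNat_of_zero_le h3
    rw [hk] at h0 ⊢
    have h4 : (2 : ℝ) ^ k ≤ Real.exp (C * σ.T n) := by
      refine le_trans ?_ h0
      unfold av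
      rw [if_pos rfl]
      push_cast
      rw [zpow_natCast, abs_of_nonneg (by positivity)]
      exact pow_le_pow_left₀ (by norm_num) (by exact_mod_cast hb) k
    have h5 := key k h4
    push_cast
    rw [abs_of_nonneg (by positivity)]
    exact h5
  · obtain ⟨k, hk⟩ := Int.eq_ofNat_of_zero_le (by omega : 0 ≤ - z n)
    have hk' : z n = -(k : ℤ) := by omega
    rw [hk'] at hpp ⊢
    have h4 : (2 : ℝ) ^ k ≤ Real.exp (C * σ.T n) := (av_neg hb hp hpb).trans hpp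
    have h5 := key k h4
    push_cast
    rw [abs_neg, abs_of_nonneg (by positivity)]
    exact h5

end APD_

open APD_ in
theorem apd_proof (hKWD : Stmt_KWD) : Stmt_APD := by
  intro σ b S s B Λ t x hb hS hbS hA hst hBt ht
  obtain ⟨A, R, f₀, f, y, hA1, hf₀, hf, hf0, hy, hR, hx⟩ := hA
  have hbb : ∀ b' ∈ ({b} : Finset ℕ), 2 ≤ b' := by simpa using hb
  obtain ⟨-, hW, -⟩ := hKWD σ {b} hbb
  -- units
  have hun : ∀ u ∈ Un σ.U S σ.T ∩ Wv (Wg {b}), Hq σ u ∧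
      cl σ (fun n => ((u n : ℚ) : ℝ)) ∈ Kf σ {b} ∧ cl σ (fun n => ((u n : ℚ) : ℝ)) ≠ 0 := by
    rintro u ⟨h1, h2⟩
    obtain ⟨z, C, h3, h4⟩ := unit_z hb hbS h1 h2
    have h5 : Wd σ {b} u := by
      refine ⟨fun _ n => z n, C, ?_, ?_⟩
      · intro n
        rw [h3 n]
        simp
      · intro b' _
        exact h4
    refine ⟨?_, (hW u h5).2.1, (hW u h5).2.2⟩
    have h6 : u = fun n => (b : ℚ) ^ z n := funext h3
    rw [h6]
    exact Hq_zpow hb h4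
  -- combinations
  have hlc : ∀ g : ℕ → ℚ, Lc σ.U (Un σ.U S σ.T ∩ Wv (Wg {b})) g → Hq σ g ∧
      cl σ (fun n => ((g n : ℚ) : ℝ)) ∈ Kf σ {b} := by
    rintro g ⟨N, c, u, h1, h2⟩
    have h3 : Hq σ (fun n => ∑ i, (c i : ℚ) * u i n) :=
      Hq_sum Finset.univ (fun i n => (c i : ℚ) * u i n)
        fun i _ => Hq_mul (Hq_int (c i)) (hun (u i) (h1 i)).1
    refine ⟨Hq_congr (h2.mono fun n hn => hn.symm) h3, ?_⟩
    have h4 : cl σ (fun n => ((g n : ℚ) : ℝ)) =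
        cl σ (fun n => ∑ i, (c i : ℝ) * ((u i n : ℚ) : ℝ)) := by
      apply cl_congr
      filter_upwards [h2] with n hn
      rw [hn]
      push_cast
      rfl
    have h5 : ∀ i ∈ (Finset.univ : Finset (Fin N)),
        (fun n => (c i : ℝ) * ((u i n : ℚ) : ℝ)) ∈ OO σ := fun i _ =>
      (OO σ).mul_mem (const_mem (c i : ℝ)) (Hq_mem (hun (u i) (h1 i)).1)
    rw [h4, (OO_sum Finset.univ _ h5).2]
    refine (Kf σ {b}).sum_mem fun i _ => ?_
    rw [cl_mul (const_mem (c i : ℝ)) (Hq_mem (hun (u i) (h1 i)).1)]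
    refine (Kf σ {b}).mul_mem ?_ (hun (u i) (h1 i)).2.1
    have h6 : cl σ (fun _ => (c i : ℝ)) = ((c i : ℤ) : Om σ) := by
      rw [← cst_apply, map_intCast]
    rw [h6]
    exact intCast_mem _ _
  have hf₀' : Lc σ.U (Un σ.U S σ.T ∩ Wv (Wg {b})) f₀ := by
    obtain ⟨N, c, u, h1, h2⟩ := hf₀
    exact ⟨N, c, u, fun i => ⟨⟨(h1 i).1.1, B, (h1 i).1.2⟩, (h1 i).2⟩, h2⟩
  obtain ⟨hF0q, hF0K⟩ := hlc f₀ hf₀'
  have hF0 := Hq_ne hF0q hf0
  obtain ⟨hAq, hAK, hA0⟩ := hun _ hA1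
  have hAm : (fun n => (A n : ℝ)) ∈ OO σ := by
    have := Hq_mem hAq
    simpa using this
  have hAe : cl σ (fun n => ((((A n : ℕ) : ℚ)) : ℝ)) = cl σ (fun n => (A n : ℝ)) := by
    simp only [Rat.cast_natCast]
  rw [hAe] at hAK hA0
  have hApos : ∀ n, (0 : ℝ) < A n := by
    intro n
    have h1 : (0 : ℚ) < (A n : ℚ) := (hA1.1.1 n).1
    exact_mod_cast h1
  -- the quotient
  have hQm : (fun n => (R n : ℝ) / A n) ∈ OO σ := by
    obtain ⟨c, hc⟩ := const_mem (σ := σ) x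
    have h1 : (fun n => x - (x - (R n : ℝ) / A n)) ∈ OO σ :=
      (OO σ).sub_mem (const_mem x) ⟨B - Λ, hx⟩
    simpa using h1
  have hVx : V (cst σ x - cl σ (fun n => (R n : ℝ) / A n)) (B - Λ) := by
    have hm : (fun n => x - (R n : ℝ) / A n) ∈ OO σ := (OO σ).sub_mem (const_mem x) hQm
    rw [cst_apply, ← cl_sub (const_mem x) hQm, V_cl hm]
    intro c' hc'
    filter_upwards [hx, σ.large 0] with n hn hT
    exact hn.trans (Real.exp_le_exp.2 (mul_le_mul_of_nonneg_right hc'.le hT))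
  refine ⟨cl σ (fun n => (R n : ℝ) / A n), ?_, hVx⟩
  -- the description
  have hym : ∀ j, ∀ᶠ n in (σ.U : Filter ℕ), |(y j n : ℝ)| ≤ Real.exp (B * σ.T n) :=
    fun j => hy.mono fun n hn => hn j
  have hyO : ∀ j, (fun n => (y j n : ℝ)) ∈ OO σ := fun j => ⟨B, hym j⟩
  refine ⟨s, 1, fun j => cl σ (fun n => ((f j n : ℚ) : ℝ)) *
    (cl σ (fun n => ((f₀ n : ℚ) : ℝ)) * cl σ (fun n => (A n : ℝ)))⁻¹,
    fun j => cl σ (fun n => (y j n : ℝ)), hst, Zi_one ht, one_ne_zero, ?_, ?_, ?_⟩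
  · intro j
    exact (Kf σ {b}).mul_mem (hlc _ (hf j)).2 ((Kf σ {b}).inv_mem ((Kf σ {b}).mul_mem hF0K hAK))
  · intro j
    exact Zi_mono hBt ⟨y j, hym j, rfl⟩
  · have h1 : cl σ (fun n => ((f₀ n : ℚ) : ℝ)) * cl σ (fun n => (A n : ℝ)) *
        cl σ (fun n => (R n : ℝ) / A n) = ∑ j, cl σ (fun n => ((f j n : ℚ) : ℝ)) *
          cl σ (fun n => (y j n : ℝ)) := by
      have hm : (fun n => ((f₀ n : ℚ) : ℝ) * (A n : ℝ)) ∈ OO σ :=
        (OO σ).mul_mem (Hq_mem hF0q) hAm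
      rw [← cl_mul (Hq_mem hF0q) hAm, ← cl_mul hm hQm]
      have h2 : ∀ j ∈ (Finset.univ : Finset (Fin s)),
          (fun n => ((f j n : ℚ) : ℝ) * (y j n : ℝ)) ∈ OO σ := fun j _ =>
        (OO σ).mul_mem (Hq_mem (hlc _ (hf j)).1) (hyO j)
      have h3 : ∑ j, cl σ (fun n => ((f j n : ℚ) : ℝ)) * cl σ (fun n => (y j n : ℝ)) =
          cl σ (fun n => ∑ j, ((f j n : ℚ) : ℝ) * (y j n : ℝ)) := by
        rw [(OO_sum Finset.univ _ h2).2]
        refine Finset.sum_congr rfl fun j _ => ?_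
        rw [cl_mul (Hq_mem (hlc _ (hf j)).1) (hyO j)]
      rw [h3]
      apply cl_congr
      filter_upwards [hR] with n hn
      have h4 : ((f₀ n : ℚ) : ℝ) * (R n : ℝ) = ∑ j, ((f j n : ℚ) : ℝ) * (y j n : ℝ) := by
        exact_mod_cast hn
      rw [← h4]
      have h5 := (hApos n).ne'
      field_simp
    have h6 : cl σ (fun n => ((f₀ n : ℚ) : ℝ)) * cl σ (fun n => (A n : ℝ)) ≠ 0 :=
      mul_ne_zero hF0 hA0
    rw [one_mul]
    have h7 : ∑ j, cl σ (fun n => ((f j n : ℚ) : ℝ)) *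
        (cl σ (fun n => ((f₀ n : ℚ) : ℝ)) * cl σ (fun n => (A n : ℝ)))⁻¹ *
        cl σ (fun n => (y j n : ℝ)) =
        (cl σ (fun n => ((f₀ n : ℚ) : ℝ)) * cl σ (fun n => (A n : ℝ)))⁻¹ *
        ∑ j, cl σ (fun n => ((f j n : ℚ) : ℝ)) * cl σ (fun n => (y j n : ℝ)) := by
      rw [Finset.mul_sum]
      exact Finset.sum_congr rfl fun j _ => by ring
    rw [h7, ← h1, ← mul_assoc, inv_mul_cancel₀ h6, one_mul]

end Pool.Agent.SLZ
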