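import Pool.Agent.SLZ.Stmts
import Pool.Agent.SBT.MCR

/-!
# DC2: from small polynomials to small integers
-/

set_option autoImplicit false

namespace Pool.Agent.SLZ

open Filter Pool.Agent.SBT Pool.Agent.SGL

theorem dc2_proof (hMSM : Stmt_MSM) : Stmt_DC2 := by
  intro U S T n r d g κ h a Z N hG hκ ha hZ hZB hN hne
  obtain ⟨Δ, hΔ, hz⟩ := (hMSM U S T r g κ a (n * d)
    (fun i => N (finProdFinEquiv.symm i).1 (finProdFinEquiv.symm i).2) hG hκ ha
    (fun i => hN _ _)).2
  have hz' : ∀ᶠ m in (U : Filter ℕ), ∀ c j, ∃ z : ℤ, (Δ m : ℚ) * ev g m (N c j) = z * a m := by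
    refine hz.mono fun m hm c j => ?_
    have := hm (finProdFinEquiv (c, j))
    rw [Equiv.symm_apply_apply] at this
    exact this
  have hex : ∀ m, ∃ z : Fin n → Fin d → ℤ,
      (∀ c j, ∃ z : ℤ, (Δ m : ℚ) * ev g m (N c j) = z * a m) →
        ∀ c j, (Δ m : ℚ) * ev g m (N c j) = z c j * a m := by
    intro m
    by_cases h : ∀ c j, ∃ z : ℤ, (Δ m : ℚ) * ev g m (N c j) = z * a m
    · choose z hz using h
      exact ⟨z, fun _ => hz⟩
    · exact ⟨fun _ _ => 0, fun h' => absurd h' h⟩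
  choose z hz2 using hex
  obtain ⟨q, hq⟩ : ∃ q : Fin n → ℕ → ℤ, q = fun c m => ∑ j, z m c j * Z j m := ⟨_, rfl⟩
  have hqm : ∀ᶠ m in (U : Filter ℕ), ∀ c,
      (Δ m : ℚ) * ∑ j, ev g m (N c j) * (Z j m : ℚ) = (q c m : ℚ) * a m := by
    filter_upwards [hz'] with m hm c
    have h1 := hz2 m hm c
    rw [hq, Finset.mul_sum]
    push_cast
    rw [Finset.sum_mul]
    refine Finset.sum_congr rfl fun j _ => ?_
    rw [← mul_assoc, h1 j]
    ring
  have hqm' : ∀ᶠ m in (U : Filter ℕ), ∀ c,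
      (Δ m : ℝ) * ((∑ j, ev g m (N c j) * (Z j m : ℚ) : ℚ) : ℝ) = (q c m : ℝ) * a m := by
    refine hqm.mono fun m hm c => ?_
    exact_mod_cast hm c
  refine ⟨q, Δ, hΔ, hqm, ?_, ?_⟩
  · obtain ⟨c₀, hc₀⟩ := hne
    refine ⟨c₀, ?_⟩
    have hnz : ∀ᶠ m in (U : Filter ℕ), ∑ j, ev g m (N c₀ j) * (Z j m : ℚ) ≠ 0 := by
      rcases ult_em U (fun m => ∑ j, ev g m (N c₀ j) * (Z j m : ℚ) = 0) with h | h
      · exact absurd (hZ (N c₀) h) hc₀
      · exact h
    filter_upwards [hnz, hqm, hΔ] with m h1 h2 h3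
    intro h
    have h5 := h2 c₀
    rw [h] at h5
    have h6 : (Δ m : ℚ) ≠ 0 := by exact_mod_cast h3.1.ne'
    have h7 : (Δ m : ℚ) * ∑ j, ev g m (N c₀ j) * (Z j m : ℚ) = 0 := by
      rw [h5]
      simp
    rcases mul_eq_zero.1 h7 with h8 | h8
    · exact h6 h8
    · exact h1 h8
  · have hN1 : ∀ᶠ m in (U : Filter ℕ), ∀ c j, |((ev g m (N c j) : ℚ) : ℝ)| ≤
        Real.exp ((κ + 1) * T m) * a m := by
      rw [eventually_all]
      intro c
      rw [eventually_all]
      intro j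
      exact MCR_.ub hMSM hG hκ ha (hN c j)
    filter_upwards [hqm', hΔ, hN1, hZB, MCR_.const_le hG.lim (d : ℝ)] with m h1 h2 h3 h4 h5 c
    have ha0 : (0 : ℝ) < (a m : ℚ) := by exact_mod_cast (ha m).1
    have hΔ0 : (0 : ℝ) < Δ m := by exact_mod_cast h2.1
    have e1 : |((∑ j, ev g m (N c j) * (Z j m : ℚ) : ℚ) : ℝ)| ≤
        Real.exp (1 * T m) * (Real.exp ((κ + 1) * T m) * a m * Real.exp (h * T m)) := by
      push_cast
      refine (Finset.abs_sum_le_sum_abs _ _).trans ?_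
      calc ∑ j, |((ev g m (N c j) : ℚ) : ℝ) * (Z j m : ℝ)|
          ≤ ∑ _j : Fin d, (Real.exp ((κ + 1) * T m) * a m * Real.exp (h * T m)) := by
            refine Finset.sum_le_sum fun j _ => ?_
            rw [abs_mul]
            exact mul_le_mul (h3 c j) (h4 j) (abs_nonneg _) (by positivity)
        _ = d * (Real.exp ((κ + 1) * T m) * a m * Real.exp (h * T m)) := by
            rw [Finset.sum_const, Finset.card_univ, Fintype.card_fin, nsmul_eq_mul]
        _ ≤ _ := mul_le_mul_of_nonneg_right h5 (by positivity)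
    have e2 : |(q c m : ℝ)| * a m ≤
        Real.exp ((κ * S.card + 1 + (κ + h + 2)) * T m) * a m := by
      calc |(q c m : ℝ)| * a m = |(Δ m : ℝ) * ((∑ j, ev g m (N c j) * (Z j m : ℚ) : ℚ) : ℝ)| := by
            rw [h1 c, abs_mul, abs_of_pos ha0]
        _ = Δ m * |((∑ j, ev g m (N c j) * (Z j m : ℚ) : ℚ) : ℝ)| := by
            rw [abs_mul, abs_of_pos hΔ0]
        _ ≤ Real.exp ((κ * S.card + 1) * T m) *
            (Real.exp (1 * T m) * (Real.exp ((κ + 1) * T m) * a m * Real.exp (h * T m))) :=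
            mul_le_mul h2.2 e1 (abs_nonneg _) (Real.exp_pos _).le
        _ = _ := by
            have : Real.exp ((κ * S.card + 1 + (κ + h + 2)) * T m) =
                Real.exp ((κ * S.card + 1) * T m) * (Real.exp (1 * T m) *
                  (Real.exp ((κ + 1) * T m) * Real.exp (h * T m))) := by
              rw [MCR_.ee, MCR_.ee, MCR_.ee]
              congr 1
              ring
            rw [this]
            ring
    exact le_of_mul_le_mul_right e2 ha0

end Pool.Agent.SLZ
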