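import Pool.Agent.SLZ.Stmts
import Pool.Agent.SBT.MCR

/-!
# DCO: the core of the dichotomy
-/

set_option autoImplicit false

namespace Pool.Agent.SLZ

open Filter Pool.Agent.SBT Pool.Agent.SGL

namespace DCO_

/-- the constant of the units -/
noncomputable def k1 (s h : ℝ) : ℝ := (s * s) * ((s * s) * ((s * s) * (2 * h) + 1))

theorem k1_nonneg {s h : ℝ} (hs : 0 ≤ s) (hh : 0 ≤ h) : 0 ≤ k1 s h := by
  unfold k1
  positivity

theorem k1_le {s h : ℝ} (hs : 0 ≤ s) (hh : 0 ≤ h) : k1 s h ≤ 2 * ((s + 1) ^ 6 * (h + 1)) := by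
  unfold k1
  have h1 : s * s ≤ (s + 1) ^ 2 := by nlinarith
  have h0 : (0 : ℝ) ≤ s * s := mul_nonneg hs hs
  have h2 : (1 : ℝ) ≤ (s + 1) ^ 2 := one_le_pow₀ (by linarith)
  have h3 : (s * s) * (2 * h) + 1 ≤ (s + 1) ^ 2 * (2 * (h + 1)) := by nlinarith
  calc (s * s) * ((s * s) * ((s * s) * (2 * h) + 1))
      ≤ (s + 1) ^ 2 * ((s + 1) ^ 2 * ((s + 1) ^ 2 * (2 * (h + 1)))) := by
        apply mul_le_mul h1 _ (by positivity) (by positivity)
        exact mul_le_mul h1 h3 (by positivity) (by positivity)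
    _ = _ := by ring

/-- the inequalities for the constants -/
theorem consts {C₀ σ n s h κ d : ℝ} (hC₀ : 1 ≤ C₀) (hσ : 0 ≤ σ) (hn : 0 ≤ n) (hs : 0 ≤ s)
    (hh : 0 ≤ h) (hd : d ≤ s * s)
    (hκ : 20 * C₀ * (σ + 1) * (n + 1) ^ 2 * (s + 1) ^ 8 * (h + 1) ≤ κ) :
    (n * s * (C₀ * k1 s h) + 2 + (n * s * (C₀ * k1 s h) * σ + 1)) +
        ((d * (2 * h) + k1 s h + 2) + σ * k1 s h + 1) ≤ κ ∧
      (n * s * (C₀ * k1 s h) * σ + 1) + ((C₀ * k1 s h + n * s * (C₀ * k1 s h) + 3 + 2 * h) +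
        (k1 s h * σ + 1) + k1 s h) ≤ κ ∧
      n * s * (C₀ * k1 s h) * σ + 1 + (n * s * (C₀ * k1 s h) + h + 2) ≤ κ := by
  obtain ⟨P, hP⟩ : ∃ P : ℝ, P = C₀ * (n + 1) * (s + 1) ^ 7 * (h + 1) := ⟨_, rfl⟩
  have u1 : (1 : ℝ) ≤ s + 1 := by linarith
  have u7 : (1 : ℝ) ≤ (s + 1) ^ 7 := one_le_pow₀ u1
  have hn1 : (1 : ℝ) ≤ n + 1 := by linarith
  have hh1 : (1 : ℝ) ≤ h + 1 := by linarith
  have hCn : 1 ≤ C₀ * (n + 1) := by nlinarith
  have hCn7 : 1 ≤ C₀ * (n + 1) * (s + 1) ^ 7 := one_le_mul_of_one_le_of_one_le hCn u7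
  have hP1 : 1 ≤ P := by
    rw [hP]
    exact one_le_mul_of_one_le_of_one_le hCn7 hh1
  have hPh : h + 1 ≤ P := by
    rw [hP]
    exact le_mul_of_one_le_left (by linarith) hCn7
  have hk0 := k1_nonneg hs hh
  have hk := k1_le hs hh
  have e6 : (s + 1) ^ 6 * (h + 1) ≤ P := by
    rw [hP]
    calc (s + 1) ^ 6 * (h + 1) ≤ (s + 1) ^ 7 * (h + 1) := by
          apply mul_le_mul_of_nonneg_right _ (by linarith)
          exact pow_le_pow_right₀ u1 (by norm_num)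
      _ = 1 * ((s + 1) ^ 7 * (h + 1)) := (one_mul _).symm
      _ ≤ (C₀ * (n + 1)) * ((s + 1) ^ 7 * (h + 1)) :=
          mul_le_mul_of_nonneg_right hCn (by positivity)
      _ = _ := by ring
  have hk1P : k1 s h ≤ 2 * P := hk.trans (by linarith)
  have e6' : C₀ * ((s + 1) ^ 6 * (h + 1)) ≤ P := by
    rw [hP]
    calc C₀ * ((s + 1) ^ 6 * (h + 1)) ≤ C₀ * ((s + 1) ^ 7 * (h + 1)) := by
          apply mul_le_mul_of_nonneg_left _ (by linarith)
          apply mul_le_mul_of_nonneg_right _ (by linarith)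
          exact pow_le_pow_right₀ u1 (by norm_num)
      _ = 1 * (C₀ * ((s + 1) ^ 7 * (h + 1))) := (one_mul _).symm
      _ ≤ (n + 1) * (C₀ * ((s + 1) ^ 7 * (h + 1))) :=
          mul_le_mul_of_nonneg_right hn1 (by positivity)
      _ = _ := by ring
  have hk2P : C₀ * k1 s h ≤ 2 * P := by
    calc C₀ * k1 s h ≤ C₀ * (2 * ((s + 1) ^ 6 * (h + 1))) :=
          mul_le_mul_of_nonneg_left hk (by linarith)
      _ = 2 * (C₀ * ((s + 1) ^ 6 * (h + 1))) := by ring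
      _ ≤ 2 * P := by linarith
  have hk9P : n * s * (C₀ * k1 s h) ≤ 2 * P := by
    calc n * s * (C₀ * k1 s h) ≤ (n + 1) * (s + 1) * (C₀ * (2 * ((s + 1) ^ 6 * (h + 1)))) := by
          apply mul_le_mul _ (mul_le_mul_of_nonneg_left hk (by linarith)) (by positivity)
            (by positivity)
          exact mul_le_mul (by linarith) (by linarith) hs (by linarith)
      _ = 2 * P := by
          rw [hP]
          ring
  have hdP : d * (2 * h) ≤ 2 * P := by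
    calc d * (2 * h) ≤ (s * s) * (2 * h) := mul_le_mul_of_nonneg_right hd (by linarith)
      _ ≤ (s + 1) ^ 7 * (2 * (h + 1)) := by
          apply mul_le_mul _ (by linarith) (by positivity) (by positivity)
          calc s * s ≤ (s + 1) ^ 2 := by nlinarith
            _ ≤ _ := pow_le_pow_right₀ u1 (by norm_num)
      _ = 2 * (1 * ((s + 1) ^ 7 * (h + 1))) := by ring
      _ ≤ 2 * ((C₀ * (n + 1)) * ((s + 1) ^ 7 * (h + 1))) := by
          apply mul_le_mul_of_nonneg_left _ (by norm_num)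
          exact mul_le_mul_of_nonneg_right hCn (by positivity)
      _ = 2 * P := by
          rw [hP]
          ring
  have hκP : 20 * (σ + 1) * P ≤ κ := by
    refine le_trans ?_ hκ
    rw [hP]
    calc 20 * (σ + 1) * (C₀ * (n + 1) * (s + 1) ^ 7 * (h + 1))
        = (20 * C₀ * (σ + 1) * (h + 1)) * ((n + 1) * (s + 1) ^ 7) := by ring
      _ ≤ (20 * C₀ * (σ + 1) * (h + 1)) * ((n + 1) ^ 2 * (s + 1) ^ 8) := by
          apply mul_le_mul_of_nonneg_left _ (by positivity)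
          apply mul_le_mul _ _ (by positivity) (by positivity)
          · nlinarith
          · exact pow_le_pow_right₀ u1 (by norm_num)
      _ = _ := by ring
  have s1 : n * s * (C₀ * k1 s h) * σ ≤ 2 * P * σ := mul_le_mul_of_nonneg_right hk9P hσ
  have s2 : σ * k1 s h ≤ σ * (2 * P) := mul_le_mul_of_nonneg_left hk1P hσ
  have s3 : 0 ≤ σ * P := mul_nonneg hσ (by linarith)
  have hexp : 20 * (σ + 1) * P = 20 * (σ * P) + 20 * P := by ring
  have s4 : 2 * P * σ = 2 * (σ * P) := by ring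
  have s5 : σ * (2 * P) = 2 * (σ * P) := by ring
  have s6 : k1 s h * σ = σ * k1 s h := mul_comm _ _
  rw [hexp] at hκP
  rw [s4] at s1
  rw [s5] at s2
  rw [s6]
  refine ⟨?_, ?_, ?_⟩ <;> linarith

/-- the bound in the second case -/
theorem real2 {vE x F q₁ νE a b a' E1 E3 : ℝ} (hx : 0 ≤ x)
    (ha : 0 < a) (hb : 0 < b) (hE3 : 0 ≤ E3)
    (h1 : vE * x ≤ F * (q₁ * b * (a * a'))) (h2 : νE ≤ E1 * vE)
    (h4 : a * b ≤ E3 * νE) (hE1 : 0 ≤ E1) : x ≤ E1 * E3 * F * (q₁ * a') := by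
  have hp : 0 < a * b := by positivity
  have e1 : a * b * x ≤ (E3 * (E1 * vE)) * x := by
    have h5 : a * b ≤ E3 * (E1 * vE) := h4.trans (mul_le_mul_of_nonneg_left h2 hE3)
    exact mul_le_mul_of_nonneg_right h5 hx
  have e2 : (E3 * (E1 * vE)) * x ≤ a * b * (E1 * E3 * F * (q₁ * a')) := by
    calc (E3 * (E1 * vE)) * x = (E1 * E3) * (vE * x) := by ring
      _ ≤ (E1 * E3) * (F * (q₁ * b * (a * a'))) :=
          mul_le_mul_of_nonneg_left h1 (by positivity)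
      _ = _ := by ring
  exact le_of_mul_le_mul_left (e1.trans e2) hp

end DCO_

open DCO_ in
theorem dco_proof (hUNI : Stmt_UNI) (hMSM : Stmt_MSM) (hMLA : Stmt_MLA) (hMCF : Stmt_MCF)
    (hMSP : Stmt_MSP) (hMPR : Stmt_MPR) (hHNL : Stmt_HNL) (hDST : Stmt_DST) (hDHI : Stmt_DHI)
    (hDLB : Stmt_DLB) (hDC2 : Stmt_DC2) : Stmt_DCO := by
  classical
  intro S W₀ W₁ hS hGrp₀ hGrp₁ hU₀ hU₁ hSep
  obtain ⟨C₀, hC₀, hMSP⟩ := hMSP S W₀ W₁ hS hGrp₀ hGrp₁ hU₀ hU₁ hSep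
  have hσ : (0 : ℝ) ≤ S.card := Nat.cast_nonneg _
  refine ⟨20 * C₀ * (S.card + 1), ?_, ?_⟩
  · nlinarith
  intro U T n r₀ r₁ d₀ d₁ s g₀ g₁ h κ Λ Λ₂ Z₀ Z₁ X Y q₀ q₁ hG₀ hG₁ hGG hg₀W hg₁W hd₀ hd₁ hh hκ
    hZ₀B hZ₁B hZ₀ hq₀ hq₁ hsm
  have hT := hG₀.lim
  have hTp := ev_pos hT
  obtain ⟨d, Wd, E₀, E, νE, hd, hWB, hW, hE₀n, hνE, hE₀, hEh, hE⟩ :=
    hMPR U S T (r₀ + r₁) d₀ d₁ (Fin.append g₀ g₁) Z₀ Z₁ h hGG hh hZ₀B hZ₁B
  have hs : (0 : ℝ) ≤ s := Nat.cast_nonneg _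
  have hn : (0 : ℝ) ≤ n := Nat.cast_nonneg _
  have hd₀r : (d₀ : ℝ) ≤ s := by exact_mod_cast hd₀
  have hd₁r : (d₁ : ℝ) ≤ s := by exact_mod_cast hd₁
  have hdd : (d₀ : ℝ) * d₁ ≤ s * s := mul_le_mul hd₀r hd₁r (Nat.cast_nonneg _) hs
  have hdd0 : (0 : ℝ) ≤ (d₀ : ℝ) * d₁ := by positivity
  have hk1 : 0 ≤ k1 s h := k1_nonneg hs hh
  have hkm : ((d₀ : ℝ) * d₁) * (((d₀ : ℝ) * d₁) * (((d₀ : ℝ) * d₁) * (2 * h) + 1)) ≤ k1 s h := by
    unfold k1
    gcongr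
  have hE₀' : Ht U S T (Fin.append g₀ g₁) (k1 s h) νE E₀ := MHT_.mono hTp hkm hE₀
  have hE' : ∀ j k w, Ht U S T (Fin.append g₀ g₁) (k1 s h) νE (E j k w) :=
    fun j k w => MHT_.mono hTp hkm (hEh j k w)
  obtain ⟨ε, hε⟩ : ∃ ε, ε ∈ E₀.support := by
    rw [← Finset.Nonempty, Finset.nonempty_iff_ne_empty, Ne, MvPolynomial.support_eq_empty]
    exact hE₀n
  have hεh := hE₀' ε hε
  obtain ⟨a, haeq⟩ : ∃ a : ℕ → ℚ, a = fun m => mon g₀ (lft ε) m := ⟨_, rfl⟩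
  obtain ⟨b, hbeq⟩ : ∃ b : ℕ → ℚ, b = fun m => mon g₁ (rgt ε) m := ⟨_, rfl⟩
  have ha : ∀ m, IsU S (a m) := by
    intro m
    rw [haeq]
    exact MCR_.mon_isU hS hG₀.unit _ m
  have hb : ∀ m, IsU S (b m) := by
    intro m
    rw [hbeq]
    exact MCR_.mon_isU hS hG₁.unit _ m
  have hmon : ∀ m, mon (Fin.append g₀ g₁) ε m = a m * b m := by
    intro m
    rw [haeq, hbeq]
    exact (hMCF r₀ r₁).2.2.2.2.2.2.1 g₀ g₁ m ε
  have hC0 : 0 ≤ C₀ := zero_le_one.trans hC₀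
  have hκ₂ : 0 ≤ C₀ * k1 s h := mul_nonneg hC0 hk1
  have hEl : ∀ j k w, ∀ e ∈ (E j k w).support, ∀ᶠ m in (U : Filter ℕ), ∀ v ∈ pl S,
      av v (mon g₀ (lft e) m) ≤ Real.exp ((C₀ * k1 s h) * T m) * av v (a m) := by
    intro j k w e he
    have h1 := hMSP U T r₀ r₁ g₀ g₁ (k1 s h) νE e ε hT hk1 hg₀W hg₁W hνE (hE' j k w e he) hεh
    rw [haeq]
    exact h1.mono fun m hm v hv => (hm v hv).1
  have hνab : ∀ᶠ m in (U : Filter ℕ),
      ((νE m : ℚ) : ℝ) ≤ Real.exp ((S.card * k1 s h) * T m) * (a m * b m) := by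
    filter_upwards [hεh] with m hm
    have h1 := MCR_.compare hS (MCR_.mon_isU hS hGG.unit ε m) (hνE m) hm
    rw [hmon] at h1
    push_cast at h1
    exact h1
  have habν : ∀ᶠ m in (U : Filter ℕ),
      ((a m : ℚ) : ℝ) * (b m : ℚ) ≤ Real.exp (k1 s h * T m) * νE m := by
    filter_upwards [hεh] with m hm
    have h1 := hm 0 (zero_mem_pl S)
    rw [av_zero_eq, av_zero_eq, hmon] at h1
    have p1 : (0 : ℝ) < (νE m : ℚ) := by exact_mod_cast (hνE m).1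
    rw [abs_of_pos p1] at h1
    push_cast at h1
    exact (le_abs_self _).trans h1
  have hdr : (d : ℝ) ≤ (s : ℝ) * s := by
    have : (d : ℝ) ≤ (d₀ : ℝ) * d₁ := by exact_mod_cast hd
    exact this.trans hdd
  obtain ⟨hc1, hc2, hc3⟩ := consts (n := (n : ℝ)) (κ := κ) hC₀ hσ hn hs hh hdr hκ
  obtain ⟨hN1, hN2, hN3, hN4, hN5⟩ := hHNL n r₀ r₁ d₀ d₁ d E Y
  have hLn : ∀ β w cj, Ht U S T g₀ (C₀ * k1 s h) a (Ln E Y β w cj) :=
    hN5 U S T g₀ (C₀ * k1 s h) a hEl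
  have hJ : (((n * d₀ : ℕ) : ℕ) : ℝ) * (C₀ * k1 s h) ≤ n * s * (C₀ * k1 s h) := by
    push_cast
    exact mul_le_mul_of_nonneg_right (mul_le_mul_of_nonneg_left hd₀r hn) hκ₂
  have hJ0 : 0 ≤ (n : ℝ) * s * (C₀ * k1 s h) := by positivity
  -- high and low monomials
  obtain ⟨hi, hhi⟩ : ∃ hi : (Fin r₁ →₀ ℕ) → Prop, hi = fun β => ∀ᶠ m in (U : Filter ℕ),
      Real.exp (-Λ₂ * T m) * (q₁ m * b m) ≤ ((mon g₁ β m : ℚ) : ℝ) := ⟨_, rfl⟩
  have hhi' : ∀ β, hi β → ∀ᶠ m in (U : Filter ℕ),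
      Real.exp (-Λ₂ * T m) * (q₁ m * b m) ≤ ((mon g₁ β m : ℚ) : ℝ) := by
    intro β h
    rw [hhi] at h
    exact h
  obtain ⟨L, hL⟩ : ∃ L : Matrix ({β // β ∈ (Bn E Y).filter hi} × Fin d) (Fin (n * d₀))
      (MvPolynomial (Fin r₀) ℚ),
      L = fun i j => Ln E Y i.1.1 i.2 (finProdFinEquiv.symm j) := ⟨_, rfl⟩
  have hLi : ∀ i (N : Fin n → Fin d₀ → MvPolynomial (Fin r₀) ℚ),
      ∑ j, L i j * N (finProdFinEquiv.symm j).1 (finProdFinEquiv.symm j).2 =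
        cf i.1.1 (Hn E Y N i.2) := by
    intro i N
    rw [hN1, hL]
    exact Equiv.sum_comp finProdFinEquiv.symm
      (fun cj : Fin n × Fin d₀ => Ln E Y i.1.1 i.2 cj * N cj.1 cj.2)
  rcases hMLA (MvPolynomial (Fin r₀) ℚ) ({β // β ∈ (Bn E Y).filter hi} × Fin d) (n * d₀) L with
    ⟨t, ht⟩ | ⟨ρ', M, hρ', hM0, hLM, hMm⟩
  · left
    have h3 := hDST U S T n r₀ r₁ d₀ d₁ d g₀ g₁ h (k1 s h) Λ Z₀ Z₁ Wd X Y E₀ E νE q₀ q₁ hGG hh
      hk1 hWB hW hνE hE₀' hE hsm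
    have h1 := MCR_.case1 hUNI hMSM hG₀ hκ₂ ha (L.submatrix t id)
      (fun i j => by
        rw [hL]
        exact hLn _ _ _) ht
      (fun j => X (finProdFinEquiv.symm j).1 (finProdFinEquiv.symm j).2)
      (fun m => Real.exp (((d * (2 * h) + k1 s h + 2 - Λ) + S.card * k1 s h + 1 + Λ₂) * T m) *
        q₀ m)
      (hq₀.mono fun m hm => by positivity)
      (fun l => by
        have e : (L.submatrix t id).mulVec
            (fun j => X (finProdFinEquiv.symm j).1 (finProdFinEquiv.symm j).2) l =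
            cf (t l).1.1 (Hn E Y X (t l).2) := hLi (t l) X
        rw [e]
        have hhigh := hhi' _ (Finset.mem_filter.1 (t l).1.2).2
        exact hDHI U T r₀ r₁ g₀ g₁ _ _ Λ₂ (Hn E Y X (t l).2) (t l).1.1 νE a b q₀ q₁ hT
          (fun i m => (hG₀.unit i m).1) (fun m => (ha m).1) (fun m => (hb m).1) hq₀ hq₁
          (h3 (t l).2) hhigh hνab)
    intro c j
    have h2 := h1 (finProdFinEquiv (c, j))
    simp only [Equiv.symm_apply_apply] at h2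
    filter_upwards [h2, hq₀, hTp] with m hm hq hTm
    refine hm.trans ?_
    rw [← mul_assoc, MCR_.ee]
    apply mul_le_mul_of_nonneg_right _ hq.le
    apply Real.exp_le_exp.2
    apply mul_le_mul_of_nonneg_right _ hTm.le
    have e2 : ((n * d₀ : ℕ) : ℝ) * (C₀ * k1 s h) * S.card ≤
        n * s * (C₀ * k1 s h) * S.card := mul_le_mul_of_nonneg_right hJ hσ
    linarith
  · right
    obtain ⟨N, hNeq⟩ : ∃ N : Fin n → Fin d₀ → MvPolynomial (Fin r₀) ℚ,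
        N = fun c j => M (finProdFinEquiv (c, j)) := ⟨_, rfl⟩
    have ha' : ∀ m, IsU S ((fun m => a m ^ ρ') m) := MCR_.pow_isU hS ha ρ'
    have hNh : ∀ c j, Ht U S T g₀ (n * s * (C₀ * k1 s h)) (fun m => a m ^ ρ') (N c j) := by
      intro c j
      rw [hNeq]
      rcases hMm (finProdFinEquiv (c, j)) with hz | ⟨t, cc, hz⟩
      · show Ht U S T g₀ _ _ (M (finProdFinEquiv (c, j)))
        rw [hz]
        exact MHT_.zero _ _
      · have h1 : Ht U S T g₀ (ρ' * (C₀ * k1 s h)) (fun m => a m ^ ρ')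
            (L.submatrix t cc).det :=
          MHT_.det hS fun i j => by
            rw [hL]
            exact hLn _ _ _
        have h2 : Ht U S T g₀ (n * s * (C₀ * k1 s h)) (fun m => a m ^ ρ')
            (L.submatrix t cc).det := by
          refine MHT_.mono hTp ?_ h1
          have : (ρ' : ℝ) ≤ ((n * d₀ : ℕ) : ℝ) := by exact_mod_cast hρ'.le
          exact (mul_le_mul_of_nonneg_right this hκ₂).trans hJ
        show Ht U S T g₀ _ _ (M (finProdFinEquiv (c, j)))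
        rcases hz with hz | hz
        · rw [hz]
          exact h2
        · rw [hz]
          exact MHT_.neg h2
    have hNne : ∃ c, N c ≠ 0 := by
      by_contra hcon
      push Not at hcon
      apply hM0
      funext j
      have h1 := congrFun (hcon (finProdFinEquiv.symm j).1) (finProdFinEquiv.symm j).2
      rw [hNeq] at h1
      simp only [Prod.mk.eta, Equiv.apply_symm_apply] at h1
      exact h1
    have hlow : ∀ β ∈ Bn E Y, (∀ w, ∑ cj : Fin n × Fin d₀, Ln E Y β w cj * N cj.1 cj.2 = 0) ∨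
        ∀ᶠ m in (U : Filter ℕ), ((mon g₁ β m : ℚ) : ℝ) ≤
          Real.exp (-Λ₂ * T m) * (q₁ m * b m) := by
      intro β hβ
      rcases ult_em U (fun m => Real.exp (-Λ₂ * T m) * (q₁ m * b m) ≤
        ((mon g₁ β m : ℚ) : ℝ)) with hz | hz
      · left
        intro w
        have hmem : β ∈ (Bn E Y).filter hi := by
          rw [Finset.mem_filter, hhi]
          exact ⟨hβ, hz⟩
        have h1 := congrFun hLM (⟨β, hmem⟩, w)
        have h2 := hLi (⟨β, hmem⟩, w) (fun c j => M (finProdFinEquiv (c, j)))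
        rw [hN1] at h2
        rw [hNeq, ← h2]
        simp only [Prod.mk.eta, Equiv.apply_symm_apply]
        exact h1
      · right
        exact hz.mono fun m hm => (not_le.1 hm).le
    obtain ⟨q, Δ, hΔ, hqΔ, hqne, hqB⟩ := hDC2 U S T n r₀ d₀ g₀ (n * s * (C₀ * k1 s h)) h
      (fun m => a m ^ ρ') Z₀ N hG₀ hJ0 ha' hZ₀ hZ₀B hNh hNne
    refine ⟨q, hqne, ?_, ?_⟩
    · filter_upwards [hqB, hTp] with m hm hTm c
      refine (hm c).trans ?_
      apply Real.exp_le_exp.2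
      exact mul_le_mul_of_nonneg_right hc3 hTm.le
    have hbd := hDLB U S T n r₀ r₁ d₀ d₁ d g₀ g₁ (C₀ * k1 s h) (n * s * (C₀ * k1 s h)) h Λ₂ a
      (fun m => a m ^ ρ') b q₁ E Y N Wd hG₀ hκ₂ hJ0 ha ha' (fun m => (hb m).1) hq₁
      (fun i m => (hG₁.unit i m).1) hLn hNh hlow hWB
    have l2 := MCR_.lb hUNI hMSM hGG hk1 hνE hE₀' hE₀n
    have hE'' := eventually_all.2 fun j => eventually_all.2 (hE j)
    filter_upwards [hbd, l2, hE'', hqΔ, hΔ, habν, hTp, hq₁] with m hbd l2 hE'' hqΔ hΔ habν hTm hq₁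
    have p1 : (0 : ℝ) < (νE m : ℚ) := by exact_mod_cast (hνE m).1
    have pa : (0 : ℝ) < (a m : ℚ) := by exact_mod_cast (ha m).1
    have pb : (0 : ℝ) < (b m : ℚ) := by exact_mod_cast (hb m).1
    have pΔ : (0 : ℝ) < Δ m := by exact_mod_cast hΔ.1
    have pa' : (0 : ℝ) < ((a m ^ ρ' : ℚ) : ℝ) := by
      push_cast
      positivity
    -- the combination
    obtain ⟨x, hx⟩ : ∃ x : ℚ, x = ∑ c, (∑ j, ev g₀ m (N c j) * (Z₀ j m : ℚ)) *
        ∑ k, ev g₁ m (Y c k) * (Z₁ k m : ℚ) := ⟨_, rfl⟩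
    have e4 : ∑ w, ev (Fin.append g₀ g₁) m (Hn E Y N w) * (Wd w m : ℚ) =
        ev (Fin.append g₀ g₁) m E₀ * x := by
      rw [hx]
      exact hN4 N g₀ g₁ m _ (fun j => (Z₀ j m : ℚ)) (fun k => (Z₁ k m : ℚ))
        (fun w => (Wd w m : ℚ)) hE''
    rw [e4] at hbd
    push_cast at hbd
    rw [abs_mul] at hbd
    have e5 : |((x : ℚ) : ℝ)| ≤ Real.exp ((k1 s h * S.card + 1) * T m) *
        Real.exp (k1 s h * T m) *
        Real.exp ((C₀ * k1 s h + n * s * (C₀ * k1 s h) + 3 + 2 * h - Λ₂) * T m) *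
          (q₁ m * ((a m ^ ρ' : ℚ) : ℝ)) := by
      refine real2 (abs_nonneg _) pa pb (Real.exp_pos _).le ?_ l2 habν (Real.exp_pos _).le
      push_cast
      exact hbd
    have e6 : (∑ c, (q c m : ℚ) * ∑ k, ev g₁ m (Y c k) * (Z₁ k m : ℚ)) * a m ^ ρ' =
        (Δ m : ℚ) * x := by
      rw [hx, Finset.sum_mul, Finset.mul_sum]
      refine Finset.sum_congr rfl fun c _ => ?_
      have := hqΔ c
      calc (q c m : ℚ) * (∑ k, ev g₁ m (Y c k) * (Z₁ k m : ℚ)) * a m ^ ρ'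
          = ((q c m : ℚ) * a m ^ ρ') * (∑ k, ev g₁ m (Y c k) * (Z₁ k m : ℚ)) := by ring
        _ = _ := by
            rw [← this]
            ring
    have e7 : |((∑ c, (q c m : ℚ) * ∑ k, ev g₁ m (Y c k) * (Z₁ k m : ℚ) : ℚ) : ℝ)| *
        ((a m ^ ρ' : ℚ) : ℝ) = Δ m * |((x : ℚ) : ℝ)| := by
      have h8 : ((∑ c, (q c m : ℚ) * ∑ k, ev g₁ m (Y c k) * (Z₁ k m : ℚ) : ℚ) : ℝ) *
          ((a m ^ ρ' : ℚ) : ℝ) = (Δ m : ℝ) * ((x : ℚ) : ℝ) := by
        exact_mod_cast e6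
      rw [← abs_of_pos pa', ← abs_mul, h8, abs_mul, abs_of_pos pΔ]
    refine le_of_mul_le_mul_right ?_ pa'
    rw [e7]
    calc (Δ m : ℝ) * |((x : ℚ) : ℝ)| ≤
          Real.exp ((n * s * (C₀ * k1 s h) * S.card + 1) * T m) *
          (Real.exp ((k1 s h * S.card + 1) * T m) *
        Real.exp (k1 s h * T m) *
        Real.exp ((C₀ * k1 s h + n * s * (C₀ * k1 s h) + 3 + 2 * h - Λ₂) * T m) *
          (q₁ m * ((a m ^ ρ' : ℚ) : ℝ))) :=
          mul_le_mul hΔ.2 e5 (abs_nonneg _) (Real.exp_pos _).le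
      _ = Real.exp (((n * s * (C₀ * k1 s h) * S.card + 1) + ((k1 s h * S.card + 1) +
            k1 s h + (C₀ * k1 s h + n * s * (C₀ * k1 s h) + 3 + 2 * h - Λ₂))) * T m) *
          (q₁ m * ((a m ^ ρ' : ℚ) : ℝ)) := by
          rw [← MCR_.ee (n * s * (C₀ * k1 s h) * S.card + 1) _ (T m),
            ← MCR_.ee ((k1 s h * S.card + 1) + k1 s h) _ (T m),
            ← MCR_.ee (k1 s h * S.card + 1) (k1 s h) (T m)]
          ring
      _ ≤ Real.exp ((κ - Λ₂) * T m) * (q₁ m * ((a m ^ ρ' : ℚ) : ℝ)) := by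
          apply mul_le_mul_of_nonneg_right _ (by positivity)
          apply Real.exp_le_exp.2
          apply mul_le_mul_of_nonneg_right _ hTm.le
          linarith
      _ = _ := by ring

end Pool.Agent.SLZ
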