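import Pool.Agent.SLZ.Stmts
import Pool.Agent.SBT.MCR

/-!
# SLZ: DHI, the coefficients of the high monomials of the second part are small.
-/

set_option autoImplicit false

namespace Pool.Agent.SLZ

open Filter Pool.Agent.SBT Pool.Agent.SGL

theorem dhi_proof (hMCF : Stmt_MCF) : Stmt_DHI := by
  intro U T r₀ r₁ g₀ g₁ κ₃ κ₄ Λ₂ G β νE a b q₀ q₁ hT hg₀ ha hb hq₀ hq₁ h3 hhigh hν
  have h := MCR_.ev_le (g := g₀) hT (cf β G)
    (fun m => (Real.exp ((κ₃ + κ₄ + Λ₂) * T m) * q₀ m) * a m) ?_ ?_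
  · refine h.mono fun m hm => hm.trans (le_of_eq ?_)
    have : Real.exp ((κ₃ + κ₄ + 1 + Λ₂) * T m) =
        Real.exp (1 * T m) * Real.exp ((κ₃ + κ₄ + Λ₂) * T m) := by
      rw [← Real.exp_add]
      congr 1
      ring
    rw [this]
    ring
  · intro α hα
    obtain ⟨e, he, he1, he2⟩ := ((hMCF r₀ r₁).1 β _ α).1 hα
    filter_upwards [h3 e he, hhigh, hν, hq₀, hq₁] with m h3 h4 h5 h6 h7
    have pm : (0 : ℝ) < ((mon g₀ α m : ℚ) : ℝ) := by
      have : 0 < mon g₀ α m := Finset.prod_pos fun i _ => pow_pos (hg₀ i m) _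
      exact_mod_cast this
    have p2 : (0 : ℝ) < (b m : ℚ) := by exact_mod_cast hb m
    have pa : (0 : ℝ) < (a m : ℚ) := by exact_mod_cast ha m
    have hmon : mon (Fin.append g₀ g₁) e m = mon g₀ α m * mon g₁ β m := by
      rw [(hMCF r₀ r₁).2.2.2.2.2.2.1 g₀ g₁ m e, he1, he2]
    have h8 : ((mon g₀ α m : ℚ) : ℝ) * ((mon g₁ β m : ℚ) : ℝ) ≤
        Real.exp (κ₃ * T m) * (q₀ m * q₁ m * νE m) := by
      refine le_trans ?_ h3
      rw [av_zero_eq, hmon]
      push_cast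
      exact le_abs_self _
    rw [av_zero_eq, abs_of_pos pm]
    have h9 : Real.exp (-Λ₂ * T m) * Real.exp (Λ₂ * T m) = 1 := by
      rw [← Real.exp_add, ← Real.exp_zero]
      congr 1
      ring
    have h10 : Real.exp ((κ₃ + κ₄ + Λ₂) * T m) = Real.exp (κ₃ * T m) *
        (Real.exp (κ₄ * T m) * Real.exp (Λ₂ * T m)) := by
      rw [← Real.exp_add, ← Real.exp_add]
      congr 1
      ring
    have pe3 := Real.exp_pos (κ₃ * T m)
    have pel := Real.exp_pos (Λ₂ * T m)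
    have h11 : ((mon g₀ α m : ℚ) : ℝ) * (Real.exp (-Λ₂ * T m) * (q₁ m * (b m : ℝ))) ≤
        Real.exp (κ₃ * T m) * (q₀ m * q₁ m * (Real.exp (κ₄ * T m) * ((a m : ℝ) * (b m : ℝ)))) := by
      refine (mul_le_mul_of_nonneg_left h4 pm.le).trans (h8.trans ?_)
      refine mul_le_mul_of_nonneg_left ?_ pe3.le
      exact mul_le_mul_of_nonneg_left h5 (mul_pos h6 h7).le
    have h12 : ((mon g₀ α m : ℚ) : ℝ) * (q₁ m * (b m : ℝ)) ≤
        (Real.exp ((κ₃ + κ₄ + Λ₂) * T m) * q₀ m * (a m : ℝ)) * (q₁ m * (b m : ℝ)) := by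
      have h13 := mul_le_mul_of_nonneg_right h11 pel.le
      calc ((mon g₀ α m : ℚ) : ℝ) * (q₁ m * (b m : ℝ))
          = (mon g₀ α m : ℝ) * (q₁ m * (b m : ℝ)) *
            (Real.exp (-Λ₂ * T m) * Real.exp (Λ₂ * T m)) := by rw [h9, mul_one]
        _ = ((mon g₀ α m : ℚ) : ℝ) * (Real.exp (-Λ₂ * T m) * (q₁ m * (b m : ℝ))) *
            Real.exp (Λ₂ * T m) := by ring
        _ ≤ _ := h13
        _ = _ := by
            rw [h10]
            ring
    exact le_of_mul_le_mul_right h12 (mul_pos h7 p2)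
  · filter_upwards [hq₀] with m hm
    have pa : (0 : ℝ) < (a m : ℚ) := by exact_mod_cast ha m
    positivity

end Pool.Agent.SLZ
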