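import Pool.Agent.SLZ.Stmts
import Pool.Agent.SBT.MCR
import Pool.Agent.SGL.QLD

/-!
# DIC: the dichotomy
-/

set_option autoImplicit false

namespace Pool.Agent.SLZ

open Filter Pool.Agent.SBT Pool.Agent.SGL

attribute [local irreducible] Pool.Agent.SGL.instFieldOm

namespace DIC_

variable {σ : Sc}

/-- upper bounds for a quotient -/
theorem quot {f q : ℕ → ℝ} {x : Om σ} {c : ℝ} (hf : f ∈ OO σ) (hq : q ∈ OO σ) (h0 : cl σ q ≠ 0)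
    (hx : x * cl σ q = cl σ f)
    (h : ∀ᶠ m in (σ.U : Filter ℕ), |f m| ≤ Real.exp (c * σ.T m) * |q m|) : V x c := by
  have hS : ¬ SS σ q := fun h1 => h0 ((cl_zero_iff hq).2 h1)
  have hi := inv_mem hS
  have e : x = cl σ (fun m => f m * (q m)⁻¹) := by
    rw [cl_mul hf hi, cl_inv hq h0, ← hx, mul_assoc, mul_inv_cancel₀ h0, mul_one]
  have hfg : (fun m => f m * (q m)⁻¹) ∈ OO σ := (OO σ).mul_mem hf hi
  rw [e, V_cl hfg]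
  intro c' hc'
  filter_upwards [h, ne_zero_of_not_SS hS, σ.large 0] with m h1 h2 h3
  have h4 : 0 < |q m| := abs_pos.2 h2
  rw [abs_mul, abs_inv, ← div_eq_mul_inv, div_le_iff₀ h4]
  refine h1.trans (mul_le_mul_of_nonneg_right ?_ h4.le)
  exact Real.exp_le_exp.2 (mul_le_mul_of_nonneg_right hc'.le h3)

theorem quot_conv {f q : ℕ → ℝ} {x : Om σ} {c c' : ℝ} (hf : f ∈ OO σ) (hq : q ∈ OO σ)
    (h0 : cl σ q ≠ 0) (hx : x * cl σ q = cl σ f) (hV : V x c) (hc : c < c') :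
    ∀ᶠ m in (σ.U : Filter ℕ), |f m| ≤ Real.exp (c' * σ.T m) * |q m| := by
  have hS : ¬ SS σ q := fun h1 => h0 ((cl_zero_iff hq).2 h1)
  have hi := inv_mem hS
  have e : x = cl σ (fun m => f m * (q m)⁻¹) := by
    rw [cl_mul hf hi, cl_inv hq h0, ← hx, mul_assoc, mul_inv_cancel₀ h0, mul_one]
  have hfg : (fun m => f m * (q m)⁻¹) ∈ OO σ := (OO σ).mul_mem hf hi
  rw [e, V_cl hfg] at hV
  filter_upwards [hV c' hc, ne_zero_of_not_SS hS] with m h1 h2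
  have h4 : 0 < |q m| := abs_pos.2 h2
  rwa [abs_mul, abs_inv, ← div_eq_mul_inv, div_le_iff₀ h4] at h1

/-- the data of one side -/
theorem side (hIRD : Stmt_IRD) (hKQT : Stmt_KQT) (hKWD : Stmt_KWD) (hGAU : Stmt_GAU)
    {A S : Finset ℕ} {n s : ℕ} {h : ℝ} {x : Fin n → Om σ} (hA : ∀ a ∈ A, 2 ≤ a) (hPS : PS S)
    (hSA : ∀ p : ℕ, p.Prime → ∀ a ∈ A, p ∣ a → p ∈ S) (hx : Dv σ A s h x) :
    ∃ (d r : ℕ) (g : Fin r → ℕ → ℚ) (Z : Fin d → ℕ → ℤ) (κ : Fin n → Fin d → Om σ)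
      (Q : MvPolynomial (Fin r) ℚ) (X : Fin n → Fin d → MvPolynomial (Fin r) ℚ),
      d ≤ s ∧ Gd σ.U S σ.T g ∧ (∀ i, g i ∈ Wv (Wg A)) ∧
      (∀ᶠ m in (σ.U : Filter ℕ), ∀ i, |(Z i m : ℝ)| ≤ Real.exp (h * σ.T m)) ∧
      Indp σ.U g Z ∧ (fun m => ((ev g m Q : ℚ) : ℝ)) ∈ OO σ ∧
      cl σ (fun m => ((ev g m Q : ℚ) : ℝ)) ≠ 0 ∧
      (∀ c j, (fun m => ((ev g m (X c j) : ℚ) : ℝ)) ∈ OO σ) ∧
      (∀ c j, κ c j * cl σ (fun m => ((ev g m Q : ℚ) : ℝ)) =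
        cl σ (fun m => ((ev g m (X c j) : ℚ) : ℝ))) ∧
      (∀ c, x c = ∑ j, κ c j * cl σ (fun m => (Z j m : ℝ))) := by
  obtain ⟨z, κ, hz, hκ, hxz⟩ := hx
  obtain ⟨d, ι, hd, hI, hzz⟩ := hIRD (Om σ) (Kf σ A) s z
  choose μ hμ hzμ using hzz
  choose Y hY hYz using hz
  have hκ' : ∀ (c : Fin n) (i : Fin d), ∑ j, κ c j * μ j i ∈ Kf σ A := fun c i =>
    (Kf σ A).sum_mem fun j _ => (Kf σ A).mul_mem (hκ c j) (hμ j i)
  obtain ⟨r, g, Q, P, hG, hW, hQ, hQP⟩ := hKQT σ A S (n * d)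
    (fun p => ∑ j, κ (finProdFinEquiv.symm p).1 j * μ j (finProdFinEquiv.symm p).2)
    hPS hA hSA (fun p => hκ' _ _)
  obtain ⟨-, -, hK3⟩ := hKWD σ A hA
  have hQ0 : cl σ (fun n => ((ev g n Q : ℚ) : ℝ)) ≠ 0 := fun h =>
    hQ (QLD_.ev_ne hGAU hKWD hA hG hW Q h)
  have hevm : ∀ P : MvPolynomial (Fin r) ℚ, (fun n => ((ev g n P : ℚ) : ℝ)) ∈ OO σ :=
    fun P => (hK3 r g P hW).1
  have hYm : ∀ i, (fun m => (Y (ι i) m : ℝ)) ∈ OO σ := fun i => Zi_OO (hY (ι i))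
  refine ⟨d, r, g, fun i => Y (ι i), fun c i => ∑ j, κ c j * μ j i, Q,
    fun c j => P (finProdFinEquiv (c, j)), hd, hG, ?_, ?_, ?_, hevm Q, hQ0, fun c j => hevm _,
    ?_, ?_⟩
  · intro i m
    obtain ⟨e, C, h1, -⟩ := hW i
    exact ⟨fun b => e b m, h1 m⟩
  · rw [eventually_all]
    intro i
    exact hY (ι i)
  · intro H hH
    have h1 : ∀ᶠ n in (σ.U : Filter ℕ),
        (∑ j, ((ev g n (H j) : ℚ) : ℝ) * (Y (ι j) n : ℝ)) = 0 := by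
      filter_upwards [hH] with n hn
      exact_mod_cast hn
    have h2 := QLD_.cl_sum (σ := σ) Finset.univ
      (fun j n => ((ev g n (H j) : ℚ) : ℝ) * (Y (ι j) n : ℝ))
      (fun j _ => (OO σ).mul_mem (hevm (H j)) (hYm j))
    have h3 : cl σ (fun n => ∑ j, ((ev g n (H j) : ℚ) : ℝ) * (Y (ι j) n : ℝ)) = 0 := by
      rw [← cl_zero (σ := σ)]
      exact cl_congr h1
    rw [h2.2] at h3
    have h4 : ∑ j, cl σ (fun n => ((ev g n (H j) : ℚ) : ℝ)) * z (ι j) = 0 := by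
      rw [← h3]
      apply Finset.sum_congr rfl
      intro j _
      rw [cl_mul (hevm (H j)) (hYm j), hYz (ι j)]
    have h5 := hI _ (fun j => (hK3 r g (H j) hW).2) h4
    funext j
    exact QLD_.ev_ne hGAU hKWD hA hG hW (H j) (congrFun h5 j)
  · intro c j
    have h1 := hQP (finProdFinEquiv (c, j))
    simp only [Equiv.symm_apply_apply] at h1
    exact h1
  · intro c
    rw [hxz c]
    have e1 : ∀ i, cl σ (fun m => (Y (ι i) m : ℝ)) = z (ι i) := fun i => hYz (ι i)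
    have e2 : ∑ j, κ c j * z j = ∑ j, ∑ i, κ c j * μ j i * z (ι i) := by
      apply Finset.sum_congr rfl
      intro j _
      rw [hzμ j, Finset.mul_sum]
      apply Finset.sum_congr rfl
      intro i _
      ring
    rw [e2, Finset.sum_comm]
    apply Finset.sum_congr rfl
    intro i _
    rw [e1 i, Finset.sum_mul]

/-- the class of the numerator of a coordinate -/
theorem num_cl {n d r : ℕ} {g : Fin r → ℕ → ℚ} {Z : Fin d → ℕ → ℤ} {κ : Fin n → Fin d → Om σ}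
    {Q : MvPolynomial (Fin r) ℚ} {X : Fin n → Fin d → MvPolynomial (Fin r) ℚ} {x : Fin n → Om σ}
    (hZ : ∀ j, (fun m => (Z j m : ℝ)) ∈ OO σ)
    (hX : ∀ c j, (fun m => ((ev g m (X c j) : ℚ) : ℝ)) ∈ OO σ)
    (hκ : ∀ c j, κ c j * cl σ (fun m => ((ev g m Q : ℚ) : ℝ)) =
        cl σ (fun m => ((ev g m (X c j) : ℚ) : ℝ)))
    (hx : ∀ c, x c = ∑ j, κ c j * cl σ (fun m => (Z j m : ℝ))) (c : Fin n) :
    (fun m => ((∑ j, ev g m (X c j) * (Z j m : ℚ) : ℚ) : ℝ)) ∈ OO σ ∧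
      cl σ (fun m => ((∑ j, ev g m (X c j) * (Z j m : ℚ) : ℚ) : ℝ)) =
        x c * cl σ (fun m => ((ev g m Q : ℚ) : ℝ)) := by
  have h2 := QLD_.cl_sum (σ := σ) Finset.univ
    (fun j m => ((ev g m (X c j) : ℚ) : ℝ) * (Z j m : ℝ))
    (fun j _ => (OO σ).mul_mem (hX c j) (hZ j))
  have e : (fun m => ((∑ j, ev g m (X c j) * (Z j m : ℚ) : ℚ) : ℝ)) =
      fun m => ∑ j, ((ev g m (X c j) : ℚ) : ℝ) * (Z j m : ℝ) := by
    funext m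
    push_cast
    rfl
  rw [e]
  refine ⟨h2.1, ?_⟩
  rw [h2.2, hx c, Finset.sum_mul]
  apply Finset.sum_congr rfl
  intro j _
  rw [cl_mul (hX c j) (hZ j), ← hκ c j]
  ring

/-- the class of a sequence of nonzero integers is not zero -/
theorem int_ne {y : ℕ → ℤ} (hy : (fun m => (y m : ℝ)) ∈ OO σ)
    (h : ∀ᶠ m in (σ.U : Filter ℕ), y m ≠ 0) : cl σ (fun m => (y m : ℝ)) ≠ 0 := by
  intro h0
  rw [cl_zero_iff hy] at h0
  obtain ⟨m, h1, h2, h3⟩ := ((h0 1).and (h.and (σ.large 1))).exists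
  have h4 : (1 : ℝ) ≤ |(y m : ℝ)| := by
    have h5 : 1 ≤ |y m| := Int.one_le_abs h2
    exact_mod_cast h5
  have h6 : Real.exp (-(1 * σ.T m)) < 1 := by
    rw [Real.exp_lt_one_iff]
    linarith
  linarith

theorem const_bd {C h : ℝ} {n s E : ℕ} (hC : 1 ≤ C) (hh : 0 ≤ h) (hE8 : 8 ≤ E)
    (hE : C * ((n : ℝ) + 1) ^ 2 + 2 ≤ E) :
    C * ((n : ℝ) + 1) ^ 2 * ((s : ℝ) + 1) ^ 8 * (h + 1) + 1 + h ≤
      E * ((s : ℝ) + 1) ^ E * (h + 1) := by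
  have h1 : (1 : ℝ) ≤ (s : ℝ) + 1 := by
    have : (0 : ℝ) ≤ s := Nat.cast_nonneg s
    linarith
  have h2 : (1 : ℝ) ≤ ((s : ℝ) + 1) ^ 8 := one_le_pow₀ h1
  have h3 : ((s : ℝ) + 1) ^ 8 ≤ ((s : ℝ) + 1) ^ E := pow_le_pow_right₀ h1 hE8
  have h4 : 0 ≤ C * ((n : ℝ) + 1) ^ 2 := by positivity
  have h5 : (C * ((n : ℝ) + 1) ^ 2 + 1) * ((s : ℝ) + 1) ^ 8 ≤ E * ((s : ℝ) + 1) ^ E :=
    mul_le_mul (by linarith) h3 (by positivity) (by positivity)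
  have h6 : C * ((n : ℝ) + 1) ^ 2 * ((s : ℝ) + 1) ^ 8 + 1 ≤ E * ((s : ℝ) + 1) ^ E := by
    nlinarith
  have h7 := mul_le_mul_of_nonneg_right h6 (by linarith : 0 ≤ h + 1)
  nlinarith

end DIC_

open DIC_

theorem dic_proof (hDCO : Stmt_DCO) (hSEF : Stmt_SEF) (hJOI : Stmt_JOI) (hIRD : Stmt_IRD)
    (hKQT : Stmt_KQT) (hKWD : Stmt_KWD) (hGAU : Stmt_GAU) : Stmt_DIC := by
  intro A B n hA hB hTI
  classical
  set S : Finset ℕ := (A ∪ B).biUnion Nat.primeFactors with hS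
  have hPS : PS S := by
    intro p hp
    obtain ⟨b, -, h⟩ := Finset.mem_biUnion.1 hp
    exact Nat.prime_of_mem_primeFactors h
  have hSA : ∀ p : ℕ, p.Prime → ∀ b ∈ A, p ∣ b → p ∈ S := by
    intro p hp b hb hpb
    exact Finset.mem_biUnion.2 ⟨b, Finset.mem_union_left _ hb, Nat.mem_primeFactors.2 ⟨hp, hpb, by
      have := hA b hb
      omega⟩⟩
  have hSB : ∀ p : ℕ, p.Prime → ∀ b ∈ B, p ∣ b → p ∈ S := by
    intro p hp b hb hpb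
    exact Finset.mem_biUnion.2 ⟨b, Finset.mem_union_right _ hb, Nat.mem_primeFactors.2 ⟨hp, hpb, by
      have := hB b hb
      omega⟩⟩
  have hAB : ∀ p : ℕ, p.Prime → (∃ a ∈ A, p ∣ a) ∨ (∃ b ∈ B, p ∣ b) → p ∈ S := by
    intro p hp h
    rcases h with ⟨a, ha, hpa⟩ | ⟨b, hb, hpb⟩
    · exact hSA p hp a ha hpa
    · exact hSB p hp b hb hpb
  have hBA : ∀ p : ℕ, p.Prime → (∃ b ∈ B, p ∣ b) ∨ (∃ a ∈ A, p ∣ a) → p ∈ S :=
    fun p hp h => hAB p hp h.symm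
  obtain ⟨hG₀, hU₀, hSep⟩ := hSEF S A B hPS hA hB hAB
  obtain ⟨hG₁, hU₁, -⟩ := hSEF S B A hPS hB hA hBA
  have hSep := hSep hTI
  have hint : Wg A ∩ Wg B ⊆ {1} := MCR_.inter_one hPS hU₀ hSep
  obtain ⟨C, hC, hD⟩ := hDCO S (Wg A) (Wg B) hPS hG₀ hG₁ hU₀ hU₁ hSep
  obtain ⟨E₀, hE₀⟩ := exists_nat_ge (C * ((n : ℝ) + 1) ^ 2 + 2)
  refine ⟨E₀ + 8, ?_⟩
  intro σ s h Λ Λ₂ x y hh hx hy hV
  have hEc := const_bd (C := C) (h := h) (n := n) (s := s) (E := E₀ + 8) hC hh (by omega) (by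
    push_cast
    linarith)
  set κ : ℝ := C * ((n : ℝ) + 1) ^ 2 * ((s : ℝ) + 1) ^ 8 * (h + 1) with hκ
  obtain ⟨d₀, r₀, g₀, Z₀, μ₀, Q₀, X, hd₀, hGd₀, hW₀, hZ₀, hI₀, hQ₀m, hQ₀, hXm, hXκ, hxZ⟩ :=
    side hIRD hKQT hKWD hGAU hA hPS hSA hx
  obtain ⟨d₁, r₁, g₁, Z₁, μ₁, Q₁, Y, hd₁, hGd₁, hW₁, hZ₁, hI₁, hQ₁m, hQ₁, hYm, hYκ, hyZ⟩ :=
    side hIRD hKQT hKWD hGAU hB hPS hSB hy
  have hGd := hJOI σ.U S σ.T (Wg A) (Wg B) r₀ r₁ g₀ g₁ hG₀ hG₁ hint hW₀ hW₁ hGd₀ hGd₁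
  have hZ₀m : ∀ j, (fun m => (Z₀ j m : ℝ)) ∈ OO σ := fun j =>
    Zi_OO (h := h) (by
      filter_upwards [hZ₀] with m hm
      exact hm j)
  have hZ₁m : ∀ j, (fun m => (Z₁ j m : ℝ)) ∈ OO σ := fun j =>
    Zi_OO (h := h) (by
      filter_upwards [hZ₁] with m hm
      exact hm j)
  have hnx := num_cl hZ₀m hXm hXκ hxZ
  have hny := num_cl hZ₁m hYm hYκ hyZ
  -- positivity of the denominators
  have hq₀ : ∀ᶠ m in (σ.U : Filter ℕ), 0 < |((ev g₀ m Q₀ : ℚ) : ℝ)| := by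
    filter_upwards [ne_zero_of_not_SS (fun h1 => hQ₀ ((cl_zero_iff hQ₀m).2 h1))] with m hm
    exact abs_pos.2 hm
  have hq₁ : ∀ᶠ m in (σ.U : Filter ℕ), 0 < |((ev g₁ m Q₁ : ℚ) : ℝ)| := by
    filter_upwards [ne_zero_of_not_SS (fun h1 => hQ₁ ((cl_zero_iff hQ₁m).2 h1))] with m hm
    exact abs_pos.2 hm
  -- the smallness
  have hsm : ∀ᶠ m in (σ.U : Filter ℕ), |((∑ c, (∑ j, ev g₀ m (X c j) * (Z₀ j m : ℚ)) *
      ∑ k, ev g₁ m (Y c k) * (Z₁ k m : ℚ) : ℚ) : ℝ)| ≤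
      Real.exp (-((Λ - 1) * σ.T m)) * (|((ev g₀ m Q₀ : ℚ) : ℝ)| * |((ev g₁ m Q₁ : ℚ) : ℝ)|) := by
    have h2 := QLD_.cl_sum (σ := σ) Finset.univ
      (fun c m => ((∑ j, ev g₀ m (X c j) * (Z₀ j m : ℚ) : ℚ) : ℝ) *
        ((∑ k, ev g₁ m (Y c k) * (Z₁ k m : ℚ) : ℚ) : ℝ))
      (fun c _ => (OO σ).mul_mem (hnx c).1 (hny c).1)
    have h3 : (∑ c, x c * y c) *
        cl σ (fun m => ((ev g₀ m Q₀ : ℚ) : ℝ) * ((ev g₁ m Q₁ : ℚ) : ℝ)) =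
        cl σ (fun m => ∑ c, ((∑ j, ev g₀ m (X c j) * (Z₀ j m : ℚ) : ℚ) : ℝ) *
        ((∑ k, ev g₁ m (Y c k) * (Z₁ k m : ℚ) : ℚ) : ℝ)) := by
      rw [h2.2, cl_mul hQ₀m hQ₁m, Finset.sum_mul]
      apply Finset.sum_congr rfl
      intro c _
      rw [cl_mul (hnx c).1 (hny c).1, (hnx c).2, (hny c).2]
      ring
    have h4 : cl σ (fun m => ((ev g₀ m Q₀ : ℚ) : ℝ) * ((ev g₁ m Q₁ : ℚ) : ℝ)) ≠ 0 := by
      rw [cl_mul hQ₀m hQ₁m]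
      exact mul_ne_zero hQ₀ hQ₁
    have h6 : (fun m => ((ev g₀ m Q₀ : ℚ) : ℝ) * ((ev g₁ m Q₁ : ℚ) : ℝ)) ∈ OO σ :=
      (OO σ).mul_mem hQ₀m hQ₁m
    have h5 := quot_conv (c := -Λ) (c' := -(Λ - 1)) h2.1 h6 h4 h3 hV (by linarith)
    filter_upwards [h5] with m hm
    rw [abs_mul ((ev g₀ m Q₀ : ℚ) : ℝ), neg_mul] at hm
    push_cast at hm ⊢
    exact hm
  rcases hD σ.U σ.T n r₀ r₁ d₀ d₁ s g₀ g₁ h κ (Λ - 1) Λ₂ Z₀ Z₁ X Y
    (fun m => |((ev g₀ m Q₀ : ℚ) : ℝ)|) (fun m => |((ev g₁ m Q₁ : ℚ) : ℝ)|) hGd₀ hGd₁ hGd hW₀ hW₁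
    hd₀ hd₁ hh le_rfl hZ₀ hZ₁ hI₀ hq₀ hq₁ hsm with hc | ⟨q, hq1, hq2, hq3⟩
  · left
    intro c
    rw [hxZ c]
    apply V_sum
    intro j _
    have h1 : V (μ₀ c j) (κ + Λ₂ - (Λ - 1)) := quot (hXm c j) hQ₀m hQ₀ (hXκ c j) (hc c j)
    have h2 : V (cl σ (fun m => (Z₀ j m : ℝ))) h := Zi_V ⟨Z₀ j, by
      filter_upwards [hZ₀] with m hm
      exact hm j, rfl⟩
    refine V_mono ?_ (V_mul h1 h2)
    linarith
  · right
    have hqm : ∀ c, ∀ᶠ m in (σ.U : Filter ℕ), |(q c m : ℝ)| ≤ Real.exp (κ * σ.T m) := by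
      intro c
      filter_upwards [hq2] with m hm
      exact hm c
    have hqO : ∀ c, (fun m => (q c m : ℝ)) ∈ OO σ := fun c => Zi_OO (hqm c)
    refine ⟨fun c => cl σ (fun m => (q c m : ℝ)), ?_, ?_, ?_⟩
    · obtain ⟨c, hc⟩ := hq1
      exact ⟨c, int_ne (hqO c) hc⟩
    · intro c
      exact Zi_mono (by linarith) ⟨q c, hqm c, rfl⟩
    · have h2 := QLD_.cl_sum (σ := σ) Finset.univ
        (fun c m => (q c m : ℝ) * ((∑ k, ev g₁ m (Y c k) * (Z₁ k m : ℚ) : ℚ) : ℝ))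
        (fun c _ => (OO σ).mul_mem (hqO c) (hny c).1)
      have h3 : (∑ c, cl σ (fun m => (q c m : ℝ)) * y c) *
          cl σ (fun m => ((ev g₁ m Q₁ : ℚ) : ℝ)) =
          cl σ (fun m => ∑ c, (q c m : ℝ) *
            ((∑ k, ev g₁ m (Y c k) * (Z₁ k m : ℚ) : ℚ) : ℝ)) := by
        rw [h2.2, Finset.sum_mul]
        apply Finset.sum_congr rfl
        intro c _
        rw [cl_mul (hqO c) (hny c).1, (hny c).2]
        ring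
      have h4 : V (∑ c, cl σ (fun m => (q c m : ℝ)) * y c) (κ - Λ₂) := by
        refine quot h2.1 hQ₁m hQ₁ h3 ?_
        filter_upwards [hq3] with m hm
        push_cast at hm ⊢
        exact hm
      refine V_mono ?_ h4
      linarith

end Pool.Agent.SLZ
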