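import Pool.Agent.SLZ.Stmts
import Pool.Agent.SBT.MCR

set_option autoImplicit false

namespace Pool.Agent.SLZ

open Filter Pool.Agent.SBT Pool.Agent.SGL

theorem dlb_proof (hMSM : Stmt_MSM) (hHNL : Stmt_HNL) : Stmt_DLB := by
  intro U S T n r₀ r₁ d₀ d₁ d g₀ g₁ κ₂ κ₉ B Λ₂ a a' b A₁ E Y N W hG₀ hκ₂ hκ₉ ha ha' hb hA₁ hg₁ hL hN hlow hWB
  obtain ⟨hcf, -, hsum, -⟩ := hHNL n r₀ r₁ d₀ d₁ d E Y
  have hT := hG₀.lim
  have h1 : ∀ᶠ n in (U : Filter ℕ), ∀ w, ∀ β ∈ Bn E Y,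
      |((mon g₁ β n * ev g₀ n (cf β (Hn E Y N w)) : ℚ) : ℝ)| ≤
        Real.exp ((κ₂ + κ₉ + 1 - Λ₂) * T n) * (A₁ n * b n * (a n * a' n)) := by
    rw [eventually_all]
    intro w
    rw [eventually_all_finset]
    intro β hβ
    rcases hlow β hβ with h | h
    · filter_upwards [hA₁] with n hA
      rw [hcf N β w, h w]
      have p2 : (0 : ℝ) < (b n : ℚ) := by exact_mod_cast hb n
      have p3 : (0 : ℝ) < (a n : ℚ) := by exact_mod_cast (ha n).1
      have p4 : (0 : ℝ) < (a' n : ℚ) := by exact_mod_cast (ha' n).1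
      have : (mon g₁ β n * ev g₀ n 0 : ℚ) = 0 := by simp [ev]
      rw [this]
      simp only [Rat.cast_zero, abs_zero]
      positivity
    · have h2 : Ht U S T g₀ (κ₂ + κ₉) (fun n => a n * a' n) (cf β (Hn E Y N w)) := by
        rw [hcf N β w]
        exact MHT_.sum _ fun cj _ => MHT_.mul hG₀.prime (hL β w cj) (hN _ _)
      have h3 := MCR_.ub hMSM hG₀ (add_nonneg hκ₂ hκ₉)
        (fun n => (ha n).mul hG₀.prime (ha' n)) h2
      filter_upwards [h, h3, hA₁] with n h4 h5 hA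
      have p2 : (0 : ℝ) < (b n : ℚ) := by exact_mod_cast hb n
      have p3 : (0 : ℝ) < (a n : ℚ) := by exact_mod_cast (ha n).1
      have p4 : (0 : ℝ) < (a' n : ℚ) := by exact_mod_cast (ha' n).1
      have pm : (0 : ℝ) < ((mon g₁ β n : ℚ) : ℝ) := by
        have : 0 < mon g₁ β n := Finset.prod_pos fun i _ => pow_pos (hg₁ i n) _
        exact_mod_cast this
      push_cast
      rw [abs_mul, abs_of_pos pm]
      calc ((mon g₁ β n : ℚ) : ℝ) * |((ev g₀ n (cf β (Hn E Y N w)) : ℚ) : ℝ)|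
          ≤ (Real.exp (-Λ₂ * T n) * (A₁ n * b n)) *
            (Real.exp ((κ₂ + κ₉ + 1) * T n) * ((a n * a' n : ℚ) : ℝ)) :=
            mul_le_mul h4 h5 (abs_nonneg _) (by positivity)
        _ = _ := by
            have : Real.exp ((κ₂ + κ₉ + 1 - Λ₂) * T n) =
                Real.exp (-Λ₂ * T n) * Real.exp ((κ₂ + κ₉ + 1) * T n) := by
              rw [MCR_.ee]
              congr 1
              ring
            rw [this]
            push_cast
            ring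
  filter_upwards [h1, hWB, hA₁, MCR_.const_le hT (d : ℝ), MCR_.const_le hT ((Bn E Y).card : ℝ)] with
    n h1 h2 hA h3 h4
  have p2 : (0 : ℝ) < (b n : ℚ) := by exact_mod_cast hb n
  have p3 : (0 : ℝ) < (a n : ℚ) := by exact_mod_cast (ha n).1
  have p4 : (0 : ℝ) < (a' n : ℚ) := by exact_mod_cast (ha' n).1
  obtain ⟨q, hq⟩ : ∃ q : ℝ, q = A₁ n * b n * (a n * a' n) := ⟨_, rfl⟩
  have hq0 : 0 < q := by
    rw [hq]
    positivity
  rw [← hq] at h1 ⊢
  push_cast
  refine (Finset.abs_sum_le_sum_abs _ _).trans ?_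
  have h5 : ∀ w, |((ev (Fin.append g₀ g₁) n (Hn E Y N w) : ℚ) : ℝ) * (W w n : ℝ)| ≤
      (Real.exp (1 * T n) * (Real.exp ((κ₂ + κ₉ + 1 - Λ₂) * T n) * q)) *
        Real.exp (2 * B * T n) := by
    intro w
    rw [abs_mul]
    apply mul_le_mul _ (h2 w) (abs_nonneg _) (by positivity)
    rw [hsum N g₀ g₁ n w]
    push_cast
    refine (Finset.abs_sum_le_sum_abs _ _).trans ?_
    calc ∑ β ∈ Bn E Y, |((mon g₁ β n : ℚ) : ℝ) * ((ev g₀ n (cf β (Hn E Y N w)) : ℚ) : ℝ)|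
        ≤ ∑ _β ∈ Bn E Y, (Real.exp ((κ₂ + κ₉ + 1 - Λ₂) * T n) * q) := by
          refine Finset.sum_le_sum fun β hβ => ?_
          have := h1 w β hβ
          push_cast at this
          exact this
      _ = (Bn E Y).card * (Real.exp ((κ₂ + κ₉ + 1 - Λ₂) * T n) * q) := by
          rw [Finset.sum_const, nsmul_eq_mul]
      _ ≤ _ := mul_le_mul_of_nonneg_right h4 (by positivity)
  calc ∑ w, |((ev (Fin.append g₀ g₁) n (Hn E Y N w) : ℚ) : ℝ) * (W w n : ℝ)|
      ≤ ∑ _w : Fin d, ((Real.exp (1 * T n) * (Real.exp ((κ₂ + κ₉ + 1 - Λ₂) * T n) * q)) *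
        Real.exp (2 * B * T n)) := Finset.sum_le_sum fun w _ => h5 w
    _ = d * ((Real.exp (1 * T n) * (Real.exp ((κ₂ + κ₉ + 1 - Λ₂) * T n) * q)) *
        Real.exp (2 * B * T n)) := by
        rw [Finset.sum_const, Finset.card_univ, Fintype.card_fin, nsmul_eq_mul]
    _ ≤ Real.exp (1 * T n) * ((Real.exp (1 * T n) * (Real.exp ((κ₂ + κ₉ + 1 - Λ₂) * T n) * q)) *
        Real.exp (2 * B * T n)) := mul_le_mul_of_nonneg_right h3 (by positivity)
    _ = _ := by
        have : Real.exp ((κ₂ + κ₉ + 3 + 2 * B - Λ₂) * T n) =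
            Real.exp (1 * T n) * (Real.exp (1 * T n) * (Real.exp ((κ₂ + κ₉ + 1 - Λ₂) * T n) *
              Real.exp (2 * B * T n))) := by
          rw [MCR_.ee, MCR_.ee, MCR_.ee]
          congr 1
          ring
        rw [this]
        ring

end Pool.Agent.SLZ
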