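import Pool.Agent.SLZ.Stmts
import Pool.Agent.SBT.MCR

set_option autoImplicit false

namespace Pool.Agent.SLZ

open Filter Pool.Agent.SBT Pool.Agent.SGL

theorem dst_proof (hS2T : Stmt_S2T) (hMSM : Stmt_MSM) (hHNL : Stmt_HNL) : Stmt_DST := by
  intro U S T n r₀ r₁ d₀ d₁ d g₀ g₁ h κ₁ Λ Z₀ Z₁ W X Y E₀ E νE q₀ q₁ hG hh hκ₁ hWB hW hνE hE₀ hE
    hsm w e he
  have h1 := hS2T U S T (r₀ + r₁) d (Fin.append g₀ g₁) W (2 * h) 1 (fun w => Hn E Y X w) hG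
    (by positivity) one_pos hWB hW w e he
  have hE' := eventually_all.2 fun j => eventually_all.2 (hE j)
  have u2 := MCR_.ub hMSM hG hκ₁ hνE hE₀
  filter_upwards [h1, hE', u2, hsm] with m h1 hE' u2 hsm
  have p2 : (0 : ℝ) < (νE m : ℚ) := by exact_mod_cast (hνE m).1
  have key : ∑ w, ev (Fin.append g₀ g₁) m (Hn E Y X w) * (W w m : ℚ) =
      ev (Fin.append g₀ g₁) m E₀ *
        ∑ c, (∑ j, ev g₀ m (X c j) * (Z₀ j m : ℚ)) * ∑ k, ev g₁ m (Y c k) * (Z₁ k m : ℚ) :=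
    (hHNL n r₀ r₁ d₀ d₁ d E Y).2.2.2.1 X g₀ g₁ m _ (fun j => (Z₀ j m : ℚ))
      (fun k => (Z₁ k m : ℚ)) (fun w => (W w m : ℚ)) hE'
  have hsum : |((∑ w, ev (Fin.append g₀ g₁) m (Hn E Y X w) * (W w m : ℚ) : ℚ) : ℝ)| ≤
      (Real.exp ((κ₁ + 1) * T m) * νE m) * (Real.exp (-(Λ * T m)) * (q₀ m * q₁ m)) := by
    rw [key, Rat.cast_mul, abs_mul]
    exact mul_le_mul u2 hsm (abs_nonneg _) (by positivity)
  refine h1.trans ?_
  calc Real.exp ((d * (2 * h) + 1) * T m) *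
        |((∑ w, ev (Fin.append g₀ g₁) m (Hn E Y X w) * (W w m : ℚ) : ℚ) : ℝ)|
      ≤ Real.exp ((d * (2 * h) + 1) * T m) *
        ((Real.exp ((κ₁ + 1) * T m) * νE m) * (Real.exp (-(Λ * T m)) * (q₀ m * q₁ m))) :=
        mul_le_mul_of_nonneg_left hsum (Real.exp_pos _).le
    _ = _ := by
        have : Real.exp ((d * (2 * h) + κ₁ + 2 - Λ) * T m) =
            Real.exp ((d * (2 * h) + 1) * T m) * (Real.exp ((κ₁ + 1) * T m) *
              Real.exp (-Λ * T m)) := by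
          rw [MCR_.ee, MCR_.ee]
          congr 1
          ring
        rw [this, neg_mul]
        ring

end Pool.Agent.SLZ
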