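import Pool.Agent.SLZ.Stmts

/-!
# Module DVC of squad SLZ (MP_57632f_nt): common denominators
-/

set_option autoImplicit false

namespace Pool.Agent.SLZ

open Filter Pool.Agent.SBT Pool.Agent.SGL

attribute [local irreducible] Pool.Agent.SGL.instFieldOm Pool.Agent.SLZ.instFieldOm2

namespace DVC_

variable {σ : Sc}

theorem Zi_prod {ι : Type*} [DecidableEq ι] {t : ℝ} (q : ι → Om σ) (S : Finset ι)
    (h : ∀ c ∈ S, Zi σ t (q c)) : Zi σ (S.card * t) (∏ c ∈ S, q c) := by
  induction S using Finset.induction_on with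
  | empty =>
    rw [Finset.prod_empty]
    exact Zi_one (by simp)
  | insert a S ha ih =>
    rw [Finset.prod_insert ha, Finset.card_insert_of_notMem ha]
    have h1 := Zi_mul (h a (Finset.mem_insert_self a S))
      (ih (fun c hc => h c (Finset.mem_insert_of_mem hc)))
    have h2 : ((S.card + 1 : ℕ) : ℝ) * t = t + (S.card : ℝ) * t := by
      push_cast
      ring
    rw [h2]
    exact h1

theorem pad {A : Finset ℕ} {s : ℕ} {h : ℝ} {n : ℕ} {x : Fin n → Om σ} (hx : Dv σ A s h x)
    (r : ℕ) : Dv σ A (s + r) h x := by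
  obtain ⟨z, κ, h1, h2, h3⟩ := hx
  refine ⟨Fin.append z (fun _ : Fin r => 0), fun c => Fin.append (κ c) (fun _ : Fin r => 0),
    ?_, ?_, ?_⟩
  · intro j
    refine Fin.addCases (fun i => ?_) (fun i => ?_) j
    · rw [Fin.append_left]
      exact h1 i
    · rw [Fin.append_right]
      exact Zi_zero h
  · intro c j
    dsimp only
    refine Fin.addCases (fun i => ?_) (fun i => ?_) j
    · rw [Fin.append_left]
      exact h2 c i
    · rw [Fin.append_right]
      exact (Kf σ A).zero_mem
  · intro c
    rw [h3 c, Fin.sum_univ_add]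
    have e1 : ∀ i : Fin s, Fin.append (κ c) (fun _ : Fin r => (0 : Om σ)) (Fin.castAdd r i) *
        Fin.append z (fun _ : Fin r => (0 : Om σ)) (Fin.castAdd r i) = κ c i * z i := by
      intro i
      rw [Fin.append_left, Fin.append_left]
    have e2 : ∀ i : Fin r, Fin.append (κ c) (fun _ : Fin r => (0 : Om σ)) (Fin.natAdd s i) *
        Fin.append z (fun _ : Fin r => (0 : Om σ)) (Fin.natAdd s i) = 0 := by
      intro i
      rw [Fin.append_right, Fin.append_right, mul_zero]
    rw [Finset.sum_congr rfl (fun i _ => e1 i), Finset.sum_congr rfl (fun i _ => e2 i),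
      Finset.sum_const_zero, add_zero]

end DVC_

open DVC_ in
theorem dvc_proof : Stmt_DVC := by
  classical
  intro σ A n t x ht hx
  choose d q κ z h1 h2 h3 h4 h5 h6 using hx
  have hn : (0 : ℝ) ≤ (n : ℝ) := Nat.cast_nonneg n
  refine ⟨∏ c, q c, ∑ c, d c, ?_, ?_, ?_, ?_⟩
  · have := DVC_.Zi_prod q (Finset.univ : Finset (Fin n)) (fun c _ => h2 c)
    rwa [Finset.card_univ, Fintype.card_fin] at this
  · exact Finset.prod_ne_zero_iff.2 (fun c _ => h3 c)
  · push_cast
    have h7 : ∑ c : Fin n, (d c : ℝ) ≤ ∑ _c : Fin n, t := Finset.sum_le_sum (fun c _ => h1 c)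
    rw [Finset.sum_const, Finset.card_univ, Fintype.card_fin, nsmul_eq_mul] at h7
    exact h7
  · intro s' hs'
    obtain ⟨r, rfl⟩ := Nat.exists_eq_add_of_le hs'
    apply DVC_.pad
    refine ⟨fun i => z (finSigmaFinEquiv.symm i).1 (finSigmaFinEquiv.symm i).2 *
        ∏ c' ∈ Finset.univ.erase (finSigmaFinEquiv.symm i).1, q c',
      fun c i => if (finSigmaFinEquiv.symm i).1 = c then
        κ (finSigmaFinEquiv.symm i).1 (finSigmaFinEquiv.symm i).2 else 0, ?_, ?_, ?_⟩
    · intro i
      set p := finSigmaFinEquiv.symm i with hp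
      have h8 := DVC_.Zi_prod q (Finset.univ.erase p.1) (fun c _ => h2 c)
      rw [Finset.card_erase_of_mem (Finset.mem_univ _), Finset.card_univ, Fintype.card_fin] at h8
      refine Zi_mono ?_ (Zi_mul (h5 p.1 p.2) h8)
      have h9 : ((n - 1 : ℕ) : ℝ) ≤ (n : ℝ) := by
        exact_mod_cast Nat.sub_le n 1
      nlinarith
    · intro c i
      dsimp only
      split_ifs with hc
      · exact h4 _ _
      · exact (Kf σ A).zero_mem
    · intro c
      dsimp only
      rw [Equiv.sum_comp (finSigmaFinEquiv (m := n) (n := d)).symm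
        (fun p : (Σ c : Fin n, Fin (d c)) => (if p.1 = c then κ p.1 p.2 else 0) *
          (z p.1 p.2 * ∏ c' ∈ Finset.univ.erase p.1, q c'))]
      rw [Fintype.sum_sigma, Finset.sum_eq_single c]
      · simp only [if_true]
        rw [← Finset.mul_prod_erase Finset.univ q (Finset.mem_univ c), mul_right_comm, h6 c,
          Finset.sum_mul]
        exact Finset.sum_congr rfl (fun j _ => by ring)
      · intro b _ hb
        apply Finset.sum_eq_zero
        intro j _
        rw [if_neg hb, zero_mul]
      · intro hc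
        exact absurd (Finset.mem_univ c) hc

end Pool.Agent.SLZ
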