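import Pool.Agent.SLZ.Stmts
import Pool.Agent.SBT.MHT

/-!
# HNL: calculus of `Hn` and `Ln`
-/

set_option autoImplicit false

namespace Pool.Agent.SLZ

open Filter Pool.Agent.SBT Pool.Agent.SGL

namespace HNL_

variable {U : Ultrafilter ℕ} {S : Finset ℕ} {T : ℕ → ℝ} {r : ℕ} {g : Fin r → ℕ → ℚ}

theorem ev_mul (n : ℕ) (P Q : MvPolynomial (Fin r) ℚ) : ev g n (P * Q) = ev g n P * ev g n Q := by
  simp [ev]

theorem ev_sum {ι : Type} (s : Finset ι) (n : ℕ) (P : ι → MvPolynomial (Fin r) ℚ) :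
    ev g n (∑ i ∈ s, P i) = ∑ i ∈ s, ev g n (P i) := by
  simp [ev]

variable {n r₀ r₁ d₀ d₁ d : ℕ}

theorem cf_sum (hMCF : Stmt_MCF) (β : Fin r₁ →₀ ℕ) {ι : Type} (s : Finset ι)
    (G : ι → MvPolynomial (Fin (r₀ + r₁)) ℚ) : cf β (∑ i ∈ s, G i) = ∑ i ∈ s, cf β (G i) :=
  map_sum (AddMonoidHom.mk' (cf β) fun a b => (hMCF r₀ r₁).2.1 β a b) G s

theorem cf_Hn (hMCF : Stmt_MCF) (E : Fin d₀ → Fin d₁ → Fin d → MvPolynomial (Fin (r₀ + r₁)) ℚ)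
    (Y : Fin n → Fin d₁ → MvPolynomial (Fin r₁) ℚ) (N : Fin n → Fin d₀ → MvPolynomial (Fin r₀) ℚ)
    (β : Fin r₁ →₀ ℕ) (w : Fin d) :
    cf β (Hn E Y N w) = ∑ cj : Fin n × Fin d₀, Ln E Y β w cj * N cj.1 cj.2 := by
  have h3 := (hMCF r₀ r₁).2.2.1 β
  unfold Hn
  rw [cf_sum hMCF, Fintype.sum_prod_type]
  refine Finset.sum_congr rfl fun c _ => ?_
  rw [cf_sum hMCF]
  refine Finset.sum_congr rfl fun j _ => ?_
  rw [cf_sum hMCF]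
  unfold Ln
  rw [Finset.sum_mul]
  refine Finset.sum_congr rfl fun k _ => ?_
  rw [mul_assoc, h3, mul_comm]

theorem Ln_zero (hMCF : Stmt_MCF)
    (E : Fin d₀ → Fin d₁ → Fin d → MvPolynomial (Fin (r₀ + r₁)) ℚ)
    (Y : Fin n → Fin d₁ → MvPolynomial (Fin r₁) ℚ) {β : Fin r₁ →₀ ℕ} (hβ : β ∉ Bn E Y)
    (w : Fin d) (cj : Fin n × Fin d₀) : Ln E Y β w cj = 0 := by
  unfold Ln
  refine Finset.sum_eq_zero fun k _ => ?_
  rw [← MvPolynomial.support_eq_empty, Finset.eq_empty_iff_forall_notMem]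
  intro α hα
  obtain ⟨e, he, _, he2⟩ := ((hMCF r₀ r₁).1 β _ α).1 hα
  apply hβ
  unfold Bn
  rw [Finset.mem_biUnion]
  exact ⟨(cj.2, k, w, cj.1), Finset.mem_univ _, Finset.mem_image.2 ⟨e, he, he2⟩⟩

theorem ev_Hn_sum (hMCF : Stmt_MCF)
    (E : Fin d₀ → Fin d₁ → Fin d → MvPolynomial (Fin (r₀ + r₁)) ℚ)
    (Y : Fin n → Fin d₁ → MvPolynomial (Fin r₁) ℚ) (N : Fin n → Fin d₀ → MvPolynomial (Fin r₀) ℚ)
    (g₀ : Fin r₀ → ℕ → ℚ) (g₁ : Fin r₁ → ℕ → ℚ) (m : ℕ) (w : Fin d) :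
    ev (Fin.append g₀ g₁) m (Hn E Y N w) =
      ∑ β ∈ Bn E Y, mon g₁ β m * ev g₀ m (cf β (Hn E Y N w)) := by
  rw [(hMCF r₀ r₁).2.2.2.2.2.2.2 g₀ g₁ m (Hn E Y N w)]
  apply Finset.sum_subset
  · intro β hβ
    by_contra hB
    obtain ⟨e, he, he2⟩ := Finset.mem_image.1 hβ
    have h1 : lft e ∈ (cf β (Hn E Y N w)).support :=
      ((hMCF r₀ r₁).1 β _ _).2 ⟨e, he, rfl, he2⟩
    have h2 : cf β (Hn E Y N w) = 0 := by
      rw [cf_Hn hMCF]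
      exact Finset.sum_eq_zero fun cj _ => by rw [Ln_zero hMCF E Y hB, zero_mul]
    rw [h2] at h1
    simp at h1
  · intro β _ hβ
    have h2 : cf β (Hn E Y N w) = 0 := by
      rw [← MvPolynomial.support_eq_empty, Finset.eq_empty_iff_forall_notMem]
      intro α hα
      obtain ⟨e, he, _, he2⟩ := ((hMCF r₀ r₁).1 β _ α).1 hα
      exact hβ (Finset.mem_image.2 ⟨e, he, he2⟩)
    rw [h2]
    simp [ev]

theorem ev_Hn (hMCF : Stmt_MCF)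
    (E : Fin d₀ → Fin d₁ → Fin d → MvPolynomial (Fin (r₀ + r₁)) ℚ)
    (Y : Fin n → Fin d₁ → MvPolynomial (Fin r₁) ℚ) (N : Fin n → Fin d₀ → MvPolynomial (Fin r₀) ℚ)
    (g₀ : Fin r₀ → ℕ → ℚ) (g₁ : Fin r₁ → ℕ → ℚ) (m : ℕ) (e₀ : ℚ) (z₀ : Fin d₀ → ℚ)
    (z₁ : Fin d₁ → ℚ) (W : Fin d → ℚ)
    (h : ∀ j k, e₀ * (z₀ j * z₁ k) = ∑ w, ev (Fin.append g₀ g₁) m (E j k w) * W w) :
    ∑ w, ev (Fin.append g₀ g₁) m (Hn E Y N w) * W w =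
      e₀ * ∑ c, (∑ j, ev g₀ m (N c j) * z₀ j) * ∑ k, ev g₁ m (Y c k) * z₁ k := by
  have h5 := (hMCF r₀ r₁).2.2.2.2.1 g₀ g₁ m
  have h6 := (hMCF r₀ r₁).2.2.2.2.2.1 g₀ g₁ m
  have e1 : ∀ w, ev (Fin.append g₀ g₁) m (Hn E Y N w) * W w =
      ∑ c, ∑ j, ∑ k, ev g₀ m (N c j) * ev g₁ m (Y c k) *
        (ev (Fin.append g₀ g₁) m (E j k w) * W w) := by
    intro w
    unfold Hn
    rw [ev_sum, Finset.sum_mul]
    refine Finset.sum_congr rfl fun c _ => ?_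
    rw [ev_sum, Finset.sum_mul]
    refine Finset.sum_congr rfl fun j _ => ?_
    rw [ev_sum, Finset.sum_mul]
    refine Finset.sum_congr rfl fun k _ => ?_
    rw [ev_mul, ev_mul, h5, h6]
    ring
  simp only [e1]
  rw [Finset.sum_comm, Finset.mul_sum]
  refine Finset.sum_congr rfl fun c _ => ?_
  rw [Finset.sum_comm, Finset.sum_mul_sum, Finset.mul_sum]
  refine Finset.sum_congr rfl fun j _ => ?_
  rw [Finset.sum_comm, Finset.mul_sum]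
  refine Finset.sum_congr rfl fun k _ => ?_
  rw [← Finset.mul_sum, ← h j k]
  ring

/-- the heights of the coefficients of the linear equations -/
theorem ht_Ln (hMCF : Stmt_MCF)
    (E : Fin d₀ → Fin d₁ → Fin d → MvPolynomial (Fin (r₀ + r₁)) ℚ)
    (Y : Fin n → Fin d₁ → MvPolynomial (Fin r₁) ℚ) (g₀ : Fin r₀ → ℕ → ℚ) {κ : ℝ} {a : ℕ → ℚ}
    (hE : ∀ j k w, ∀ ε ∈ (E j k w).support, ∀ᶠ m in (U : Filter ℕ), ∀ v ∈ pl S,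
      av v (mon g₀ (lft ε) m) ≤ Real.exp (κ * T m) * av v (a m))
    (β : Fin r₁ →₀ ℕ) (w : Fin d) (cj : Fin n × Fin d₀) : Ht U S T g₀ κ a (Ln E Y β w cj) := by
  have h1 : ∀ c j k, Ht U S T g₀ κ a (cf β (ir r₀ (Y c k) * E j k w)) := by
    intro c j k α hα
    obtain ⟨ε, hε, hε2⟩ := (hMCF r₀ r₁).2.2.2.1 β _ _ α hα
    rw [← hε2]
    exact hE j k w ε hε
  unfold Ln
  exact MHT_.sum _ fun k _ => h1 _ _ _

end HNL_

open HNL_ in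
theorem hnl_proof (hMCF : Pool.Agent.SBT.Stmt_MCF) : Stmt_HNL := by
  intro n r₀ r₁ d₀ d₁ d E Y
  exact ⟨fun N β w => cf_Hn hMCF E Y N β w, fun β hβ w cj => Ln_zero hMCF E Y hβ w cj,
    fun N g₀ g₁ m w => ev_Hn_sum hMCF E Y N g₀ g₁ m w,
    fun N g₀ g₁ m e₀ z₀ z₁ W h => ev_Hn hMCF E Y N g₀ g₁ m e₀ z₀ z₁ W h,
    fun U S T g₀ κ a hE β w cj => ht_Ln hMCF E Y g₀ hE β w cj⟩

end Pool.Agent.SLZ
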