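import Pool.Agent.SLZ.Stmts

/-!
# IRD: a basis among finitely many elements
-/

set_option autoImplicit false

open Filter

namespace Pool.Agent.SLZ

open Pool.Agent.SBT Pool.Agent.SGL

theorem ird_proof : Stmt_IRD := by
  intro F _ K s z
  obtain ⟨κ, a, ha, hspan, hli⟩ := exists_linearIndependent' K z
  have hfin : Finite κ := Finite.of_injective a ha
  have := Fintype.ofFinite κ
  set e := Fintype.equivFin κ with he
  refine ⟨Fintype.card κ, fun i => a (e.symm i), ?_, ?_, ?_⟩
  · have := Fintype.card_le_of_injective a ha
    simpa using this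
  · intro c hc h0
    funext i
    have h := Fintype.linearIndependent_iff.mp hli
    have h1 := h (fun k => ⟨c (e k), hc _⟩) ?_ (e.symm i)
    · have h2 := congrArg Subtype.val h1
      simpa using h2
    · have : ∑ k, c (e k) * z (a k) = 0 := by
        rw [← h0]
        exact Fintype.sum_equiv e _ _ (fun k => by simp)
      rw [← this]
      exact Finset.sum_congr rfl fun k _ => rfl
  · intro j
    have hj : z j ∈ Submodule.span K (Set.range (z ∘ a)) := by
      rw [hspan]
      exact Submodule.subset_span ⟨j, rfl⟩
    obtain ⟨c, hc⟩ := (Submodule.mem_span_range_iff_exists_fun K).mp hj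
    refine ⟨fun i => (c (e.symm i) : F), fun i => (c (e.symm i)).2, ?_⟩
    rw [← hc]
    exact Fintype.sum_equiv e _ _ (fun k => by simp [Subfield.smul_def])

end Pool.Agent.SLZ
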