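import Pool.Agent.SLZ.Stmts

set_option autoImplicit false

namespace Pool.Agent.SLZ

open Filter Pool.Agent.SBT Pool.Agent.SGL

attribute [local irreducible] Pool.Agent.SGL.instFieldOm Pool.Agent.SLZ.instFieldOm2

namespace KER_

theorem bd (E₀ D n s : ℕ) (h : ℝ) (hh : 0 ≤ h) (E : ℕ)
    (hE : E = E₀ * (n + 1) ^ E₀ * (D + 1) + (D + 1) + 2 * E₀ + E₀ + D + 4) :
    (D : ℝ) * ((s : ℝ) + 1) ^ D * (h + 1) + 2 * h ≤ E * ((s : ℝ) + 1) ^ E * (h + 1) ∧
    (E₀ : ℝ) * (((s * (n + 1) : ℕ) : ℝ) + 1) ^ E₀ *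
        ((h + (D : ℝ) * ((s : ℝ) + 1) ^ D * (h + 1)) + 1) +
      (h + (D : ℝ) * ((s : ℝ) + 1) ^ D * (h + 1)) ≤ E * ((s : ℝ) + 1) ^ E * (h + 1) := by
  have hs : (0 : ℝ) ≤ s := Nat.cast_nonneg s
  have hn : (0 : ℝ) ≤ n := Nat.cast_nonneg n
  have hD : (0 : ℝ) ≤ D := Nat.cast_nonneg D
  have hE0 : (0 : ℝ) ≤ E₀ := Nat.cast_nonneg E₀
  set S : ℝ := (s : ℝ) + 1 with hS
  have hS1 : 1 ≤ S := by linarith
  have hS0 : 0 ≤ S := by linarith
  have hEr : (E : ℝ) = E₀ * ((n : ℝ) + 1) ^ E₀ * (D + 1) + (D + 1) + 2 * E₀ + E₀ + D + 4 := by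
    rw [hE]
    push_cast
    ring
  have hcoef : (0 : ℝ) ≤ E₀ * ((n : ℝ) + 1) ^ E₀ * (D + 1) := by positivity
  have hDE : S ^ D ≤ S ^ E := pow_le_pow_right₀ hS1 (by rw [hE]; omega)
  have hDE2 : S ^ (E₀ + D) ≤ S ^ E := pow_le_pow_right₀ hS1 (by rw [hE]; omega)
  have hSD : 1 ≤ S ^ D := one_le_pow₀ hS1
  have hSE0 : 1 ≤ S ^ E₀ := one_le_pow₀ hS1
  have hH : 0 ≤ h + 1 := by linarith
  have hSE : 0 ≤ S ^ E := by positivity
  constructor
  · have h1 : (D : ℝ) * S ^ D * (h + 1) + 2 * h ≤ (D + 2) * S ^ D * (h + 1) := by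
      have : h ≤ S ^ D * (h + 1) := by nlinarith
      nlinarith
    have h2 : ((D : ℝ) + 2) * S ^ D * (h + 1) ≤ E * S ^ E * (h + 1) := by
      refine mul_le_mul_of_nonneg_right ?_ hH
      refine mul_le_mul ?_ hDE (by positivity) (Nat.cast_nonneg E)
      rw [hEr]
      linarith
    linarith
  · have p1 : ((s * (n + 1) : ℕ) : ℝ) + 1 ≤ ((n : ℝ) + 1) * S := by
      push_cast
      rw [hS]
      nlinarith
    have p2 : (((s * (n + 1) : ℕ) : ℝ) + 1) ^ E₀ ≤ ((n : ℝ) + 1) ^ E₀ * S ^ E₀ := by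
      rw [← mul_pow]
      exact pow_le_pow_left₀ (by positivity) p1 _
    have p3 : (h + (D : ℝ) * S ^ D * (h + 1)) + 1 ≤ (D + 1) * S ^ D * (h + 1) := by
      have : h + 1 ≤ S ^ D * (h + 1) := by nlinarith
      nlinarith
    have p4 : (E₀ : ℝ) * (((s * (n + 1) : ℕ) : ℝ) + 1) ^ E₀ *
        ((h + (D : ℝ) * S ^ D * (h + 1)) + 1) ≤
        (E₀ : ℝ) * (((n : ℝ) + 1) ^ E₀ * S ^ E₀) * ((D + 1) * S ^ D * (h + 1)) := by
      refine mul_le_mul (mul_le_mul_of_nonneg_left p2 hE0) p3 (by positivity) (by positivity)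
    have p5 : (E₀ : ℝ) * (((n : ℝ) + 1) ^ E₀ * S ^ E₀) * ((D + 1) * S ^ D * (h + 1)) =
        (E₀ * ((n : ℝ) + 1) ^ E₀ * (D + 1)) * (S ^ (E₀ + D) * (h + 1)) := by
      rw [pow_add]
      ring
    have p6 : (D + 1) * S ^ D * (h + 1) ≤ (D + 1) * (S ^ (E₀ + D) * (h + 1)) := by
      rw [pow_add]
      have : S ^ D * (h + 1) ≤ S ^ E₀ * S ^ D * (h + 1) := by
        refine mul_le_mul_of_nonneg_right ?_ hH
        nlinarith
      nlinarith
    have p7 : (E₀ * ((n : ℝ) + 1) ^ E₀ * (D + 1) + (D + 1)) * (S ^ (E₀ + D) * (h + 1)) ≤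
        E * (S ^ E * (h + 1)) := by
      refine mul_le_mul ?_ (mul_le_mul_of_nonneg_right hDE2 hH) (by positivity) (Nat.cast_nonneg E)
      rw [hEr]
      linarith
    nlinarith

variable {σ : Sc}

theorem dvx {A : Finset ℕ} {s n : ℕ} {h k : ℝ} {x : Fin (n + 1) → Om σ} (hx : Dv σ A s h x)
    (M : Fin (n + 1) → Om σ) (hM : ∀ c, Zi σ k (M c)) (c₀ : Fin (n + 1)) :
    Dv σ A (s * (n + 1)) (h + k)
      (fun c : Fin n => M c₀ * x (c₀.succAbove c) - x c₀ * M (c₀.succAbove c)) := by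
  obtain ⟨z, κ, hz, hκ, he⟩ := hx
  refine ⟨fun i => z (finProdFinEquiv.symm i).1 * M (finProdFinEquiv.symm i).2,
    fun c i => (if (finProdFinEquiv.symm i).2 = c₀ then κ (c₀.succAbove c) (finProdFinEquiv.symm i).1
      else 0) - (if (finProdFinEquiv.symm i).2 = c₀.succAbove c then κ c₀ (finProdFinEquiv.symm i).1
      else 0), fun i => Zi_mul (hz _) (hM _), ?_, ?_⟩
  · intro c i
    refine (Kf σ A).sub_mem ?_ ?_
    · split_ifs
      · exact hκ _ _
      · exact (Kf σ A).zero_mem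
    · split_ifs
      · exact hκ _ _
      · exact (Kf σ A).zero_mem
  · intro c
    have h1 := Equiv.sum_comp finProdFinEquiv.symm (fun p : Fin s × Fin (n + 1) =>
      ((if p.2 = c₀ then κ (c₀.succAbove c) p.1 else 0) -
        (if p.2 = c₀.succAbove c then κ c₀ p.1 else 0)) * (z p.1 * M p.2))
    refine Eq.trans ?_ h1.symm
    rw [Fintype.sum_prod_type]
    simp only [sub_mul, ite_mul, zero_mul, Finset.sum_sub_distrib, Finset.sum_ite_eq',
      Finset.mem_univ, if_true]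
    rw [he, he, Finset.mul_sum, Finset.sum_mul]
    congr 1
    · exact Finset.sum_congr rfl fun j _ => by ring
    · exact Finset.sum_congr rfl fun j _ => by ring

theorem dvy {A : Finset ℕ} {s n : ℕ} {h k : ℝ} (hk : 0 ≤ k) {y : Fin (n + 1) → Om σ}
    (hy : Dv σ A s h y) (c₀ : Fin (n + 1)) :
    Dv σ A (s * (n + 1)) (h + k) (fun c : Fin n => y (c₀.succAbove c)) := by
  obtain ⟨z, κ, hz, hκ, he⟩ := hy
  refine ⟨fun i => z (finProdFinEquiv.symm i).1,
    fun c i => if (finProdFinEquiv.symm i).2 = 0 then κ (c₀.succAbove c) (finProdFinEquiv.symm i).1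
      else 0, fun i => Zi_mono (by linarith) (hz _), ?_, ?_⟩
  · intro c i
    dsimp only
    split_ifs
    · exact hκ _ _
    · exact (Kf σ A).zero_mem
  · intro c
    have h1 := Equiv.sum_comp finProdFinEquiv.symm (fun p : Fin s × Fin (n + 1) =>
      (if p.2 = 0 then κ (c₀.succAbove c) p.1 else 0) * z p.1)
    refine Eq.trans ?_ h1.symm
    rw [Fintype.sum_prod_type]
    simp only [ite_mul, zero_mul, Finset.sum_ite_eq', Finset.mem_univ, if_true]
    rw [he]

end KER_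

open KER_ in
theorem ker_proof (hDIC : Stmt_DIC) : Stmt_KER := by
  intro A B n hA hB hTI
  induction n with
  | zero =>
    refine ⟨1, le_rfl, ?_⟩
    intro σ s h Λ x y _ _ _ _ _ _ _
    exact ⟨fun i => i.elim0, fun i => i.elim0, fun i => i.elim0, fun i => i.elim0,
      fun c => c.elim0⟩
  | succ n ih =>
    obtain ⟨E₀, hE₀, ih⟩ := ih
    obtain ⟨D, hD⟩ := hDIC A B (n + 1) hA hB hTI
    set E : ℕ := E₀ * (n + 1) ^ E₀ * (D + 1) + (D + 1) + 2 * E₀ + E₀ + D + 4 with hE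
    have hE1 : 1 ≤ E := by omega
    have hE2 : 2 ≤ E := by omega
    have hE3 : 2 * E₀ ≤ E := by omega
    refine ⟨E, hE1, ?_⟩
    intro σ s h Λ x y hh hΛ hx hy vx vy hxy
    obtain ⟨b1, b2⟩ := bd E₀ D n s h hh E hE
    set K : ℝ := E * ((s : ℝ) + 1) ^ E * (h + 1) with hK
    set κ₁ : ℝ := (D : ℝ) * ((s : ℝ) + 1) ^ D * (h + 1) with hκ₁
    have hκ₁0 : 0 ≤ κ₁ := by positivity
    have hEr2 : (2 : ℝ) ≤ E := by exact_mod_cast hE2
    have hEr0 : (0 : ℝ) < E := by linarith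
    have hE0r : (1 : ℝ) ≤ E₀ := by exact_mod_cast hE₀
    have hEr3 : 2 * (E₀ : ℝ) ≤ E := by exact_mod_cast hE3
    have d1 : Λ / E ≤ Λ / 2 := div_le_div_of_nonneg_left hΛ (by norm_num) hEr2
    have triv : (∀ c, V (x c) (K - Λ / E)) → ∃ (M : Fin (n + 1) → Fin (n + 1) → Om σ)
        (t : Fin (n + 1) → Om σ), (∀ i c, Zi σ K (M i c)) ∧
        (∀ i, V (∑ c, M i c * y c) (K - Λ / E)) ∧
        ∀ c, V (x c - ∑ i, t i * M i c) (K - Λ / E) := by
      intro hv
      refine ⟨fun _ _ => 0, fun _ => 0, fun _ _ => Zi_zero _, fun i => ?_, fun c => ?_⟩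
      · simp only [zero_mul, Finset.sum_const_zero]
        exact V_zero _
      · simp only [zero_mul, Finset.sum_const_zero, sub_zero]
        exact hv c
    rcases hD σ s h Λ (Λ / 2) x y hh hx hy hxy with hI | ⟨M₀, ⟨c₀, hc₀⟩, hMZ, hMy⟩
    · refine triv fun c => V_mono ?_ (hI c)
      rw [← hκ₁]
      linarith
    · by_cases hneg : Λ / 2 - h - κ₁ < 0
      · refine triv fun c => V_mono ?_ (vx c)
        linarith
      push Not at hneg
      have sx := dvx hx M₀ hMZ c₀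
      have sy := dvy hκ₁0 hy c₀
      have vx'' : ∀ c : Fin n, V (M₀ c₀ * x (c₀.succAbove c) - x c₀ * M₀ (c₀.succAbove c)) (h + κ₁) :=
        fun c => V_sub (V_mono (by linarith) (V_mul (Zi_V (hMZ c₀)) (vx _)))
          (V_mul (vx c₀) (Zi_V (hMZ _)))
      have vy'' : ∀ c : Fin n, V (y (c₀.succAbove c)) (h + κ₁) := fun c =>
        V_mono (by linarith) (vy _)
      have hsum : ∑ c : Fin n, (M₀ c₀ * x (c₀.succAbove c) - x c₀ * M₀ (c₀.succAbove c)) *
          y (c₀.succAbove c) = M₀ c₀ * (∑ c, x c * y c) - x c₀ * ∑ c, M₀ c * y c := by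
        rw [Fin.sum_univ_succAbove _ c₀, Fin.sum_univ_succAbove (fun c => M₀ c * y c) c₀]
        simp only [sub_mul, Finset.sum_sub_distrib]
        have e1 : ∑ c : Fin n, M₀ c₀ * x (c₀.succAbove c) * y (c₀.succAbove c) =
            M₀ c₀ * ∑ c : Fin n, x (c₀.succAbove c) * y (c₀.succAbove c) := by
          rw [Finset.mul_sum]
          exact Finset.sum_congr rfl fun j _ => by ring
        have e2 : ∑ c : Fin n, x c₀ * M₀ (c₀.succAbove c) * y (c₀.succAbove c) =
            x c₀ * ∑ c : Fin n, M₀ (c₀.succAbove c) * y (c₀.succAbove c) := by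
          rw [Finset.mul_sum]
          exact Finset.sum_congr rfl fun j _ => by ring
        rw [e1, e2]
        ring
      have vsum : V (∑ c : Fin n, (M₀ c₀ * x (c₀.succAbove c) - x c₀ * M₀ (c₀.succAbove c)) *
          y (c₀.succAbove c)) (-(Λ / 2 - h - κ₁)) := by
        rw [hsum]
        refine V_sub (V_mono ?_ (V_mul (Zi_V (hMZ c₀)) hxy)) (V_mono ?_ (V_mul (vx c₀) hMy))
        · linarith
        · rw [← hκ₁]
          linarith
      obtain ⟨M'', t'', g1, g2, g3⟩ := ih σ (s * (n + 1)) (h + κ₁) (Λ / 2 - h - κ₁) _ _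
        (by positivity) hneg sx sy vx'' vy'' vsum
      set K'' : ℝ := (E₀ : ℝ) * (((s * (n + 1) : ℕ) : ℝ) + 1) ^ E₀ * ((h + κ₁) + 1) with hK''
      have hZ : K'' ≤ K := by linarith
      have hV : K'' - (Λ / 2 - h - κ₁) / E₀ ≤ K - Λ / E := by
        have q1 : Λ / E ≤ Λ / (2 * E₀) := div_le_div_of_nonneg_left hΛ (by positivity) hEr3
        have q2 : (Λ / 2 - h - κ₁) / E₀ = Λ / (2 * E₀) - (h + κ₁) / E₀ := by
          field_simp
          ring
        have q3 : (h + κ₁) / E₀ ≤ h + κ₁ := div_le_self (by positivity) hE0r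
        rw [q2]
        linarith
      refine ⟨Fin.cons M₀ fun i => c₀.insertNth 0 (M'' i),
        Fin.cons (x c₀ * (M₀ c₀)⁻¹) fun i => t'' i * (M₀ c₀)⁻¹, ?_, ?_, ?_⟩
      · intro i
        refine Fin.cases ?_ (fun i => ?_) i
        · intro c
          rw [Fin.cons_zero]
          exact Zi_mono (by linarith) (hMZ c)
        · rw [Fin.cons_succ]
          intro c
          refine Fin.succAboveCases c₀ ?_ (fun c => ?_) c
          · rw [Fin.insertNth_apply_same]
            exact Zi_zero _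
          · rw [Fin.insertNth_apply_succAbove]
            exact Zi_mono hZ (g1 i c)
      · intro i
        refine Fin.cases ?_ (fun i => ?_) i
        · rw [Fin.cons_zero]
          refine V_mono ?_ hMy
          rw [← hκ₁]
          linarith
        · rw [Fin.cons_succ, Fin.sum_univ_succAbove _ c₀, Fin.insertNth_apply_same, zero_mul, zero_add]
          simp only [Fin.insertNth_apply_succAbove]
          exact V_mono hV (g2 i)
      · intro c
        rw [Fin.sum_univ_succ]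
        simp only [Fin.cons_zero, Fin.cons_succ]
        refine Fin.succAboveCases c₀ ?_ (fun c => ?_) c
        · simp only [Fin.insertNth_apply_same, mul_zero, Finset.sum_const_zero, add_zero]
          rw [mul_assoc, inv_mul_cancel₀ hc₀, mul_one, sub_self]
          exact V_zero _
        · simp only [Fin.insertNth_apply_succAbove]
          have e : x (c₀.succAbove c) - (x c₀ * (M₀ c₀)⁻¹ * M₀ (c₀.succAbove c) +
              ∑ i, t'' i * (M₀ c₀)⁻¹ * M'' i c) = (M₀ c₀)⁻¹ *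
              ((M₀ c₀ * x (c₀.succAbove c) - x c₀ * M₀ (c₀.succAbove c)) - ∑ i, t'' i * M'' i c) := by
            have e1 : ∑ i, t'' i * (M₀ c₀)⁻¹ * M'' i c = (M₀ c₀)⁻¹ * ∑ i, t'' i * M'' i c := by
              rw [Finset.mul_sum]
              exact Finset.sum_congr rfl fun j _ => by ring
            rw [e1]
            field_simp
            ring
          rw [e]
          have := V_mul (Zi_inv (hMZ c₀) hc₀) (g3 c)
          rw [zero_add] at this
          exact V_mono hV this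

end Pool.Agent.SLZ
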