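import Pool.Agent.SLZ.Stmts

/-! # Squad SLZ, module LD2 (helper13): linear disjointness of the rings of two sets of bases -/

set_option autoImplicit false

namespace Pool.Agent.SLZ

open Filter Pool.Agent.SBT Pool.Agent.SGL

attribute [local irreducible] Pool.Agent.SGL.instFieldOm Pool.Agent.SLZ.instFieldOm2

namespace LD2_

variable {σ : Sc}

/-- the inequality of KER and common denominators for one precision -/
theorem step {A B : Finset ℕ} {n E : ℕ}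
    (hE : ∀ (σ : Sc) (s : ℕ) (h Λ : ℝ) (x y : Fin n → Om σ), 0 ≤ h → 0 ≤ Λ →
      Dv σ A s h x → Dv σ B s h y → (∀ c, V (x c) h) → (∀ c, V (y c) h) →
      V (∑ c, x c * y c) (-Λ) →
      ∃ (M : Fin n → Fin n → Om σ) (t : Fin n → Om σ),
        (∀ i c, Zi σ (E * ((s : ℝ) + 1) ^ E * (h + 1)) (M i c)) ∧
        (∀ i, V (∑ c, M i c * y c) (E * ((s : ℝ) + 1) ^ E * (h + 1) - Λ / E)) ∧
        ∀ c, V (x c - ∑ i, t i * M i c) (E * ((s : ℝ) + 1) ^ E * (h + 1) - Λ / E))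
    (hDVC : Stmt_DVC) (f g : Fin n → Om σ) {t L : ℝ} (ht : 0 ≤ t) (hL : 0 ≤ L - 2 * n * t)
    (hf : ∀ c, Dc σ A t (f c)) (hfV : ∀ c, V (f c) t) (hg : ∀ c, Dc σ B t (g c))
    (hgV : ∀ c, V (g c) t) (hS : V (∑ c, f c * g c) (-L)) :
    ∃ (Q Q' : Om σ) (M : Fin n → Fin n → Om σ), Zi σ (n * t) Q ∧ Q ≠ 0 ∧
      Zi σ (n * t) Q' ∧ Q' ≠ 0 ∧
      (∀ i c, Zi σ (E * (n * t + 1) ^ E * ((n + 1) * t + 1)) (M i c)) ∧
      (∀ i, V (∑ c, M i c * (Q' * g c))
        (E * (n * t + 1) ^ E * ((n + 1) * t + 1) - (L - 2 * n * t) / E)) ∧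
      ((∀ i c, M i c = 0) → ∀ c, V (Q * f c)
        (E * (n * t + 1) ^ E * ((n + 1) * t + 1) - (L - 2 * n * t) / E)) := by
  obtain ⟨Q, s1, hQ, hQ0, hs1, hD1⟩ := hDVC σ A n t f ht hf
  obtain ⟨Q', s2, hQ', hQ'0, hs2, hD2⟩ := hDVC σ B n t g ht hg
  have hsb : ((max s1 s2 : ℕ) : ℝ) ≤ n * t := by
    rw [Nat.cast_max]
    exact max_le hs1 hs2
  have hn : (0 : ℝ) ≤ n := Nat.cast_nonneg n
  have hnt : 0 ≤ (n : ℝ) * t := mul_nonneg hn ht
  have h1 : Dv σ A (max s1 s2) ((n + 1) * t) (fun c => Q * f c) := hD1 _ (le_max_left _ _)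
  have h2 : Dv σ B (max s1 s2) ((n + 1) * t) (fun c => Q' * g c) := hD2 _ (le_max_right _ _)
  have h3 : ∀ c, V (Q * f c) ((n + 1) * t) := fun c => by
    have := V_mul (Zi_V hQ) (hfV c)
    refine V_mono (le_of_eq ?_) this
    ring
  have h4 : ∀ c, V (Q' * g c) ((n + 1) * t) := fun c => by
    have := V_mul (Zi_V hQ') (hgV c)
    refine V_mono (le_of_eq ?_) this
    ring
  have h5 : V (∑ c, (Q * f c) * (Q' * g c)) (-(L - 2 * n * t)) := by
    have e1 : ∑ c, (Q * f c) * (Q' * g c) = (Q * Q') * ∑ c, f c * g c := by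
      rw [Finset.mul_sum]
      exact Finset.sum_congr rfl fun c _ => by ring
    rw [e1]
    have := V_mul (V_mul (Zi_V hQ) (Zi_V hQ')) hS
    refine V_mono (le_of_eq ?_) this
    ring
  obtain ⟨M, u, hM, hMy, hx⟩ := hE σ (max s1 s2) ((n + 1) * t) (L - 2 * n * t)
    (fun c => Q * f c) (fun c => Q' * g c) (mul_nonneg (by linarith) ht) hL h1 h2 h3 h4 h5
  have hκ : (E : ℝ) * (((max s1 s2 : ℕ) : ℝ) + 1) ^ E * ((n + 1) * t + 1) ≤
      E * (n * t + 1) ^ E * ((n + 1) * t + 1) := by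
    have h6 : (((max s1 s2 : ℕ) : ℝ) + 1) ^ E ≤ (n * t + 1) ^ E :=
      pow_le_pow_left₀ (by positivity) (by linarith) E
    have h7 : 0 ≤ ((n : ℝ) + 1) * t + 1 := by
      have := mul_nonneg (by linarith : (0 : ℝ) ≤ (n : ℝ) + 1) ht
      linarith
    exact mul_le_mul_of_nonneg_right (mul_le_mul_of_nonneg_left h6 (Nat.cast_nonneg E)) h7
  refine ⟨Q, Q', M, hQ, hQ0, hQ', hQ'0, fun i c => Zi_mono hκ (hM i c),
    fun i => V_mono (by linarith) (hMy i), ?_⟩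
  intro hM0 c
  have h8 := hx c
  have h9 : ∑ i, u i * M i c = 0 := Finset.sum_eq_zero fun i _ => by rw [hM0 i c, mul_zero]
  rw [h9, sub_zero] at h8
  exact V_mono (by linarith) h8

/-- the size of the constants -/
theorem kappa (n E C : ℕ) : ∀ᶠ m in (HF : Filter ℕ),
    (E : ℝ) * (n * lg m ^ C + 1) ^ E * ((n + 1) * lg m ^ C + 1) ≤
      lg m ^ (1 + (C + 1) * E + (C + 1)) ∧ (n : ℝ) * lg m ^ C ≤
      lg m ^ (1 + (C + 1) * E + (C + 1)) ∧ 2 * (n : ℝ) * lg m ^ C ≤ lg m ^ (C + 1) ∧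
      (E : ℝ) ≤ lg m := by
  filter_upwards [lg_large E, lg_large (n + 2), lg_large (2 * n)] with m h1 h2 h3
  have h4 := one_le_lgp m C
  have h5 := lg_pos m
  have hn : (0 : ℝ) ≤ n := Nat.cast_nonneg n
  have h6 : (n : ℝ) * lg m ^ C + 1 ≤ lg m ^ (C + 1) := by
    rw [pow_succ]
    nlinarith
  have h7 : ((n : ℝ) + 1) * lg m ^ C + 1 ≤ lg m ^ (C + 1) := by
    rw [pow_succ]
    nlinarith
  have h8 : ((n : ℝ) * lg m ^ C + 1) ^ E ≤ (lg m ^ (C + 1)) ^ E :=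
    pow_le_pow_left₀ (by positivity) h6 E
  have h9 : 0 ≤ (lg m ^ (C + 1)) ^ E := by positivity
  refine ⟨?_, ?_, ?_, h1⟩
  · calc (E : ℝ) * (n * lg m ^ C + 1) ^ E * ((n + 1) * lg m ^ C + 1)
        ≤ lg m * (lg m ^ (C + 1)) ^ E * lg m ^ (C + 1) := by
          apply mul_le_mul _ h7 (by positivity) (by positivity)
          exact mul_le_mul h1 h8 (by positivity) h5.le
      _ = lg m ^ (1 + (C + 1) * E + (C + 1)) := by
          rw [pow_add (lg m) (1 + (C + 1) * E) (C + 1), pow_add (lg m) 1 ((C + 1) * E),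
            pow_mul (lg m) (C + 1) E, pow_one]
  · calc (n : ℝ) * lg m ^ C ≤ lg m ^ (C + 1) := by linarith
      _ ≤ lg m ^ (1 + (C + 1) * E + (C + 1)) := lgp_mono (by omega) m
  · rw [pow_succ]
    nlinarith

theorem sum_mem {n : ℕ} (s : Finset (Fin n)) (F : Fin n → ℕ → Om σ) (h : ∀ c, F c ∈ O2 σ) :
    (fun m => ∑ c ∈ s, F c m) ∈ O2 σ := by
  have h2 : (fun m => ∑ c ∈ s, F c m) = ∑ c ∈ s, F c := by
    funext m
    rw [Finset.sum_apply]
  rw [h2]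
  exact (O2 σ).sum_mem fun c _ => h c

theorem cl2_sum {n : ℕ} (s : Finset (Fin n)) (F : Fin n → ℕ → Om σ) (h : ∀ c, F c ∈ O2 σ) :
    cl2 σ (fun m => ∑ c ∈ s, F c m) = ∑ c ∈ s, cl2 σ (F c) := by
  classical
  induction s using Finset.induction_on with
  | empty =>
    simp only [Finset.sum_empty]
    exact cl2_zero
  | insert i s hi ih =>
    rw [Finset.sum_insert hi, ← ih, ← cl2_add (h i) (sum_mem s F h)]
    congr 1
    funext m
    rw [Finset.sum_insert hi]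

/-- nonzero integers are not small -/
theorem int_zero {z : Om σ} {h c : ℝ} (hc : c < 0) (hz : Zi σ h z) (hV : V z c) : z = 0 := by
  by_contra h0
  have h1 := V_mul hV (Zi_inv hz h0)
  rw [mul_inv_cancel₀ h0, add_zero] at h1
  exact not_V_one hc h1

theorem cl2_int_ne {f : ℕ → Om σ} {h : ℕ → ℝ} (hf : f ∈ O2 σ)
    (hz : ∀ᶠ m in (HF : Filter ℕ), Zi σ (h m) (f m) ∧ f m ≠ 0) : cl2 σ f ≠ 0 := by
  intro h0
  rw [cl2_zero_iff hf] at h0
  obtain ⟨m, ⟨h1, h2⟩, h3⟩ := (hz.and (h0 0)).exists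
  refine h2 (int_zero ?_ h1 h3)
  have := one_le_lgp m 0
  linarith

end LD2_

open LD2_ in
theorem ld2_proof (hKER : Stmt_KER) (hDVC : Stmt_DVC) : Stmt_LD2 := by
  intro σ A B hA hB hTI n x y hx hy hInd hsum
  obtain ⟨E, hE1, hE⟩ := hKER A B n hA hB hTI
  -- representatives
  have hx' : ∀ c, ∃ f ∈ O2 σ, ∃ C : ℕ, (∀ᶠ m in (HF : Filter ℕ), Dc σ A (lg m ^ C) (f m)) ∧
    cl2 σ f = x c := fun c => mem_R2.1 (hx c)
  have hy' : ∀ c, ∃ f ∈ O2 σ, ∃ C : ℕ, (∀ᶠ m in (HF : Filter ℕ), Dc σ B (lg m ^ C) (f m)) ∧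
    cl2 σ f = y c := fun c => mem_R2.1 (hy c)
  choose f hfO Cf hfD hfx using hx'
  choose g hgO Cg hgD hgy using hy'
  have hfO' : ∀ c, ∃ C : ℕ, ∀ᶠ m in (HF : Filter ℕ), V (f c m) (lg m ^ C) := fun c => hfO c
  have hgO' : ∀ c, ∃ C : ℕ, ∀ᶠ m in (HF : Filter ℕ), V (g c m) (lg m ^ C) := fun c => hgO c
  choose Df hfV using hfO'
  choose Dg hgV using hgO'
  -- the common exponent
  obtain ⟨C, hCf, hCg, hCDf, hCDg⟩ : ∃ C : ℕ, (∀ c, Cf c ≤ C) ∧ (∀ c, Cg c ≤ C) ∧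
      (∀ c, Df c ≤ C) ∧ (∀ c, Dg c ≤ C) := by
    refine ⟨∑ c, (Cf c + Cg c + Df c + Dg c), ?_, ?_, ?_, ?_⟩ <;> intro c <;>
      have h1 := Finset.single_le_sum (f := fun c => Cf c + Cg c + Df c + Dg c)
        (fun _ _ => Nat.zero_le _) (Finset.mem_univ c) <;> omega
  -- the exponent of the constants
  set C'' : ℕ := 1 + (C + 1) * E + (C + 1) with hC''
  -- the small sum
  have hfg : ∀ c, (fun m => f c m * g c m) ∈ O2 σ := fun c => (O2 σ).mul_mem (hfO c) (hgO c)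
  have hS2 : S2 σ (fun m => ∑ c, f c m * g c m) := by
    rw [← cl2_zero_iff (sum_mem Finset.univ (fun c m => f c m * g c m) hfg),
      cl2_sum Finset.univ (fun c m => f c m * g c m) hfg, ← hsum]
    exact Finset.sum_congr rfl fun c _ => by rw [cl2_mul (hfO c) (hgO c), hfx, hgy]
  -- the precision
  classical
  set D : ℕ → ℕ := fun m => Nat.findGreatest (fun D => V (∑ c, f c m * g c m) (-lg m ^ D)) m
    with hD
  have hDspec : ∀ᶠ m in (HF : Filter ℕ), V (∑ c, f c m * g c m) (-lg m ^ D m) := by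
    filter_upwards [hS2 0] with m hm
    exact Nat.findGreatest_spec (P := fun D => V (∑ c, f c m * g c m) (-lg m ^ D))
      (Nat.zero_le m) hm
  have hDge : ∀ k : ℕ, ∀ᶠ m in (HF : Filter ℕ), k ≤ D m := by
    intro k
    filter_upwards [hS2 k, HF_le (eventually_ge_atTop k)] with m hm hk
    exact Nat.le_findGreatest hk hm
  -- the data
  have hdata : ∀ᶠ m in (HF : Filter ℕ), ∃ p : Om σ × Om σ × (Fin n → Fin n → Om σ),
      Zi σ (n * lg m ^ C) p.1 ∧ p.1 ≠ 0 ∧ Zi σ (n * lg m ^ C) p.2.1 ∧ p.2.1 ≠ 0 ∧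
      (∀ i c, Zi σ (E * (n * lg m ^ C + 1) ^ E * ((n + 1) * lg m ^ C + 1)) (p.2.2 i c)) ∧
      (∀ i, V (∑ c, p.2.2 i c * (p.2.1 * g c m))
        (E * (n * lg m ^ C + 1) ^ E * ((n + 1) * lg m ^ C + 1) -
          (lg m ^ D m - 2 * n * lg m ^ C) / E)) ∧
      ((∀ i c, p.2.2 i c = 0) → ∀ c, V (p.1 * f c m)
        (E * (n * lg m ^ C + 1) ^ E * ((n + 1) * lg m ^ C + 1) -
          (lg m ^ D m - 2 * n * lg m ^ C) / E)) := by
    have e1 := eventually_all.2 hfD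
    have e2 := eventually_all.2 hgD
    have e3 := eventually_all.2 hfV
    have e4 := eventually_all.2 hgV
    filter_upwards [e1, e2, e3, e4, hDspec, hDge (C + 1), kappa n E C] with m h1 h2 h3 h4 h5 h6 h7
    obtain ⟨Q, Q', M, k1, k2, k3, k4, k5, k6, k7⟩ := step hE hDVC (fun c => f c m)
      (fun c => g c m) (t := lg m ^ C) (L := lg m ^ D m) (lgp_nonneg m C)
      (by have := lgp_mono h6 m; linarith [h7.2.2.1])
      (fun c => Dc_mono (lgp_mono (hCf c) m) (h1 c)) (fun c => V_mono (lgp_mono (hCDf c) m) (h3 c))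
      (fun c => Dc_mono (lgp_mono (hCg c) m) (h2 c)) (fun c => V_mono (lgp_mono (hCDg c) m) (h4 c))
      h5
    exact ⟨(Q, Q', M), k1, k2, k3, k4, k5, k6, k7⟩
  obtain ⟨P, hP⟩ := hdata.choice
  -- the errors
  have herr : ∀ k : ℕ, ∀ᶠ m in (HF : Filter ℕ),
      (E : ℝ) * (n * lg m ^ C + 1) ^ E * ((n + 1) * lg m ^ C + 1) -
          (lg m ^ D m - 2 * n * lg m ^ C) / E ≤ -lg m ^ k := by
    intro k
    filter_upwards [kappa n E C, hDge (C'' + k + 1 + 1 + (C + 1) + 1)] with m h1 h2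
    obtain ⟨h3, -, h4, h5⟩ := h1
    have h6 := lgp_mono h2 m
    have h7 := lgp_add (C'' + k + 1 + 1) (C + 1) m
    have h8 : lg m ^ (C'' + k + 1 + 1) ≤ lg m ^ D m - 2 * n * lg m ^ C := by linarith
    have h9 : (0 : ℝ) < E := by exact_mod_cast hE1
    have h10 : lg m ^ (C'' + k + 1) ≤ (lg m ^ D m - 2 * n * lg m ^ C) / E := by
      rw [le_div_iff₀ h9]
      calc lg m ^ (C'' + k + 1) * E ≤ lg m ^ (C'' + k + 1) * lg m :=
            mul_le_mul_of_nonneg_left h5 (lgp_nonneg m _)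
        _ = lg m ^ (C'' + k + 1 + 1) := (pow_succ _ _).symm
        _ ≤ _ := h8
    have h11 := lgp_add C'' k m
    linarith
  -- the integers
  have hQ : (fun m => (P m).1) ∈ O2 σ := by
    refine ⟨C'', ?_⟩
    filter_upwards [hP, kappa n E C] with m h1 h2
    exact Zi_V (Zi_mono h2.2.1 h1.1)
  have hQ' : (fun m => (P m).2.1) ∈ O2 σ := by
    refine ⟨C'', ?_⟩
    filter_upwards [hP, kappa n E C] with m h1 h2
    exact Zi_V (Zi_mono h2.2.1 h1.2.2.1)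
  have hQ0 : cl2 σ (fun m => (P m).1) ≠ 0 :=
    cl2_int_ne (h := fun m => n * lg m ^ C) hQ (hP.mono fun m h => ⟨h.1, h.2.1⟩)
  have hQ'0 : cl2 σ (fun m => (P m).2.1) ≠ 0 :=
    cl2_int_ne (h := fun m => n * lg m ^ C) hQ' (hP.mono fun m h => ⟨h.2.2.1, h.2.2.2.1⟩)
  have hMz : ∀ i c, ∀ᶠ m in (HF : Filter ℕ), Zi σ (lg m ^ C'') ((P m).2.2 i c) := by
    intro i c
    filter_upwards [hP, kappa n E C] with m h1 h2
    exact Zi_mono h2.1 (h1.2.2.2.2.1 i c)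
  have hMO : ∀ i c, (fun m => (P m).2.2 i c) ∈ O2 σ := fun i c =>
    ⟨C'', (hMz i c).mono fun m h => Zi_V h⟩
  have hML : ∀ i c, cl2 σ (fun m => (P m).2.2 i c) ∈ L2 σ := by
    intro i c
    rw [mem_L2]
    refine ⟨fun m => (P m).2.2 i c, C'', ?_, rfl⟩
    filter_upwards [hMz i c] with m hm
    exact ⟨(P m).2.2 i c, 1, hm, Zi_one (lgp_nonneg m _), one_ne_zero, one_mul _⟩
  -- the relations
  have hrel : ∀ i, (fun c => cl2 σ (fun m => (P m).2.2 i c)) = 0 := by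
    intro i
    refine hInd _ (hML i) ?_
    have hO : ∀ c, (fun m => (P m).2.2 i c * ((P m).2.1 * g c m)) ∈ O2 σ := fun c =>
      (O2 σ).mul_mem (hMO i c) ((O2 σ).mul_mem hQ' (hgO c))
    have h1 : cl2 σ (fun m => ∑ c, (P m).2.2 i c * ((P m).2.1 * g c m)) = 0 := by
      rw [cl2_zero_iff (sum_mem Finset.univ _ hO)]
      intro k
      filter_upwards [hP, herr k] with m h2 h3
      exact V_mono h3 (h2.2.2.2.2.2.1 i)
    rw [cl2_sum Finset.univ _ hO] at h1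
    have h2 : cl2 σ (fun m => (P m).2.1) *
        ∑ c, cl2 σ (fun m => (P m).2.2 i c) * y c = 0 := by
      rw [← h1, Finset.mul_sum]
      refine Finset.sum_congr rfl fun c _ => ?_
      have h3 : (fun m => (P m).2.1 * g c m) ∈ O2 σ := (O2 σ).mul_mem hQ' (hgO c)
      rw [cl2_mul (hMO i c) h3, cl2_mul hQ' (hgO c), hgy]
      ring
    exact (mul_eq_zero.1 h2).resolve_left hQ'0
  have hM0 : ∀ᶠ m in (HF : Filter ℕ), ∀ i c, (P m).2.2 i c = 0 := by
    rw [eventually_all]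
    intro i
    rw [eventually_all]
    intro c
    have h1 := congrFun (hrel i) c
    simp only [Pi.zero_apply] at h1
    rw [cl2_zero_iff (hMO i c)] at h1
    filter_upwards [hMz i c, h1 0] with m h2 h3
    refine int_zero ?_ h2 h3
    have := one_le_lgp m 0
    linarith
  -- conclusion
  funext c
  have h1 : cl2 σ (fun m => (P m).1 * f c m) = 0 := by
    have h2 : (fun m => (P m).1 * f c m) ∈ O2 σ := (O2 σ).mul_mem hQ (hfO c)
    rw [cl2_zero_iff h2]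
    intro k
    filter_upwards [hP, herr k, hM0] with m h3 h4 h5
    exact V_mono h4 (h3.2.2.2.2.2.2 h5 c)
  rw [cl2_mul hQ (hfO c), hfx] at h1
  exact (mul_eq_zero.1 h1).resolve_left hQ0

end Pool.Agent.SLZ
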