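import Pool.Agent.SLZ.Stmts

set_option autoImplicit false

namespace Pool.Agent.SLZ

open Filter Pool.Agent.SBT Pool.Agent.SGL

namespace LF2_

theorem g1 {K : Type} [Field K] {n : ℕ} (q : K) (κ a : Fin n → K) :
    q * ∑ i, κ i * a i = ∑ i, κ i * (q * a i) := by
  rw [Finset.mul_sum]
  exact Finset.sum_congr rfl fun i _ => by ring

theorem g2 {K : Type} [Field K] {n : ℕ} (q q' : K) (a b : Fin n → K) :
    ∑ i, q' * b i * (q * a i) = q * q' * ∑ i, a i * b i := by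
  rw [Finset.mul_sum]
  exact Finset.sum_congr rfl fun i _ => by ring

theorem quot {σ : Sc} {A : Finset ℕ} {x : Om2 σ} (hx : x ∈ F2 σ A) :
    ∃ z ∈ R2 σ A, z ≠ 0 ∧ z * x ∈ R2 σ A := by
  unfold F2 at hx
  rw [Subfield.mem_closure_iff] at hx
  obtain ⟨y, hy, z, hz, rfl⟩ := hx
  rw [Subring.closure_eq] at hy hz
  by_cases h : z = 0
  · refine ⟨1, (R2 σ A).one_mem, one_ne_zero, ?_⟩
    rw [h, div_zero, mul_zero]
    exact (R2 σ A).zero_mem
  · refine ⟨z, hz, h, ?_⟩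
    rwa [mul_div_cancel₀ _ h]

theorem common {σ : Sc} {A : Finset ℕ} {n : ℕ} (a : Fin n → Om2 σ)
    (ha : ∀ i, a i ∈ F2 σ A) :
    ∃ q ∈ R2 σ A, q ≠ 0 ∧ ∀ i, q * a i ∈ R2 σ A := by
  choose z hz hz0 hza using fun i => quot (ha i)
  refine ⟨∏ i, z i, (R2 σ A).prod_mem fun i _ => hz i,
    Finset.prod_ne_zero_iff.2 fun i _ => hz0 i, fun i => ?_⟩
  rw [← Finset.mul_prod_erase Finset.univ z (Finset.mem_univ i)]
  have h : z i * (∏ j ∈ Finset.univ.erase i, z j) * a i =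
      (∏ j ∈ Finset.univ.erase i, z j) * (z i * a i) := by ring
  rw [h]
  exact (R2 σ A).mul_mem ((R2 σ A).prod_mem fun j _ => hz j) (hza i)

end LF2_

theorem lf2_proof (hLD2 : Stmt_LD2) : Stmt_LF2 := by
  intro σ A B hA hB hTI n a b ha hb hind hsum
  obtain ⟨q, -, hq0, hqa⟩ := LF2_.common a ha
  obtain ⟨q', -, hq0', hqb⟩ := LF2_.common b hb
  have hTI' : TI B A := by
    intro e f h
    have h1 := hTI f e h.symm
    rw [h, h1]
  have hind' : Ind (L2 σ) (fun i => q * a i) := by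
    intro κ hκ h
    refine hind κ hκ ?_
    have h1 : q * ∑ i, κ i * a i = 0 := (LF2_.g1 q κ a).trans h
    exact (mul_eq_zero.1 h1).resolve_left hq0
  have h2 := hLD2 σ B A hB hA hTI' n (fun i => q' * b i) (fun i => q * a i) hqb hqa hind' (by
    refine (LF2_.g2 q q' a b).trans ?_
    rw [hsum, mul_zero])
  funext i
  have h4 := congrFun h2 i
  exact (mul_eq_zero.1 h4).resolve_left hq0'

end Pool.Agent.SLZ
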