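import Pool.Agent.SLZ.Stmts

/-!
# Squad SLZ: module MZP (numbers with few phrases and few errors at all scales)
-/

set_option autoImplicit false

namespace Pool.Agent.SLZ

open Filter Pool.Agent.SBT Pool.Agent.SGL

attribute [local irreducible] Pool.Agent.SGL.instFieldOm Pool.Agent.SLZ.instFieldOm2

namespace MZP_

/-- powers of the logarithm are small -/
lemma lgp_small (C : ℕ) : ∀ᶠ m in (HF : Filter ℕ), lg m ^ C ≤ (m : ℝ) / 4 := by
  refine HF_le ?_
  have h0 : ∀ᶠ x : ℝ in atTop, |Real.log x ^ C| ≤ (1 / (4 * 2 ^ C)) * |x| := by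
    have h := (Real.isLittleO_pow_log_id_atTop (n := C)).def
      (show (0 : ℝ) < 1 / (4 * 2 ^ C) by positivity)
    filter_upwards [h] with x hx
    simpa using hx
  have h1 := tendsto_natCast_atTop_atTop (R := ℝ) |>.eventually h0
  have h2 := (Real.tendsto_log_atTop.comp (tendsto_natCast_atTop_atTop (R := ℝ))).eventually_ge_atTop 2
  filter_upwards [h1, h2] with m hm1 hm2
  have hm2' : 2 ≤ Real.log m := hm2
  have h3 : lg m ≤ 2 * Real.log m := by
    unfold lg
    linarith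
  have h4 : lg m ^ C ≤ (2 * Real.log m) ^ C := pow_le_pow_left₀ (lg_pos m).le h3 C
  have h5 : (2 * Real.log m) ^ C = 2 ^ C * Real.log m ^ C := mul_pow _ _ _
  have h6 : Real.log m ^ C ≤ 1 / (4 * 2 ^ C) * (m : ℝ) := by
    have := (le_abs_self _).trans hm1
    rwa [abs_of_nonneg (Nat.cast_nonneg m)] at this
  calc lg m ^ C ≤ 2 ^ C * Real.log m ^ C := by rw [← h5]; exact h4
    _ ≤ 2 ^ C * (1 / (4 * 2 ^ C) * (m : ℝ)) := mul_le_mul_of_nonneg_left h6 (by positivity)
    _ = (m : ℝ) / 4 := by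
      field_simp

end MZP_

open MZP_ in
theorem mzp_proof (hNAP : Stmt_NAP) (hAPD : Stmt_APD) (hSEF : Stmt_SEF) : Stmt_MZP := by
  intro σ n N b x K hb hK hT hyp
  set S : Finset ℕ := b.primeFactors with hS
  have hPS : PS S := fun p hp => Nat.prime_of_mem_primeFactors hp
  have hb0 : b ≠ 0 := by omega
  have hdiv : ∀ p : ℕ, p.Prime → p ∣ b → p ∈ S := fun p hp hpb =>
    Nat.mem_primeFactors.2 ⟨hp, hpb, hb0⟩
  have h2b : ∀ a ∈ ({b} : Finset ℕ), 2 ≤ a := by
    intro a ha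
    rw [Finset.mem_singleton] at ha
    omega
  obtain ⟨hG, hU, -⟩ := hSEF S {b} {b} hPS h2b h2b (by
    intro p hp h
    rcases h with ⟨a, ha, hpa⟩ | ⟨a, ha, hpa⟩
    · rw [Finset.mem_singleton] at ha
      rw [ha] at hpa
      exact hdiv p hp hpa
    · rw [Finset.mem_singleton] at ha
      rw [ha] at hpa
      exact hdiv p hp hpa)
  have hbW : (b : ℚ) ∈ Wg {b} := ⟨fun _ => 1, by simp⟩
  have hn : Tendsto n (σ.U : Filter ℕ) atTop := by
    have h1 := σ.lim
    have h2 : σ.T = fun t => (n t : ℝ) := funext hT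
    rw [h2] at h1
    exact tendsto_natCast_atTop_iff.1 h1
  have hT' : (fun t => (n t : ℝ)) = σ.T := (funext hT).symm
  -- the approximations
  have key : ∀ m : ℕ, ∃ x' : Om σ, 1 ≤ m → 2 * K + 5 ≤ lg m → (K + 2) * Real.log b ≤ lg m →
      Dc σ {b} (lg m ^ 2) x' ∧ V (cst σ x - x') (lg m ^ 2 - m / 2) := by
    intro m
    by_cases hm : 1 ≤ m ∧ 2 * K + 5 ≤ lg m ∧ (K + 2) * Real.log b ≤ lg m
    · obtain ⟨h1, h2, h3⟩ := hm
      have hlg := two_le_lg m
      have hlg0 := lg_pos m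
      have hKl : 0 ≤ K * lg m := mul_nonneg hK hlg0.le
      set M : ℕ := ⌊K * lg m⌋₊ with hM
      have hMle : (M : ℝ) ≤ K * lg m := Nat.floor_le hKl
      have hlogb : 0 ≤ Real.log b := Real.log_natCast_nonneg b
      have hap := hNAP S (Wg {b}) b M m x σ.U n N hPS hG hU hbW hb h1 hn (by
        filter_upwards [hyp m h1] with t ht
        obtain ⟨g1, u, k, p, g2, g3, g4, g5⟩ := ht
        exact ⟨g1, u, k, p, g2, g3, Nat.le_floor g4, Nat.le_floor g5⟩)
      rw [hT'] at hap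
      have c1 : ((2 * M + 5 : ℕ) : ℝ) ≤ lg m ^ 2 := by
        push_cast
        nlinarith
      have c2 : ((M : ℝ) + 2) * Real.log b ≤ lg m ^ 2 := by
        have d1 : ((M : ℝ) + 2) ≤ (K + 2) * lg m := by nlinarith
        calc ((M : ℝ) + 2) * Real.log b ≤ ((K + 2) * lg m) * Real.log b :=
              mul_le_mul_of_nonneg_right d1 hlogb
          _ = ((K + 2) * Real.log b) * lg m := by ring
          _ ≤ lg m * lg m := mul_le_mul_of_nonneg_right h3 hlg0.le
          _ = lg m ^ 2 := by ring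
      obtain ⟨x', hx1, hx2⟩ := hAPD σ b S (2 * M + 5) (((M : ℝ) + 2) * Real.log b) ((m : ℝ) / 2)
        (lg m ^ 2) x hb hPS hdiv hap c1 c2 (by positivity)
      exact ⟨x', fun _ _ _ => ⟨hx1, V_mono (by linarith) hx2⟩⟩
    · exact ⟨0, fun h1 h2 h3 => absurd ⟨h1, h2, h3⟩ hm⟩
  choose f hf using key
  have hev : ∀ᶠ m in (HF : Filter ℕ), Dc σ {b} (lg m ^ 2) (f m) ∧
      V (cst σ x - f m) (lg m ^ 2 - m / 2) := by
    filter_upwards [HF_le (eventually_ge_atTop 1), lg_large (2 * K + 5),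
      lg_large ((K + 2) * Real.log b)] with m h1 h2 h3
    exact hf m h1 h2 h3
  have hsmall : S2 σ (fun m => cst σ x - f m) := by
    intro C
    filter_upwards [hev, lgp_small 2, lgp_small C] with m h1 h2 h3
    exact V_mono (by linarith) h1.2
  have hfO : f ∈ O2 σ := by
    have h1 : (fun m => cst σ x - (cst σ x - f m)) ∈ O2 σ :=
      (O2 σ).sub_mem (con_mem (cst σ x)) (S2_O2 hsmall)
    have h2 : (fun m => cst σ x - (cst σ x - f m)) = f := by
      funext m
      exact sub_sub_cancel _ _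
    rwa [h2] at h1
  refine mem_R2.2 ⟨f, hfO, 2, ?_, ?_⟩
  · filter_upwards [hev] with m hm
    exact hm.1
  · rw [con_apply]
    refine ((cl2_eq_iff (con_mem (cst σ x)) hfO).2 hsmall).symm

end Pool.Agent.SLZ
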