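import Pool.Agent.SLZ.Stmts
import Pool.Agent.SBT.Api

/-!
# Squad SLZ, module SEF: the groups of two sets of bases
-/

set_option autoImplicit false

namespace Pool.Agent.SLZ

open Filter Pool.Agent.SBT Pool.Agent.SGL

namespace SEF_

/-- the enumeration of a finite set -/
noncomputable def enu (A : Finset ℕ) (i : Fin A.card) : ℕ := (A.equivFin.symm i : ℕ)

theorem enu_mem (A : Finset ℕ) (i : Fin A.card) : enu A i ∈ A := (A.equivFin.symm i).2

theorem prod_enu (A : Finset ℕ) (e : ℕ → ℤ) :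
    ∏ a ∈ A, (a : ℚ) ^ e a = ∏ i : Fin A.card, (enu A i : ℚ) ^ e (enu A i) := by
  rw [← Finset.prod_coe_sort A (fun a : ℕ => (a : ℚ) ^ e a)]
  exact (Equiv.prod_comp A.equivFin.symm (fun a : A => ((a : ℕ) : ℚ) ^ e (a : ℕ))).symm

theorem prod_ext (A : Finset ℕ) (e : Fin A.card → ℤ) :
    ∃ e' : ℕ → ℤ, ∏ i : Fin A.card, (enu A i : ℚ) ^ e i = ∏ a ∈ A, (a : ℚ) ^ e' a := by
  classical
  refine ⟨fun a => if h : a ∈ A then e (A.equivFin ⟨a, h⟩) else 0, ?_⟩
  rw [prod_enu]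
  refine Finset.prod_congr rfl fun i _ => ?_
  have h : enu A i ∈ A := enu_mem A i
  have h2 : A.equivFin ⟨enu A i, h⟩ = i := by
    have : (⟨enu A i, h⟩ : A) = A.equivFin.symm i := Subtype.ext rfl
    rw [this, Equiv.apply_symm_apply]
  rw [dif_pos h, h2]

theorem grp_eq (A : Finset ℕ) : Wg A = Grp (enu A) {Finset.univ} := by
  ext x
  constructor
  · rintro ⟨e, rfl⟩
    exact ⟨Finset.univ, Finset.mem_singleton_self _, fun i => e (enu A i),
      fun i hi => absurd (Finset.mem_univ i) hi, prod_enu A e⟩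
  · rintro ⟨B, hB, e, he, rfl⟩
    obtain ⟨e', he'⟩ := prod_ext A e
    exact ⟨e', he'⟩

theorem isGrp_Wg {A : Finset ℕ} (hA : ∀ a ∈ A, 2 ≤ a) : IsGrp (Wg A) := by
  refine ⟨⟨0, by simp⟩, ?_, ?_⟩
  · rintro x ⟨e, rfl⟩ y ⟨f, rfl⟩
    refine ⟨e + f, ?_⟩
    rw [← Finset.prod_mul_distrib]
    refine Finset.prod_congr rfl fun a ha => ?_
    have h0 : (a : ℚ) ≠ 0 := by
      have := hA a ha
      have h1 : a ≠ 0 := by omega
      exact_mod_cast h1
    rw [Pi.add_apply, zpow_add₀ h0]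
  · rintro x ⟨e, rfl⟩
    refine ⟨-e, ?_⟩
    rw [← Finset.prod_inv_distrib]
    refine Finset.prod_congr rfl fun a _ => ?_
    rw [Pi.neg_apply, zpow_neg]

end SEF_

open SEF_

theorem sef_proof (hSEP : Stmt_SEP) : Stmt_SEF := by
  intro S A B hS hA hB hp
  refine ⟨isGrp_Wg hA, ?_, ?_⟩
  · rintro x ⟨e, rfl⟩
    refine isU_prod hS _ _ fun a ha => ?_
    have h2 := hA a ha
    exact isU_nat_zpow hS (by omega) (fun p hpp hpa => hp p hpp (Or.inl ⟨a, ha, hpa⟩)) (e a)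
  · intro hTI
    rw [grp_eq A, grp_eq B]
    refine hSEP A.card B.card S (enu A) (enu B) {Finset.univ} {Finset.univ} hS ?_ ?_ ?_ ?_
    · intro i
      have := hA _ (enu_mem A i)
      omega
    · intro j
      have := hB _ (enu_mem B j)
      omega
    · intro p hpp h
      refine hp p hpp ?_
      rcases h with ⟨i, hi⟩ | ⟨j, hj⟩
      · exact Or.inl ⟨_, enu_mem A i, hi⟩
      · exact Or.inr ⟨_, enu_mem B j, hj⟩
    · intro I _ J _ e f _ _ hef
      obtain ⟨e', he'⟩ := prod_ext A e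
      obtain ⟨f', hf'⟩ := prod_ext B f
      rw [he'] at hef ⊢
      rw [hf'] at hef
      exact hTI e' f' hef

end Pool.Agent.SLZ
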