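import Pool.Agent.SLZ.Stmts

/-!
# SLZ TAZ: two sets of bases, Lempel-Ziv phrases and errors
-/

set_option autoImplicit false

namespace Pool.Agent.SLZ

open Filter Pool.Agent.SBT Pool.Agent.SGL

attribute [local irreducible] Pool.Agent.SGL.instFieldOm Pool.Agent.SLZ.instFieldOm2

namespace TAZ_

/-- transport of algebraic dependence -/
lemma alg_of {F : Type} [Field F] (φ : ℝ →+* F) {s : Set ℝ} {ξ : ℝ} {D : Subfield F}
    (h : ∀ x ∈ s, φ x ∈ D) (hξ : IsAlgebraic (IntermediateField.adjoin ℚ s) ξ) :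
    IsAlgebraic D (φ ξ) := by
  haveI : CharZero F := charZero_of_injective_ringHom φ.injective
  have h1 : ∀ z ∈ IntermediateField.adjoin ℚ s, φ z ∈ D := by
    intro z hz
    induction hz using IntermediateField.adjoin_induction with
    | mem x hx => exact h x hx
    | algebraMap q =>
      have h2 : φ (algebraMap ℚ ℝ q) = (q : F) := by
        rw [eq_ratCast, map_ratCast]
      rw [h2]
      exact SubfieldClass.ratCast_mem D q
    | add x y _ _ hx hy =>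
      rw [map_add]
      exact D.add_mem hx hy
    | inv x _ hx =>
      rw [map_inv₀]
      exact D.inv_mem hx
    | mul x y _ _ hx hy =>
      rw [map_mul]
      exact D.mul_mem hx hy
  let g : IntermediateField.adjoin ℚ s →+* D :=
    RingHom.codRestrict (φ.comp (algebraMap (IntermediateField.adjoin ℚ s) ℝ)) D
      (fun z => h1 z.1 z.2)
  obtain ⟨p, hp, hpξ⟩ := hξ
  refine ⟨p.map g, ?_, ?_⟩
  · rwa [Ne, Polynomial.map_eq_zero]
  · rw [Polynomial.aeval_def, Polynomial.eval₂_map]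
    have h3 : (algebraMap D F).comp g =
        φ.comp (algebraMap (IntermediateField.adjoin ℚ s) ℝ) := by
      ext z
      rfl
    rw [h3, ← Polynomial.hom_eval₂, ← Polynomial.aeval_def, hpξ, map_zero]

lemma phr_lt {u : ℕ → ℤ} {N k : ℕ} {p : ℕ → ℕ} (h : Phr u N k p) {i j : ℕ} (hij : i < j)
    (hj : j ≤ k) : p i < p j := by
  induction j with
  | zero => omega
  | succ j ih =>
    have h1 := (h.2.2 j (by omega)).1
    rcases Nat.lt_succ_iff_lt_or_eq.1 hij with h2 | h2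
    · exact (ih h2 (by omega)).trans h1
    · rw [h2]
      exact h1

lemma phr_inj {u : ℕ → ℤ} {N k : ℕ} {p : ℕ → ℕ} (h : Phr u N k p) :
    Set.InjOn p (Finset.range k : Set ℕ) := by
  intro i hi j hj hij
  rw [Finset.coe_range, Set.mem_Iio] at hi hj
  rcases lt_trichotomy i j with h1 | h1 | h1
  · have := phr_lt h h1 hj.le
    omega
  · exact h1
  · have := phr_lt h h1 hi.le
    omega

/-- all the marks of a family of words -/
lemma fam {k N : ℕ} (a : Fin k → ℕ) (x : Fin k → ℝ) (c : Fin k → ℝ)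
    (h : ∀ i, LZE (a i) (x i) N (c i)) : ∃ P : Finset ℕ, (P.card : ℝ) ≤ ∑ i, c i ∧
      ∀ i, ∃ (u : ℕ → ℤ) (kk : ℕ) (p : ℕ → ℕ), (∀ j, 0 ≤ u j ∧ u j < a i) ∧ Phr u N kk p ∧
        (∀ j < kk, p j ∈ P) ∧ ∀ n < N, dig (a i) (x i) (n + 1) ≠ u n → n ∈ P := by
  classical
  choose u kk p h1 h2 h3 using h
  refine ⟨Finset.univ.biUnion fun i => ((Finset.range (kk i)).image (p i)) ∪
    ((Finset.range N).filter fun n => dig (a i) (x i) (n + 1) ≠ u i n), ?_, ?_⟩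
  · have h4 : ((Finset.univ.biUnion fun i => ((Finset.range (kk i)).image (p i)) ∪
        ((Finset.range N).filter fun n => dig (a i) (x i) (n + 1) ≠ u i n)).card : ℝ) ≤
        ((∑ i, (kk i + ((Finset.range N).filter fun n => dig (a i) (x i) (n + 1) ≠ u i n).card) : ℕ) : ℝ) := by
      refine Nat.cast_le.2 (Finset.card_biUnion_le.trans (Finset.sum_le_sum fun i _ => ?_))
      refine (Finset.card_union_le _ _).trans (Nat.add_le_add_right ?_ _)
      exact Finset.card_image_le.trans (by rw [Finset.card_range])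
    refine h4.trans ?_
    push_cast
    exact Finset.sum_le_sum fun i _ => h3 i
  · intro i
    refine ⟨u i, kk i, p i, h1 i, h2 i, fun j hj => ?_, fun n hn hne => ?_⟩
    · rw [Finset.mem_biUnion]
      exact ⟨i, Finset.mem_univ i, Finset.mem_union_left _
        (Finset.mem_image_of_mem _ (Finset.mem_range.2 hj))⟩
    · rw [Finset.mem_biUnion]
      exact ⟨i, Finset.mem_univ i, Finset.mem_union_right _
        (Finset.mem_filter.2 ⟨Finset.mem_range.2 hn, hne⟩)⟩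

/-- few phrases and few errors at all scales -/
def Few (b : ℕ) (x K : ℝ) (N n : ℕ) : Prop := ∀ m : ℕ, 1 ≤ m → m * n ≤ N →
  ∃ (u : ℕ → ℤ) (k : ℕ) (p : ℕ → ℕ), (∀ i, 0 ≤ u i ∧ u i < b) ∧ Phr u N k p ∧
    (((Finset.range k).filter fun j => n ≤ p j ∧ p j < m * n).card : ℝ) ≤ K * lg m ∧
    (((Finset.range (m * n)).filter fun i => n ≤ i ∧ dig b x (i + 1) ≠ u i).card : ℝ) ≤
      K * lg m

lemma few_of {b : ℕ} {x K : ℝ} {N n : ℕ} {P : Finset ℕ}
    (hP : ∀ m : ℕ, 1 ≤ m → m * n ≤ N →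
      ((P.filter fun p => n ≤ p ∧ p < m * n).card : ℝ) ≤ K * lg m)
    (h : ∃ (u : ℕ → ℤ) (kk : ℕ) (p : ℕ → ℕ), (∀ j, 0 ≤ u j ∧ u j < b) ∧ Phr u N kk p ∧
        (∀ j < kk, p j ∈ P) ∧ ∀ n < N, dig b x (n + 1) ≠ u n → n ∈ P) : Few b x K N n := by
  intro m hm hmn
  obtain ⟨u, kk, p, h1, h2, h3, h4⟩ := h
  refine ⟨u, kk, p, h1, h2, ?_, ?_⟩
  · refine le_trans (Nat.cast_le.2 ?_) (hP m hm hmn)
    apply Finset.card_le_card_of_injOn p
    · intro j hj
      rw [Finset.mem_coe, Finset.mem_filter, Finset.mem_range] at hj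
      rw [Finset.mem_coe, Finset.mem_filter]
      exact ⟨h3 j hj.1, hj.2⟩
    · intro i hi j hj hij
      rw [Finset.mem_coe, Finset.mem_filter] at hi hj
      exact phr_inj h2 (Finset.mem_coe.2 hi.1) (Finset.mem_coe.2 hj.1) hij
  · refine le_trans (Nat.cast_le.2 (Finset.card_le_card ?_)) (hP m hm hmn)
    intro i hi
    rw [Finset.mem_filter, Finset.mem_range] at hi
    rw [Finset.mem_filter]
    exact ⟨h4 i (by omega) hi.2.2, hi.2.1, hi.1⟩

end TAZ_

open TAZ_ in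
theorem taz_proof (hMZP : Stmt_MZP) (hLF2 : Stmt_LF2) (hTR2 : Stmt_TR2) (hFRE : Stmt_FRE)
    (hWSL : Stmt_WSL) : Stmt_TAZ := by
  classical
  intro ξ A B k l a b x y hξ hA hB hTI ha hb hx hy K
  by_contra hcon
  rw [Filter.not_eventually] at hcon
  obtain ⟨C', hC', hW⟩ := hWSL (max K 0) (le_max_right _ _)
  -- the places
  have h1 : ∃ᶠ N : ℕ in atTop, ∃ n : ℕ, N ≤ 16 * n ^ 4 ∧ n ^ 2 ≤ 2 * N ∧
      (∀ i, Few (a i) (x i) C' N n) ∧ ∀ j, Few (b j) (y j) C' N n := by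
    refine (hcon.and_eventually (hW.and (eventually_ge_atTop 1))).mono ?_
    rintro N ⟨h1, h2, h3⟩
    push Not at h1
    obtain ⟨c, c', h4, h5, h6⟩ := h1
    obtain ⟨P, hP1, hP2⟩ := fam a x c h4
    obtain ⟨P', hP1', hP2'⟩ := fam b y c' h5
    have hlog : 0 ≤ Real.log N := Real.log_natCast_nonneg N
    have hcard : ((P ∪ P').card : ℝ) ≤ max K 0 * (1 + Real.log N) := by
      have e1 : ((P ∪ P').card : ℝ) ≤ P.card + P'.card := by
        exact_mod_cast Finset.card_union_le P P'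
      have e2 : K * Real.log N ≤ max K 0 * (1 + Real.log N) := by
        calc K * Real.log N ≤ max K 0 * Real.log N :=
              mul_le_mul_of_nonneg_right (le_max_left _ _) hlog
          _ ≤ max K 0 * (1 + Real.log N) :=
              mul_le_mul_of_nonneg_left (by linarith) (le_max_right _ _)
      linarith
    obtain ⟨n, hn1, hn2, hn3⟩ := h2 (P ∪ P') hcard
    refine ⟨n, hn1, hn2, fun i => ?_, fun j => ?_⟩
    · refine few_of hn3 ?_
      obtain ⟨u, kk, p, g1, g2, g3, g4⟩ := hP2 i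
      exact ⟨u, kk, p, g1, g2, fun j hj => Finset.mem_union_left _ (g3 j hj),
        fun n hn hne => Finset.mem_union_left _ (g4 n hn hne)⟩
    · refine few_of hn3 ?_
      obtain ⟨u, kk, p, g1, g2, g3, g4⟩ := hP2' j
      exact ⟨u, kk, p, g1, g2, fun j hj => Finset.mem_union_right _ (g3 j hj),
        fun n hn hne => Finset.mem_union_right _ (g4 n hn hne)⟩
  -- the choice of the scale
  have h2 : ∀ N : ℕ, ∃ n' : ℕ, (∃ n : ℕ, N ≤ 16 * n ^ 4 ∧ n ^ 2 ≤ 2 * N ∧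
      (∀ i, Few (a i) (x i) C' N n) ∧ ∀ j, Few (b j) (y j) C' N n) →
      N ≤ 16 * n' ^ 4 ∧ n' ^ 2 ≤ 2 * N ∧
      (∀ i, Few (a i) (x i) C' N n') ∧ ∀ j, Few (b j) (y j) C' N n' := by
    intro N
    by_cases h : ∃ n : ℕ, N ≤ 16 * n ^ 4 ∧ n ^ 2 ≤ 2 * N ∧
      (∀ i, Few (a i) (x i) C' N n) ∧ ∀ j, Few (b j) (y j) C' N n
    · obtain ⟨n, hn⟩ := h
      exact ⟨n, fun _ => hn⟩
    · exact ⟨0, fun h' => absurd h' h⟩
  choose ns hns using h2
  haveI hne : NeBot (atTop ⊓ 𝓟 {N : ℕ | ∃ n : ℕ, N ≤ 16 * n ^ 4 ∧ n ^ 2 ≤ 2 * N ∧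
      (∀ i, Few (a i) (x i) C' N n) ∧ ∀ j, Few (b j) (y j) C' N n}) :=
    Filter.frequently_mem_iff_neBot.1 h1
  obtain ⟨U, hU⟩ := Ultrafilter.exists_le (atTop ⊓ 𝓟 {N : ℕ | ∃ n : ℕ, N ≤ 16 * n ^ 4 ∧ n ^ 2 ≤ 2 * N ∧
      (∀ i, Few (a i) (x i) C' N n) ∧ ∀ j, Few (b j) (y j) C' N n})
  have hUt : (U : Filter ℕ) ≤ atTop := hU.trans inf_le_left
  have hUp : ∀ᶠ N in (U : Filter ℕ), N ≤ 16 * ns N ^ 4 ∧ ns N ^ 2 ≤ 2 * N ∧
      (∀ i, Few (a i) (x i) C' N (ns N)) ∧ ∀ j, Few (b j) (y j) C' N (ns N) := by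
    have e1 : ∀ᶠ N in (U : Filter ℕ), ∃ n : ℕ, N ≤ 16 * n ^ 4 ∧ n ^ 2 ≤ 2 * N ∧
        (∀ i, Few (a i) (x i) C' N n) ∧ ∀ j, Few (b j) (y j) C' N n :=
      (hU.trans inf_le_right) (Filter.mem_principal_self _)
    exact e1.mono fun N hN => hns N hN
  have hlarge : ∀ m : ℕ, ∀ᶠ N in (U : Filter ℕ), m ≤ ns N := by
    intro m
    filter_upwards [hUp, hUt (eventually_gt_atTop (16 * m ^ 4))] with N hN hN2
    by_contra hlt
    push Not at hlt
    have := Nat.pow_le_pow_left hlt.le 4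
    omega
  have hlim : Tendsto (fun N => (ns N : ℝ)) (U : Filter ℕ) atTop := by
    rw [Filter.tendsto_atTop]
    intro c
    filter_upwards [hlarge ⌈c⌉₊] with N hN
    exact (Nat.le_ceil c).trans (Nat.cast_le.2 hN)
  let σ : Sc := ⟨U, fun N => (ns N : ℝ), hlim⟩
  have hmem : ∀ (c : ℕ) (z : ℝ), 2 ≤ c → (∀ᶠ N in (U : Filter ℕ), Few c z C' N (ns N)) →
      con σ (cst σ z) ∈ R2 σ {c} := by
    intro c z hc hz
    refine hMZP σ ns (fun N => N) c z C' hc hC' (fun _ => rfl) (fun m hm => ?_)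
    show ∀ᶠ t in (U : Filter ℕ), _
    filter_upwards [hUp, hz, hlarge (2 * m)] with N h3 h4 h5
    have h6 : m * ns N ≤ N := by
      have h7 : 2 * m * ns N ≤ ns N * ns N := Nat.mul_le_mul_right _ h5
      have h8 := h3.2.1
      rw [pow_two] at h8
      have h9 : 2 * m * ns N = 2 * (m * ns N) := by ring
      omega
    exact ⟨h6, h4 m hm h6⟩
  have hx2 : ∀ z ∈ Set.range x, ((con σ).comp (cst σ)) z ∈ F2 σ A := by
    rintro z ⟨i, rfl⟩
    refine R2_F2 (R2_mono (Finset.singleton_subset_iff.2 (ha i)) ?_)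
    exact hmem (a i) (x i) (hA _ (ha i)) (hUp.mono fun N hN => hN.2.2.1 i)
  have hy2 : ∀ z ∈ Set.range y, ((con σ).comp (cst σ)) z ∈ F2 σ B := by
    rintro z ⟨i, rfl⟩
    refine R2_F2 (R2_mono (Finset.singleton_subset_iff.2 (hb i)) ?_)
    exact hmem (b i) (y i) (hB _ (hb i)) (hUp.mono fun N hN => hN.2.2.2 i)
  have hfin := hFRE (Om2 σ) (L2 σ) (F2 σ A) (F2 σ B) (L2_le_F2 A) (L2_le_F2 B)
    (hLF2 σ A B hA hB hTI) (((con σ).comp (cst σ)) ξ) (alg_of _ hx2 hx) (alg_of _ hy2 hy)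
  exact hTR2 σ ξ hξ hfin

end Pool.Agent.SLZ
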