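import Pool.Agent.SLZ.Stmts

/-!
# Squad SLZ, module WSL: a place after which there are few marks at all scales
-/

set_option autoImplicit false

namespace Pool.Agent.SLZ

open Filter Pool.Agent.SBT Pool.Agent.SGL

namespace WSL_

/-- the number of marks in an interval -/
def cntw (P : Finset ℕ) (a b : ℕ) : ℕ := (P.filter fun p => a ≤ p ∧ p < b).card

theorem cntw_add (P : Finset ℕ) {a b c : ℕ} (hab : a ≤ b) (hbc : b ≤ c) :
    cntw P a b + cntw P b c = cntw P a c := by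
  unfold cntw
  rw [← Finset.card_union_of_disjoint]
  · congr 1
    ext p
    simp only [Finset.mem_union, Finset.mem_filter]
    constructor
    · rintro (⟨h1, h2, h3⟩ | ⟨h1, h2, h3⟩)
      · exact ⟨h1, h2, by omega⟩
      · exact ⟨h1, by omega, h3⟩
    · rintro ⟨h1, h2, h3⟩
      by_cases h : p < b
      · exact Or.inl ⟨h1, h2, h⟩
      · exact Or.inr ⟨h1, by omega, h3⟩
  · rw [Finset.disjoint_left]
    intro p h1 h2
    simp only [Finset.mem_filter] at h1 h2
    omega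

theorem cntw_le (P : Finset ℕ) (a b : ℕ) : cntw P a b ≤ P.card := Finset.card_filter_le _ _

theorem cntw_mono (P : Finset ℕ) (a : ℕ) {b c : ℕ} (h : b ≤ c) : cntw P a b ≤ cntw P a c := by
  refine Finset.card_le_card fun p hp => ?_
  simp only [Finset.mem_filter] at *
  exact ⟨hp.1, hp.2.1, hp.2.2.trans_le h⟩

theorem key (D : ℝ) (P : Finset ℕ) (J j₀ : ℕ)
    (hbad : ∀ j, j₀ ≤ j → j ≤ J / 2 → ∃ r : ℕ, 1 ≤ r ∧ j + r ≤ J ∧
      D * r < cntw P (2 ^ j) (2 ^ (j + r))) :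
    ∀ k, j₀ + k ≤ J / 2 + 1 → ∃ j' : ℕ, j₀ + k ≤ j' ∧
      D * ((j' : ℝ) - j₀) ≤ cntw P (2 ^ j₀) (2 ^ j') := by
  intro k
  induction k with
  | zero =>
    intro _
    refine ⟨j₀, le_rfl, ?_⟩
    rw [sub_self, mul_zero]
    exact Nat.cast_nonneg _
  | succ k ih =>
    intro hk
    obtain ⟨j', h1, h2⟩ := ih (by omega)
    by_cases h : j₀ + (k + 1) ≤ j'
    · exact ⟨j', h, h2⟩
    · obtain ⟨r, hr1, hr2, hr3⟩ := hbad j' (by omega) (by omega)
      refine ⟨j' + r, by omega, ?_⟩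
      rw [← cntw_add P (pow_le_pow_right₀ one_le_two (by omega : j₀ ≤ j'))
        (pow_le_pow_right₀ one_le_two (Nat.le_add_right j' r))]
      push_cast
      have h3 : D * ((j' : ℝ) + r - j₀) = D * ((j' : ℝ) - j₀) + D * r := by ring
      rw [h3]
      linarith

end WSL_

open WSL_

theorem wsl_proof : Stmt_WSL := by
  intro C hC
  refine ⟨2 * (8 * C + 8), by positivity, ?_⟩
  filter_upwards [eventually_ge_atTop 4] with N hN P hP
  obtain ⟨J, hJ⟩ : ∃ J, J = Nat.log 2 N + 1 := ⟨_, rfl⟩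
  have hJ1 : 2 ^ (J - 1) ≤ N := by
    rw [hJ, Nat.add_sub_cancel]
    exact Nat.pow_log_le_self 2 (by omega)
  have hJ2 : N < 2 ^ J := by
    rw [hJ]
    exact Nat.lt_pow_succ_log_self one_lt_two N
  have hJ3 : 3 ≤ J := by
    by_contra hcon
    have h1 : 2 ^ J ≤ 2 ^ 2 := pow_le_pow_right₀ one_le_two (by omega)
    omega
  have hlog : Real.log N ≤ J := by
    have h1 : Real.log N ≤ Real.log ((2 : ℝ) ^ J) := by
      refine Real.log_le_log (by exact_mod_cast (by omega : 0 < N)) ?_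
      exact_mod_cast hJ2.le
    rw [Real.log_pow] at h1
    have h2 := Real.log_two_lt_d9
    have h3 : (0 : ℝ) ≤ J := Nat.cast_nonneg J
    nlinarith
  obtain ⟨j, hj1, hj2, hj3⟩ : ∃ j : ℕ, (J + 3) / 4 ≤ j ∧ j ≤ J / 2 ∧ ∀ r : ℕ, 1 ≤ r → j + r ≤ J →
      (cntw P (2 ^ j) (2 ^ (j + r)) : ℝ) ≤ (8 * C + 8) * r := by
    by_contra hcon
    push Not at hcon
    obtain ⟨j', h1, h2⟩ := key (8 * C + 8) P J ((J + 3) / 4)
      (fun j h1 h2 => hcon j h1 h2) (J / 2 + 1 - (J + 3) / 4) (by omega)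
    have h3 : (cntw P (2 ^ ((J + 3) / 4)) (2 ^ j') : ℝ) ≤ P.card := by exact_mod_cast cntw_le _ _ _
    have h4 : (J : ℝ) + 4 * (((J + 3) / 4 : ℕ) : ℝ) ≤ 4 * j' + 1 := by
      have h5 : J + 4 * ((J + 3) / 4) ≤ 4 * j' + 1 := by omega
      exact_mod_cast h5
    have h5 : ((J : ℝ) - 1) / 4 ≤ (j' : ℝ) - ((J + 3) / 4 : ℕ) := by linarith
    have h6 : (8 * C + 8) * (((J : ℝ) - 1) / 4) ≤ (8 * C + 8) * ((j' : ℝ) - ((J + 3) / 4 : ℕ)) :=
      mul_le_mul_of_nonneg_left h5 (by positivity)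
    have h7 : (3 : ℝ) ≤ J := by exact_mod_cast hJ3
    have h8 : C * (1 + Real.log N) ≤ C * (1 + J) := mul_le_mul_of_nonneg_left (by linarith) hC
    nlinarith
  refine ⟨2 ^ j, ?_, ?_, ?_⟩
  · have h1 : 2 ^ J ≤ (2 ^ j) ^ 4 := by
      rw [← pow_mul]
      exact pow_le_pow_right₀ one_le_two (by omega)
    omega
  · have h1 : (2 ^ j) ^ 2 ≤ 2 ^ J := by
      rw [← pow_mul]
      exact pow_le_pow_right₀ one_le_two (by omega)
    have h2 : 2 ^ J = 2 * 2 ^ (J - 1) := by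
      rw [← pow_succ']
      congr 1
      omega
    omega
  · intro m hm1 hmN
    change (cntw P (2 ^ j) (m * 2 ^ j) : ℝ) ≤ _
    rcases Nat.lt_or_ge m 2 with hm | hm
    · have h1 : m = 1 := by omega
      have h2 : cntw P (2 ^ j) (m * 2 ^ j) = 0 := by
        unfold cntw
        rw [Finset.card_eq_zero, Finset.filter_eq_empty_iff, h1, one_mul]
        intro p _ h3
        omega
      rw [h2, Nat.cast_zero]
      exact mul_nonneg (by positivity) (lg_pos m).le
    · have hr1 : 1 ≤ Nat.clog 2 m := Nat.clog_pos one_lt_two hm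
      have hr2 : m ≤ 2 ^ Nat.clog 2 m := Nat.le_pow_clog one_lt_two m
      have hr3 : 2 ^ (Nat.clog 2 m - 1) < m := Nat.pow_pred_clog_lt_self one_lt_two hm
      obtain ⟨r, hr⟩ : ∃ r, r = min (Nat.clog 2 m) (J - j) := ⟨_, rfl⟩
      have hrj : j + r ≤ J := by omega
      have hr0 : 1 ≤ r := by omega
      have h1 : m * 2 ^ j ≤ 2 ^ (j + r) := by
        rcases le_total (Nat.clog 2 m) (J - j) with h | h
        · rw [hr, min_eq_left h, pow_add, mul_comm]
          exact Nat.mul_le_mul_left _ hr2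
        · rw [hr, min_eq_right h]
          have h2 : j + (J - j) = J := by omega
          rw [h2]
          exact hmN.trans hJ2.le
      have h2 : (cntw P (2 ^ j) (m * 2 ^ j) : ℝ) ≤ (8 * C + 8) * r :=
        (by exact_mod_cast cntw_mono P (2 ^ j) h1 : (cntw P (2 ^ j) (m * 2 ^ j) : ℝ) ≤
          cntw P (2 ^ j) (2 ^ (j + r))).trans (hj3 r hr0 hrj)
      have h3 : (r : ℝ) ≤ 2 * lg m := by
        have h4 : (r : ℝ) ≤ ((Nat.clog 2 m - 1 : ℕ) : ℝ) + 1 := by
          have : r ≤ (Nat.clog 2 m - 1) + 1 := by omega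
          exact_mod_cast this
        have h5 : ((Nat.clog 2 m - 1 : ℕ) : ℝ) * Real.log 2 ≤ Real.log m := by
          rw [← Real.log_pow]
          refine Real.log_le_log (by positivity) ?_
          exact_mod_cast hr3.le
        have h6 := Real.log_two_gt_d9
        have h7 : (0 : ℝ) ≤ ((Nat.clog 2 m - 1 : ℕ) : ℝ) := Nat.cast_nonneg _
        have h8 : 0 ≤ Real.log (m : ℝ) := Real.log_natCast_nonneg m
        unfold lg
        nlinarith
      calc (cntw P (2 ^ j) (m * 2 ^ j) : ℝ) ≤ (8 * C + 8) * r := h2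
        _ ≤ (8 * C + 8) * (2 * lg m) := mul_le_mul_of_nonneg_left h3 (by positivity)
        _ = 2 * (8 * C + 8) * lg m := by ring

end Pool.Agent.SLZ
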