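import Pool.Agent.SBT.FinalN
import Pool.Agent.SGL.Main
import Pool.Agent.SLZ.HNL
import Pool.Agent.SLZ.DST
import Pool.Agent.SLZ.DHI
import Pool.Agent.SLZ.DLB
import Pool.Agent.SLZ.DC2
import Pool.Agent.SLZ.DCO
import Pool.Agent.SLZ.SEF
import Pool.Agent.SLZ.JOI
import Pool.Agent.SLZ.IRD
import Pool.Agent.SLZ.DIC
import Pool.Agent.SLZ.KER
import Pool.Agent.SLZ.DVC
import Pool.Agent.SLZ.LD2
import Pool.Agent.SLZ.LF2
import Pool.Agent.SLZ.TR2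
import Pool.Agent.SLZ.APD
import Pool.Agent.SLZ.WSL
import Pool.Agent.SLZ.MZP
import Pool.Agent.SLZ.TAZ

/-!
# Squad SLZ: assembly of the modules
-/

set_option autoImplicit false

namespace Pool.Agent.SLZ

theorem HNL_ : Stmt_HNL := hnl_proof SBT.mcf_proof
theorem DST_ : Stmt_DST := dst_proof SBT.S2T_ SBT.msm_proof HNL_
theorem DHI_ : Stmt_DHI := dhi_proof SBT.mcf_proof
theorem DLB_ : Stmt_DLB := dlb_proof SBT.msm_proof HNL_
theorem DC2_ : Stmt_DC2 := dc2_proof SBT.msm_proof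
theorem DCO_ : Stmt_DCO :=
  dco_proof SBT.UNI_ SBT.msm_proof SBT.mla_proof SBT.mcf_proof SBT.msp_proof SBT.MPR_ HNL_ DST_
    DHI_ DLB_ DC2_
theorem SEF_ : Stmt_SEF := sef_proof SBT.sep_proof
theorem JOI_ : Stmt_JOI := joi_proof
theorem IRD_ : Stmt_IRD := ird_proof
theorem DIC_ : Stmt_DIC := dic_proof DCO_ SEF_ JOI_ IRD_ SGL.KQT_ SGL.KWD_ SGL.GAU_
theorem KER_ : Stmt_KER := ker_proof DIC_
theorem DVC_ : Stmt_DVC := dvc_proof
theorem LD2_ : Stmt_LD2 := ld2_proof KER_ DVC_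
theorem LF2_ : Stmt_LF2 := lf2_proof LD2_
theorem TR2_ : Stmt_TR2 := tr2_proof
theorem APD_ : Stmt_APD := apd_proof SGL.KWD_
theorem WSL_ : Stmt_WSL := wsl_proof
theorem MZP_ : Stmt_MZP := mzp_proof SBT.NAP_ APD_ SEF_
theorem TAZ_ : Stmt_TAZ := taz_proof MZP_ LF2_ TR2_ SGL.FRE_ WSL_

end Pool.Agent.SLZ
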