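import Pool.Agent.SGL.Defs

/-!
# Squad SLZ (MP_57632f_nt): slowly growing descriptions.  Definitions.

`Om σ` is the field of a scale (see `Pool.Agent.SGL.Defs`). `Om2 σ` is the field of sequences
`m ↦ f m` in `Om σ` of valuation at most a power of `log m`, modulo the sequences whose valuation is
below minus every power of `log m`, along a fixed nonprincipal ultrafilter in `m`.
-/

set_option autoImplicit false

namespace Pool.Agent.SLZ

open Filter Pool.Agent.SGL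

attribute [local irreducible] Pool.Agent.SGL.instFieldOm

variable {σ : Sc}

/-! ## More on `V` -/

theorem V_one : V (1 : Om σ) 0 := by
  rw [← cl_one (σ := σ), V_cl (const_mem 1)]
  intro c' hc'
  filter_upwards [σ.large 0] with n hn
  rw [abs_one]
  exact Real.one_le_exp (mul_nonneg hc'.le hn)

/-- an element or its inverse is small -/
theorem V_or {x : Om σ} {c : ℝ} (h : ¬ V x c) : x ≠ 0 ∧ V x⁻¹ (-c) := by
  have hx : x ≠ 0 := by
    rintro rfl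
    exact h (V_zero c)
  refine ⟨hx, ?_⟩
  obtain ⟨f, hf, rfl⟩ := cl_surj x
  rw [V_cl hf] at h
  push Not at h
  obtain ⟨c', hc', h1⟩ := h
  have hfS : ¬ SS σ f := fun h => hx ((cl_zero_iff hf).2 h)
  rw [← cl_inv hf hx, V_cl (inv_mem hfS)]
  intro d hd
  filter_upwards [h1, σ.large 0] with n hn hT
  rw [abs_inv]
  have h4 : (Real.exp (c' * σ.T n))⁻¹ = Real.exp (-c' * σ.T n) := by
    rw [← Real.exp_neg, neg_mul]
  calc |f n|⁻¹ ≤ (Real.exp (c' * σ.T n))⁻¹ := inv_anti₀ (Real.exp_pos _) hn.le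
    _ = Real.exp (-c' * σ.T n) := h4
    _ ≤ Real.exp (d * σ.T n) :=
      Real.exp_le_exp.2 (mul_le_mul_of_nonneg_right (by linarith) hT)

theorem not_V_one {c : ℝ} (hc : c < 0) : ¬ V (1 : Om σ) c := by
  intro h
  rw [← cl_one (σ := σ), V_cl (const_mem 1)] at h
  obtain ⟨n, h1, h2⟩ := ((h (c / 2) (by linarith)).and (σ.large 1)).exists
  rw [abs_one] at h1
  have h3 : Real.exp (c / 2 * σ.T n) < 1 := by
    rw [Real.exp_lt_one_iff]
    nlinarith
  linarith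

/-! ## Integers of bounded height -/

variable (σ) in
/-- the class of a sequence of integers of size at most `exp (h T)` -/
def Zi (h : ℝ) (z : Om σ) : Prop :=
  ∃ y : ℕ → ℤ, (∀ᶠ n in (σ.U : Filter ℕ), |(y n : ℝ)| ≤ Real.exp (h * σ.T n)) ∧
    cl σ (fun n => (y n : ℝ)) = z

theorem Zi_OO {h : ℝ} {y : ℕ → ℤ}
    (hy : ∀ᶠ n in (σ.U : Filter ℕ), |(y n : ℝ)| ≤ Real.exp (h * σ.T n)) :
    (fun n => (y n : ℝ)) ∈ OO σ := ⟨h, hy⟩

theorem Zi_V {h : ℝ} {z : Om σ} (hz : Zi σ h z) : V z h := by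
  obtain ⟨y, hy, rfl⟩ := hz
  rw [V_cl (Zi_OO hy)]
  intro c' hc'
  filter_upwards [hy, σ.large 0] with n hn hT
  exact hn.trans (Real.exp_le_exp.2 (mul_le_mul_of_nonneg_right hc'.le hT))

theorem Zi_mono {h h' : ℝ} (hh : h ≤ h') {z : Om σ} (hz : Zi σ h z) : Zi σ h' z := by
  obtain ⟨y, hy, rfl⟩ := hz
  refine ⟨y, ?_, rfl⟩
  filter_upwards [hy, σ.large 0] with n hn hT
  exact hn.trans (Real.exp_le_exp.2 (mul_le_mul_of_nonneg_right hh hT))

theorem Zi_mul {h h' : ℝ} {z z' : Om σ} (hz : Zi σ h z) (hz' : Zi σ h' z') :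
    Zi σ (h + h') (z * z') := by
  obtain ⟨y, hy, rfl⟩ := hz
  obtain ⟨y', hy', rfl⟩ := hz'
  refine ⟨fun n => y n * y' n, ?_, ?_⟩
  · filter_upwards [hy, hy'] with n h1 h2
    push_cast
    rw [abs_mul, add_mul, Real.exp_add]
    exact mul_le_mul h1 h2 (abs_nonneg _) (Real.exp_pos _).le
  · rw [← cl_mul (Zi_OO hy) (Zi_OO hy')]
    congr 1
    funext n
    push_cast
    rfl

theorem Zi_neg {h : ℝ} {z : Om σ} (hz : Zi σ h z) : Zi σ h (-z) := by
  obtain ⟨y, hy, rfl⟩ := hz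
  refine ⟨fun n => - y n, ?_, ?_⟩
  · filter_upwards [hy] with n h1
    push_cast
    rwa [abs_neg]
  · rw [← cl_neg (Zi_OO hy)]
    congr 1
    funext n
    push_cast
    rfl

theorem Zi_add {h : ℝ} {z z' : Om σ} (hz : Zi σ h z) (hz' : Zi σ h z') :
    Zi σ (h + 1) (z + z') := by
  obtain ⟨y, hy, rfl⟩ := hz
  obtain ⟨y', hy', rfl⟩ := hz'
  refine ⟨fun n => y n + y' n, ?_, ?_⟩
  · filter_upwards [hy, hy', σ.large 1] with n h1 h2 h3
    push_cast
    have h6 : (2 : ℝ) ≤ Real.exp (σ.T n) := by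
      have := Real.add_one_le_exp (σ.T n)
      linarith
    have h7 : Real.exp ((h + 1) * σ.T n) = Real.exp (h * σ.T n) * Real.exp (σ.T n) := by
      rw [add_mul, one_mul, Real.exp_add]
    rw [h7]
    have h8 := Real.exp_pos (h * σ.T n)
    have h9 := abs_add_le (y n : ℝ) (y' n : ℝ)
    nlinarith
  · rw [← cl_add (Zi_OO hy) (Zi_OO hy')]
    congr 1
    funext n
    push_cast
    rfl

theorem Zi_one {h : ℝ} (hh : 0 ≤ h) : Zi σ h 1 := by
  refine ⟨fun _ => 1, ?_, ?_⟩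
  · filter_upwards [σ.large 0] with n hn
    push_cast
    rw [abs_one]
    exact Real.one_le_exp (mul_nonneg hh hn)
  · rw [← cl_one (σ := σ)]
    congr 1
    funext n
    push_cast
    rfl

theorem Zi_zero (h : ℝ) : Zi σ h 0 := by
  refine ⟨fun _ => 0, ?_, ?_⟩
  · filter_upwards with n
    push_cast
    rw [abs_zero]
    exact (Real.exp_pos _).le
  · rw [← cl_zero (σ := σ)]
    congr 1
    funext n
    push_cast
    rfl

/-- the inverse of a nonzero integer is not large -/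
theorem Zi_inv {h : ℝ} {z : Om σ} (hz : Zi σ h z) (h0 : z ≠ 0) : V z⁻¹ 0 := by
  obtain ⟨y, hy, rfl⟩ := hz
  have hS : ¬ SS σ (fun n => (y n : ℝ)) := fun h => h0 ((cl_zero_iff (Zi_OO hy)).2 h)
  rw [← cl_inv (Zi_OO hy) h0, V_cl (inv_mem hS)]
  intro c' hc'
  filter_upwards [ne_zero_of_not_SS hS, σ.large 0] with n hn hT
  rw [abs_inv]
  have h1 : (1 : ℝ) ≤ |(y n : ℝ)| := by
    have h2 : y n ≠ 0 := by
      intro h
      apply hn
      rw [h]
      simp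
    have h3 : 1 ≤ |y n| := Int.one_le_abs h2
    exact_mod_cast h3
  calc |(y n : ℝ)|⁻¹ ≤ 1 := inv_le_one_of_one_le₀ h1
    _ ≤ Real.exp (c' * σ.T n) := Real.one_le_exp (mul_nonneg hc'.le hT)

theorem Zi_Lf {h : ℝ} {z : Om σ} (hz : Zi σ h z) : z ∈ Lf σ := by
  obtain ⟨y, hy, rfl⟩ := hz
  refine ⟨fun n => (y n : ℚ), ⟨max h 0, ?_⟩, ?_⟩
  · filter_upwards [hy, σ.large 0] with n hn hT
    rw [Rat.num_intCast, Rat.den_intCast]
    refine ⟨hn.trans (Real.exp_le_exp.2 (mul_le_mul_of_nonneg_right (le_max_left _ _) hT)), ?_⟩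
    push_cast
    exact Real.one_le_exp (mul_nonneg (le_max_right _ _) hT)
  · congr 1

/-! ## Descriptions -/

variable (σ) in
/-- `t x` is a sum of `t` products of an element of `Kf σ A` and an integer of height `t` -/
def Dc (A : Finset ℕ) (t : ℝ) (x : Om σ) : Prop :=
  ∃ (d : ℕ) (q : Om σ) (κ z : Fin d → Om σ), (d : ℝ) ≤ t ∧ Zi σ t q ∧ q ≠ 0 ∧
    (∀ j, κ j ∈ Kf σ A) ∧ (∀ j, Zi σ t (z j)) ∧ q * x = ∑ j, κ j * z j

variable (σ) in
/-- the coordinates of `x` are combinations of the same `s` integers of height `h` with coefficients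
in `Kf σ A` -/
def Dv (A : Finset ℕ) (s : ℕ) (h : ℝ) {n : ℕ} (x : Fin n → Om σ) : Prop :=
  ∃ (z : Fin s → Om σ) (κ : Fin n → Fin s → Om σ), (∀ j, Zi σ h (z j)) ∧
    (∀ c j, κ c j ∈ Kf σ A) ∧ ∀ c, x c = ∑ j, κ c j * z j

theorem Dc_mono {A : Finset ℕ} {t t' : ℝ} (h : t ≤ t') {x : Om σ} (hx : Dc σ A t x) :
    Dc σ A t' x := by
  obtain ⟨d, q, κ, z, h1, h2, h3, h4, h5, h6⟩ := hx
  exact ⟨d, q, κ, z, h1.trans h, Zi_mono h h2, h3, h4, fun j => Zi_mono h (h5 j), h6⟩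

theorem Dc_mul {A : Finset ℕ} {t t' : ℝ} (ht : 0 ≤ t) (ht' : 0 ≤ t') {x x' : Om σ}
    (hx : Dc σ A t x) (hx' : Dc σ A t' x') : Dc σ A (t * t' + t + t') (x * x') := by
  obtain ⟨d, q, κ, z, h1, h2, h3, h4, h5, h6⟩ := hx
  obtain ⟨d', q', κ', z', h1', h2', h3', h4', h5', h6'⟩ := hx'
  have htt : 0 ≤ t * t' := mul_nonneg ht ht'
  refine ⟨d * d', q * q', fun i => κ (finProdFinEquiv.symm i).1 * κ' (finProdFinEquiv.symm i).2,
    fun i => z (finProdFinEquiv.symm i).1 * z' (finProdFinEquiv.symm i).2, ?_, ?_,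
    mul_ne_zero h3 h3', ?_, ?_, ?_⟩
  · push_cast
    have := mul_le_mul h1 h1' (Nat.cast_nonneg _) ht
    linarith
  · exact Zi_mono (by linarith) (Zi_mul h2 h2')
  · intro i
    exact (Kf σ A).mul_mem (h4 _) (h4' _)
  · intro i
    exact Zi_mono (by linarith) (Zi_mul (h5 _) (h5' _))
  · have e1 : q * q' * (x * x') = (q * x) * (q' * x') := by ring
    rw [e1, h6, h6', Finset.sum_mul_sum, ← Finset.sum_product', Finset.univ_product_univ]
    symm
    apply Finset.sum_equiv finProdFinEquiv.symm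
    · intro i
      simp
    · intro i _
      ring

theorem Dc_add {A : Finset ℕ} {t t' : ℝ} {x x' : Om σ}
    (hx : Dc σ A t x) (hx' : Dc σ A t' x') : Dc σ A (t + t') (x + x') := by
  obtain ⟨d, q, κ, z, h1, h2, h3, h4, h5, h6⟩ := hx
  obtain ⟨d', q', κ', z', h1', h2', h3', h4', h5', h6'⟩ := hx'
  refine ⟨d + d', q * q', Fin.append κ κ', Fin.append (fun j => q' * z j) (fun j => q * z' j),
    ?_, Zi_mul h2 h2', mul_ne_zero h3 h3', ?_, ?_, ?_⟩
  · push_cast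
    linarith
  · intro i
    refine Fin.addCases (fun j => ?_) (fun j => ?_) i
    · rw [Fin.append_left]
      exact h4 j
    · rw [Fin.append_right]
      exact h4' j
  · intro i
    refine Fin.addCases (fun j => ?_) (fun j => ?_) i
    · rw [Fin.append_left]
      exact Zi_mono (by linarith) (Zi_mul h2' (h5 j))
    · rw [Fin.append_right]
      exact Zi_mul h2 (h5' j)
  · rw [Fin.sum_univ_add]
    simp only [Fin.append_left, Fin.append_right]
    have e1 : q * q' * (x + x') = q' * (q * x) + q * (q' * x') := by ring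
    rw [e1, h6, h6', Finset.mul_sum, Finset.mul_sum]
    congr 1
    · exact Finset.sum_congr rfl fun j _ => by ring
    · exact Finset.sum_congr rfl fun j _ => by ring

theorem Dc_neg {A : Finset ℕ} {t : ℝ} {x : Om σ} (hx : Dc σ A t x) : Dc σ A t (-x) := by
  obtain ⟨d, q, κ, z, h1, h2, h3, h4, h5, h6⟩ := hx
  refine ⟨d, q, fun j => - κ j, z, h1, h2, h3, fun j => (Kf σ A).neg_mem (h4 j), h5, ?_⟩
  rw [mul_neg, h6, ← Finset.sum_neg_distrib]
  exact Finset.sum_congr rfl fun j _ => by ring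

theorem Dc_of_Zi {A : Finset ℕ} {t : ℝ} (ht : 1 ≤ t) {z : Om σ} (hz : Zi σ t z) :
    Dc σ A t z := by
  refine ⟨1, 1, fun _ => 1, fun _ => z, by simpa using ht, Zi_one (by linarith), one_ne_zero,
    fun _ => (Kf σ A).one_mem, fun _ => hz, ?_⟩
  simp

/-! ## The second field -/

/-- a growth function -/
noncomputable def lg (m : ℕ) : ℝ := Real.log m + 2

theorem two_le_lg (m : ℕ) : 2 ≤ lg m := by
  unfold lg
  have : 0 ≤ Real.log m := Real.log_natCast_nonneg m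
  linarith

theorem lg_pos (m : ℕ) : 0 < lg m := by
  have := two_le_lg m
  linarith

theorem one_le_lgp (m C : ℕ) : 1 ≤ lg m ^ C :=
  one_le_pow₀ (by
    have := two_le_lg m
    linarith)

theorem lgp_mono {C D : ℕ} (h : C ≤ D) (m : ℕ) : lg m ^ C ≤ lg m ^ D :=
  pow_le_pow_right₀ (by
    have := two_le_lg m
    linarith) h

theorem lgp_add (C D m : ℕ) : lg m ^ C + lg m ^ D ≤ lg m ^ (C + D + 1) := by
  have h1 := lgp_mono (Nat.le_add_right C D) m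
  have h2 := lgp_mono (Nat.le_add_left D C) m
  have h3 := two_le_lg m
  have h4 : 0 ≤ lg m ^ (C + D) := (pow_pos (lg_pos m) _).le
  rw [pow_succ]
  nlinarith

/-- a nonprincipal ultrafilter -/
noncomputable def HF : Ultrafilter ℕ := Filter.hyperfilter ℕ

theorem HF_le : (HF : Filter ℕ) ≤ atTop := Nat.hyperfilter_le_atTop

theorem lg_tendsto : Tendsto lg (HF : Filter ℕ) atTop := by
  have h1 : Tendsto lg atTop atTop := by
    unfold lg
    exact tendsto_atTop_add_const_right _ _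
      (Real.tendsto_log_atTop.comp tendsto_natCast_atTop_atTop)
  exact h1.mono_left HF_le

theorem lg_large (c : ℝ) : ∀ᶠ m in (HF : Filter ℕ), c ≤ lg m :=
  lg_tendsto.eventually_ge_atTop c

variable (σ) in
/-- sequences in `Om σ` of slowly growing size -/
def O2 : Subring (ℕ → Om σ) where
  carrier := {f | ∃ C : ℕ, ∀ᶠ m in (HF : Filter ℕ), V (f m) (lg m ^ C)}
  mul_mem' := by
    rintro f g ⟨C, hf⟩ ⟨D, hg⟩
    refine ⟨C + D + 1, ?_⟩
    filter_upwards [hf, hg] with m h1 h2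
    exact V_mono (lgp_add C D m) (V_mul h1 h2)
  one_mem' := ⟨0, by
    filter_upwards with m
    exact V_mono (zero_le_one.trans (one_le_lgp m 0)) V_one⟩
  add_mem' := by
    rintro f g ⟨C, hf⟩ ⟨D, hg⟩
    refine ⟨C + D, ?_⟩
    filter_upwards [hf, hg] with m h1 h2
    exact V_add (V_mono (lgp_mono (Nat.le_add_right C D) m) h1)
      (V_mono (lgp_mono (Nat.le_add_left D C) m) h2)
  zero_mem' := ⟨0, by
    filter_upwards with m
    exact V_zero _⟩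
  neg_mem' := by
    rintro f ⟨C, hf⟩
    refine ⟨C, ?_⟩
    filter_upwards [hf] with m h1
    exact V_neg h1

variable (σ) in
/-- very small sequences -/
def S2 (f : ℕ → Om σ) : Prop := ∀ C : ℕ, ∀ᶠ m in (HF : Filter ℕ), V (f m) (-lg m ^ C)

theorem S2_O2 {f : ℕ → Om σ} (hf : S2 σ f) : f ∈ O2 σ := by
  refine ⟨0, ?_⟩
  filter_upwards [hf 0] with m h1
  refine V_mono ?_ h1
  have := one_le_lgp m 0
  linarith

theorem S2_add {f g : ℕ → Om σ} (hf : S2 σ f) (hg : S2 σ g) : S2 σ (fun m => f m + g m) := by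
  intro C
  filter_upwards [hf C, hg C] with m h1 h2
  exact V_add h1 h2

theorem S2_mul {f g : ℕ → Om σ} (hf : f ∈ O2 σ) (hg : S2 σ g) : S2 σ (fun m => f m * g m) := by
  obtain ⟨D, hf⟩ := hf
  intro C
  filter_upwards [hf, hg (C + D + 1)] with m h1 h2
  refine V_mono ?_ (V_mul h1 h2)
  have := lgp_add C D m
  linarith

theorem not_S2 {f : ℕ → Om σ} (h : ¬ S2 σ f) :
    ∃ C : ℕ, ∀ᶠ m in (HF : Filter ℕ), f m ≠ 0 ∧ V (f m)⁻¹ (lg m ^ C) := by
  unfold S2 at h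
  push Not at h
  obtain ⟨C, hC⟩ := h
  refine ⟨C, ?_⟩
  filter_upwards [hC] with m hm
  have := V_or hm
  rwa [neg_neg] at this

variable (σ) in
/-- the maximal ideal -/
def M2 : Ideal (O2 σ) where
  carrier := {f | S2 σ f.1}
  add_mem' := fun {f g} hf hg => S2_add hf hg
  zero_mem' := by
    intro C
    filter_upwards with m
    exact V_zero _
  smul_mem' := fun f g hg => S2_mul f.2 hg

instance : (M2 σ).IsMaximal := by
  rw [Ideal.isMaximal_iff]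
  constructor
  · intro h
    have h1 : S2 σ (fun _ => (1 : Om σ)) := h
    obtain ⟨m, hm⟩ := (h1 0).exists
    exact not_V_one (by simp) hm
  · intro J f hJ hf hfJ
    obtain ⟨C, hC⟩ := not_S2 hf
    have h1 : (fun m => (f.1 m)⁻¹) ∈ O2 σ := by
      refine ⟨C, ?_⟩
      filter_upwards [hC] with m hm
      exact hm.2
    have h2 : (⟨fun m => (f.1 m)⁻¹, h1⟩ : O2 σ) * f - 1 ∈ M2 σ := by
      intro D
      filter_upwards [hC] with m hm
      show V ((f.1 m)⁻¹ * f.1 m - 1) _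
      rw [inv_mul_cancel₀ hm.1, sub_self]
      exact V_zero _
    have h3 : (⟨fun m => (f.1 m)⁻¹, h1⟩ : O2 σ) * f ∈ J := J.mul_mem_left _ hfJ
    have h4 := J.sub_mem h3 (hJ h2)
    rwa [sub_sub_cancel] at h4

variable (σ) in
/-- the second field -/
def Om2 : Type := O2 σ ⧸ M2 σ

noncomputable instance instFieldOm2 : Field (Om2 σ) := Ideal.Quotient.field (M2 σ)

variable (σ) in
/-- the class of a sequence (`0` if the sequence is not in `O2 σ`) -/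
noncomputable def cl2 (f : ℕ → Om σ) : Om2 σ :=
  open Classical in if h : f ∈ O2 σ then Ideal.Quotient.mk (M2 σ) ⟨f, h⟩ else 0

theorem cl2_of_mem {f : ℕ → Om σ} (h : f ∈ O2 σ) :
    cl2 σ f = Ideal.Quotient.mk (M2 σ) ⟨f, h⟩ := by
  unfold cl2
  rw [dif_pos h]

theorem cl2_surj (x : Om2 σ) : ∃ f ∈ O2 σ, cl2 σ f = x := by
  obtain ⟨⟨f, hf⟩, h⟩ := Ideal.Quotient.mk_surjective (I := M2 σ) x
  exact ⟨f, hf, by rw [cl2_of_mem hf]; exact h⟩

theorem cl2_add {f g : ℕ → Om σ} (hf : f ∈ O2 σ) (hg : g ∈ O2 σ) :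
    cl2 σ (fun m => f m + g m) = cl2 σ f + cl2 σ g := by
  have h : (fun m => f m + g m) ∈ O2 σ := (O2 σ).add_mem hf hg
  rw [cl2_of_mem hf, cl2_of_mem hg, cl2_of_mem h]
  exact map_add (Ideal.Quotient.mk (M2 σ)) ⟨f, hf⟩ ⟨g, hg⟩

theorem cl2_mul {f g : ℕ → Om σ} (hf : f ∈ O2 σ) (hg : g ∈ O2 σ) :
    cl2 σ (fun m => f m * g m) = cl2 σ f * cl2 σ g := by
  have h : (fun m => f m * g m) ∈ O2 σ := (O2 σ).mul_mem hf hg
  rw [cl2_of_mem hf, cl2_of_mem hg, cl2_of_mem h]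
  exact map_mul (Ideal.Quotient.mk (M2 σ)) ⟨f, hf⟩ ⟨g, hg⟩

theorem cl2_sub {f g : ℕ → Om σ} (hf : f ∈ O2 σ) (hg : g ∈ O2 σ) :
    cl2 σ (fun m => f m - g m) = cl2 σ f - cl2 σ g := by
  have h : (fun m => f m - g m) ∈ O2 σ := (O2 σ).sub_mem hf hg
  rw [cl2_of_mem hf, cl2_of_mem hg, cl2_of_mem h]
  exact map_sub (Ideal.Quotient.mk (M2 σ)) ⟨f, hf⟩ ⟨g, hg⟩

theorem cl2_neg {f : ℕ → Om σ} (hf : f ∈ O2 σ) : cl2 σ (fun m => - f m) = - cl2 σ f := by
  have h : (fun m => - f m) ∈ O2 σ := (O2 σ).neg_mem hf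
  rw [cl2_of_mem hf, cl2_of_mem h]
  exact map_neg (Ideal.Quotient.mk (M2 σ)) ⟨f, hf⟩

theorem cl2_zero_iff {f : ℕ → Om σ} (hf : f ∈ O2 σ) : cl2 σ f = 0 ↔ S2 σ f := by
  rw [cl2_of_mem hf]
  exact Ideal.Quotient.eq_zero_iff_mem

theorem cl2_eq_iff {f g : ℕ → Om σ} (hf : f ∈ O2 σ) (hg : g ∈ O2 σ) :
    cl2 σ f = cl2 σ g ↔ S2 σ (fun m => f m - g m) := by
  rw [← sub_eq_zero, ← cl2_sub hf hg]
  exact cl2_zero_iff ((O2 σ).sub_mem hf hg)

theorem cl2_congr {f g : ℕ → Om σ} (h : ∀ᶠ m in (HF : Filter ℕ), f m = g m) :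
    cl2 σ f = cl2 σ g := by
  have key : ∀ f g : ℕ → Om σ, (∀ᶠ m in (HF : Filter ℕ), f m = g m) → f ∈ O2 σ → g ∈ O2 σ := by
    rintro f g h ⟨C, hC⟩
    refine ⟨C, ?_⟩
    filter_upwards [h, hC] with m h1 h2
    rwa [← h1]
  by_cases hf : f ∈ O2 σ
  · have hg := key f g h hf
    rw [cl2_eq_iff hf hg]
    intro C
    filter_upwards [h] with m hm
    rw [hm, sub_self]
    exact V_zero _
  · have hg : g ∉ O2 σ := fun hg => hf (key g f (by filter_upwards [h] with m hm; exact hm.symm) hg)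
    unfold cl2
    rw [dif_neg hf, dif_neg hg]

theorem con_mem (x : Om σ) : (fun _ : ℕ => x) ∈ O2 σ := by
  obtain ⟨c, hc⟩ := V_exists x
  refine ⟨1, ?_⟩
  filter_upwards [lg_large c] with m hm
  rw [pow_one]
  exact V_mono hm hc

variable (σ) in
/-- constant sequences -/
noncomputable def con : Om σ →+* Om2 σ where
  toFun x := cl2 σ (fun _ => x)
  map_one' := by
    rw [cl2_of_mem (con_mem 1)]
    exact map_one (Ideal.Quotient.mk (M2 σ))
  map_mul' x y := cl2_mul (con_mem x) (con_mem y)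
  map_zero' := by
    rw [cl2_of_mem (con_mem 0)]
    exact map_zero (Ideal.Quotient.mk (M2 σ))
  map_add' x y := cl2_add (con_mem x) (con_mem y)

theorem con_apply (x : Om σ) : con σ x = cl2 σ (fun _ => x) := rfl

instance : CharZero (Om2 σ) := charZero_of_injective_ringHom (con σ).injective

theorem cl2_zero : cl2 σ (fun _ => 0) = 0 := map_zero (con σ)

theorem cl2_one : cl2 σ (fun _ => 1) = 1 := map_one (con σ)

/-- inverses -/
theorem inv2_mem {f : ℕ → Om σ} (hf : ¬ S2 σ f) : (fun m => (f m)⁻¹) ∈ O2 σ := by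
  obtain ⟨C, hC⟩ := not_S2 hf
  refine ⟨C, ?_⟩
  filter_upwards [hC] with m hm
  exact hm.2

theorem ne_zero_of_not_S2 {f : ℕ → Om σ} (hf : ¬ S2 σ f) : ∀ᶠ m in (HF : Filter ℕ), f m ≠ 0 := by
  obtain ⟨C, hC⟩ := not_S2 hf
  filter_upwards [hC] with m hm
  exact hm.1

theorem cl2_inv {f : ℕ → Om σ} (hf : f ∈ O2 σ) (h : cl2 σ f ≠ 0) :
    cl2 σ (fun m => (f m)⁻¹) = (cl2 σ f)⁻¹ := by
  have h1 : ¬ S2 σ f := fun h2 => h ((cl2_zero_iff hf).2 h2)
  have h2 := inv2_mem h1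
  have h3 : cl2 σ (fun m => (f m)⁻¹) * cl2 σ f = 1 := by
    rw [← cl2_mul h2 hf, ← cl2_one (σ := σ)]
    apply cl2_congr
    filter_upwards [ne_zero_of_not_S2 h1] with m hm
    exact inv_mul_cancel₀ hm
  exact eq_inv_of_mul_eq_one_left h3

/-! ## The subfields of the second field -/

variable (σ) in
/-- quotients of integers of height `t` -/
def Qs (t : ℝ) (x : Om σ) : Prop := ∃ p q : Om σ, Zi σ t p ∧ Zi σ t q ∧ q ≠ 0 ∧ q * x = p

theorem Qs_V {t : ℝ} {x : Om σ} (h : Qs σ t x) : V x t := by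
  obtain ⟨p, q, hp, hq, h0, h1⟩ := h
  have h2 : x = p * q⁻¹ := by
    rw [← h1]
    field_simp
  rw [h2]
  have := V_mul (Zi_V hp) (Zi_inv hq h0)
  rwa [add_zero] at this

theorem Qs_mono {t t' : ℝ} (h : t ≤ t') {x : Om σ} (hx : Qs σ t x) : Qs σ t' x := by
  obtain ⟨p, q, hp, hq, h0, h1⟩ := hx
  exact ⟨p, q, Zi_mono h hp, Zi_mono h hq, h0, h1⟩

theorem Qs_mul {t t' : ℝ} {x x' : Om σ} (hx : Qs σ t x) (hx' : Qs σ t' x') :
    Qs σ (t + t') (x * x') := by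
  obtain ⟨p, q, hp, hq, h0, h1⟩ := hx
  obtain ⟨p', q', hp', hq', h0', h1'⟩ := hx'
  refine ⟨p * p', q * q', Zi_mul hp hp', Zi_mul hq hq', mul_ne_zero h0 h0', ?_⟩
  rw [← h1, ← h1']
  ring

theorem Qs_add {t t' : ℝ} {x x' : Om σ} (hx : Qs σ t x) (hx' : Qs σ t' x') :
    Qs σ (t + t' + 1) (x + x') := by
  obtain ⟨p, q, hp, hq, h0, h1⟩ := hx
  obtain ⟨p', q', hp', hq', h0', h1'⟩ := hx'
  refine ⟨p * q' + q * p', q * q', Zi_add (Zi_mul hp hq') (Zi_mul hq hp'),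
    Zi_mono (by linarith) (Zi_mul hq hq'), mul_ne_zero h0 h0', ?_⟩
  rw [← h1, ← h1']
  ring

theorem Qs_neg {t : ℝ} {x : Om σ} (hx : Qs σ t x) : Qs σ t (-x) := by
  obtain ⟨p, q, hp, hq, h0, h1⟩ := hx
  refine ⟨-p, q, Zi_neg hp, hq, h0, ?_⟩
  rw [← h1]
  ring

theorem Qs_inv {t : ℝ} (ht : 0 ≤ t) {x : Om σ} (hx : Qs σ t x) : Qs σ t x⁻¹ := by
  obtain ⟨p, q, hp, hq, h0, h1⟩ := hx
  by_cases hx0 : x = 0
  · refine ⟨0, 1, Zi_zero t, Zi_one ht, one_ne_zero, ?_⟩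
    rw [hx0, inv_zero, mul_zero]
  · refine ⟨q, p, hq, hp, ?_, ?_⟩
    · rw [← h1]
      exact mul_ne_zero h0 hx0
    · rw [← h1]
      field_simp

theorem Qs_one {t : ℝ} (ht : 0 ≤ t) : Qs σ t 1 :=
  ⟨1, 1, Zi_one ht, Zi_one ht, one_ne_zero, one_mul 1⟩

theorem Qs_zero {t : ℝ} (ht : 0 ≤ t) : Qs σ t 0 :=
  ⟨0, 1, Zi_zero t, Zi_one ht, one_ne_zero, mul_zero 1⟩

theorem Qs_Dc {A : Finset ℕ} {t : ℝ} (ht : 1 ≤ t) {x : Om σ} (hx : Qs σ t x) : Dc σ A t x := by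
  obtain ⟨p, q, hp, hq, h0, h1⟩ := hx
  refine ⟨1, q, fun _ => 1, fun _ => p, by simpa using ht, hq, h0,
    fun _ => (Kf σ A).one_mem, fun _ => hp, ?_⟩
  rw [h1]
  simp

theorem Qs_O2 {f : ℕ → Om σ} {C : ℕ} (h : ∀ᶠ m in (HF : Filter ℕ), Qs σ (lg m ^ C) (f m)) :
    f ∈ O2 σ := ⟨C, h.mono fun _ hm => Qs_V hm⟩

theorem lgp_nonneg (m C : ℕ) : 0 ≤ lg m ^ C := (pow_pos (lg_pos m) C).le

variable (σ) in
/-- the field of the quotients of integers of slowly growing height -/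
def L2 : Subfield (Om2 σ) where
  carrier := {x | ∃ (f : ℕ → Om σ) (C : ℕ), (∀ᶠ m in (HF : Filter ℕ), Qs σ (lg m ^ C) (f m)) ∧
    cl2 σ f = x}
  mul_mem' := by
    rintro _ _ ⟨f, C, hf, rfl⟩ ⟨g, D, hg, rfl⟩
    refine ⟨fun m => f m * g m, C + D + 1, ?_, cl2_mul (Qs_O2 hf) (Qs_O2 hg)⟩
    filter_upwards [hf, hg] with m h1 h2
    exact Qs_mono (lgp_add C D m) (Qs_mul h1 h2)
  one_mem' := ⟨fun _ => 1, 0, by
    filter_upwards with m
    exact Qs_one (lgp_nonneg m 0), cl2_one⟩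
  add_mem' := by
    rintro _ _ ⟨f, C, hf, rfl⟩ ⟨g, D, hg, rfl⟩
    refine ⟨fun m => f m + g m, C + D + 1 + 0 + 1, ?_, cl2_add (Qs_O2 hf) (Qs_O2 hg)⟩
    filter_upwards [hf, hg] with m h1 h2
    refine Qs_mono ?_ (Qs_add h1 h2)
    have h3 := lgp_add C D m
    have h4 := lgp_add (C + D + 1) 0 m
    have h5 := one_le_lgp m 0
    linarith
  zero_mem' := ⟨fun _ => 0, 0, by
    filter_upwards with m
    exact Qs_zero (lgp_nonneg m 0), cl2_zero⟩
  neg_mem' := by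
    rintro _ ⟨f, C, hf, rfl⟩
    refine ⟨fun m => - f m, C, ?_, cl2_neg (Qs_O2 hf)⟩
    filter_upwards [hf] with m h1
    exact Qs_neg h1
  inv_mem' := by
    rintro _ ⟨f, C, hf, rfl⟩
    by_cases h0 : cl2 σ f = 0
    · rw [h0, inv_zero]
      exact ⟨fun _ => 0, 0, by
        filter_upwards with m
        exact Qs_zero (lgp_nonneg m 0), cl2_zero⟩
    · refine ⟨fun m => (f m)⁻¹, C, ?_, cl2_inv (Qs_O2 hf) h0⟩
      filter_upwards [hf] with m h1
      exact Qs_inv (lgp_nonneg m C) h1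

theorem mem_L2 {x : Om2 σ} : x ∈ L2 σ ↔ ∃ (f : ℕ → Om σ) (C : ℕ),
    (∀ᶠ m in (HF : Filter ℕ), Qs σ (lg m ^ C) (f m)) ∧ cl2 σ f = x := Iff.rfl

variable (σ) in
/-- the ring of the slowly described sequences -/
def R2 (A : Finset ℕ) : Subring (Om2 σ) where
  carrier := {x | ∃ f ∈ O2 σ, ∃ C : ℕ, (∀ᶠ m in (HF : Filter ℕ), Dc σ A (lg m ^ C) (f m)) ∧
    cl2 σ f = x}
  mul_mem' := by
    rintro _ _ ⟨f, hf0, C, hf, rfl⟩ ⟨g, hg0, D, hg, rfl⟩
    refine ⟨fun m => f m * g m, (O2 σ).mul_mem hf0 hg0, (C + D) + (C + D + 1) + 1, ?_,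
      cl2_mul hf0 hg0⟩
    filter_upwards [hf, hg] with m h1 h2
    refine Dc_mono ?_ (Dc_mul (lgp_nonneg m C) (lgp_nonneg m D) h1 h2)
    have h3 := lgp_add C D m
    have h4 := lgp_add (C + D) (C + D + 1) m
    have h5 : lg m ^ C * lg m ^ D = lg m ^ (C + D) := (pow_add _ _ _).symm
    linarith
  one_mem' := ⟨fun _ => 1, (O2 σ).one_mem, 0, by
    filter_upwards with m
    exact Qs_Dc (one_le_lgp m 0) (Qs_one (lgp_nonneg m 0)), cl2_one⟩
  add_mem' := by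
    rintro _ _ ⟨f, hf0, C, hf, rfl⟩ ⟨g, hg0, D, hg, rfl⟩
    refine ⟨fun m => f m + g m, (O2 σ).add_mem hf0 hg0, C + D + 1, ?_, cl2_add hf0 hg0⟩
    filter_upwards [hf, hg] with m h1 h2
    exact Dc_mono (lgp_add C D m) (Dc_add h1 h2)
  zero_mem' := ⟨fun _ => 0, (O2 σ).zero_mem, 0, by
    filter_upwards with m
    exact Qs_Dc (one_le_lgp m 0) (Qs_zero (lgp_nonneg m 0)), cl2_zero⟩
  neg_mem' := by
    rintro _ ⟨f, hf0, C, hf, rfl⟩
    refine ⟨fun m => - f m, (O2 σ).neg_mem hf0, C, ?_, cl2_neg hf0⟩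
    filter_upwards [hf] with m h1
    exact Dc_neg h1

theorem mem_R2 {A : Finset ℕ} {x : Om2 σ} : x ∈ R2 σ A ↔ ∃ f ∈ O2 σ, ∃ C : ℕ,
    (∀ᶠ m in (HF : Filter ℕ), Dc σ A (lg m ^ C) (f m)) ∧ cl2 σ f = x := Iff.rfl

theorem L2_R2 {A : Finset ℕ} {x : Om2 σ} (hx : x ∈ L2 σ) : x ∈ R2 σ A := by
  obtain ⟨f, C, hf, rfl⟩ := hx
  refine ⟨f, Qs_O2 hf, C, ?_, rfl⟩
  filter_upwards [hf] with m h1
  exact Qs_Dc (one_le_lgp m C) h1

theorem Kf_mono {A B : Finset ℕ} (h : A ⊆ B) : Kf σ A ≤ Kf σ B := by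
  unfold Kf
  apply Subfield.closure_mono
  rintro x ⟨b, hb, m, C, h1, h2⟩
  exact ⟨b, h hb, m, C, h1, h2⟩

theorem R2_mono {A B : Finset ℕ} (h : A ⊆ B) {x : Om2 σ} (hx : x ∈ R2 σ A) : x ∈ R2 σ B := by
  obtain ⟨f, hf0, C, hf, rfl⟩ := hx
  refine ⟨f, hf0, C, ?_, rfl⟩
  filter_upwards [hf] with m h1
  obtain ⟨d, q, κ, z, g1, g2, g3, g4, g5, g6⟩ := h1
  exact ⟨d, q, κ, z, g1, g2, g3, fun j => Kf_mono h (g4 j), g5, g6⟩

variable (σ) in
/-- the field generated by `R2 σ A` -/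
noncomputable def F2 (A : Finset ℕ) : Subfield (Om2 σ) := Subfield.closure (R2 σ A : Set (Om2 σ))

theorem R2_F2 {A : Finset ℕ} {x : Om2 σ} (hx : x ∈ R2 σ A) : x ∈ F2 σ A :=
  Subfield.subset_closure hx

theorem L2_le_F2 (A : Finset ℕ) : L2 σ ≤ F2 σ A := fun _ hx => R2_F2 (L2_R2 hx)

end Pool.Agent.SLZ
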