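import Pool.Agent.SLZ.Defs
import Pool.Agent.SBT.StmtsN
import Pool.Agent.SGL.Stmts

/-!
# Squad SLZ (MP_57632f_nt): exact statements of the modules.
# Recipes: /team-store/MP_57632f_SLZ.md
-/

set_option autoImplicit false

namespace Pool.Agent.SLZ

open Filter Pool.Agent.SBT Pool.Agent.SGL

/-! ## Definitions -/

section Poly

variable {n r₀ r₁ d₀ d₁ d : ℕ}

/-- the coefficients of the combination of the products -/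
noncomputable def Hn (E : Fin d₀ → Fin d₁ → Fin d → MvPolynomial (Fin (r₀ + r₁)) ℚ)
    (Y : Fin n → Fin d₁ → MvPolynomial (Fin r₁) ℚ) (N : Fin n → Fin d₀ → MvPolynomial (Fin r₀) ℚ)
    (w : Fin d) : MvPolynomial (Fin (r₀ + r₁)) ℚ :=
  ∑ c, ∑ j, ∑ k, il r₁ (N c j) * ir r₀ (Y c k) * E j k w

/-- the coefficients of the linear equations -/
noncomputable def Ln (E : Fin d₀ → Fin d₁ → Fin d → MvPolynomial (Fin (r₀ + r₁)) ℚ)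
    (Y : Fin n → Fin d₁ → MvPolynomial (Fin r₁) ℚ) (β : Fin r₁ →₀ ℕ) (w : Fin d)
    (cj : Fin n × Fin d₀) : MvPolynomial (Fin r₀) ℚ :=
  ∑ k, cf β (ir r₀ (Y cj.1 k) * E cj.2 k w)

/-- all exponents which occur in the second part -/
noncomputable def Bn (E : Fin d₀ → Fin d₁ → Fin d → MvPolynomial (Fin (r₀ + r₁)) ℚ)
    (Y : Fin n → Fin d₁ → MvPolynomial (Fin r₁) ℚ) : Finset (Fin r₁ →₀ ℕ) :=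
  (Finset.univ : Finset (Fin d₀ × Fin d₁ × Fin d × Fin n)).biUnion fun p =>
    (ir r₀ (Y p.2.2.2 p.2.1) * E p.1 p.2.1 p.2.2.1).support.image rgt

end Poly

/-- the multiplicative group generated by `A` -/
def Wg (A : Finset ℕ) : Set ℚ := {x | ∃ e : ℕ → ℤ, x = ∏ a ∈ A, (a : ℚ) ^ e a}

/-! ## D. The dichotomy -/

/-- HNL: calculus of `Hn` and `Ln`. Uses MCF. -/
def Stmt_HNL : Prop :=
  ∀ (n r₀ r₁ d₀ d₁ d : ℕ) (E : Fin d₀ → Fin d₁ → Fin d → MvPolynomial (Fin (r₀ + r₁)) ℚ)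
    (Y : Fin n → Fin d₁ → MvPolynomial (Fin r₁) ℚ),
    (∀ (N : Fin n → Fin d₀ → MvPolynomial (Fin r₀) ℚ) β w,
      cf β (Hn E Y N w) = ∑ cj : Fin n × Fin d₀, Ln E Y β w cj * N cj.1 cj.2) ∧
    (∀ β, β ∉ Bn E Y → ∀ w cj, Ln E Y β w cj = 0) ∧
    (∀ (N : Fin n → Fin d₀ → MvPolynomial (Fin r₀) ℚ) (g₀ : Fin r₀ → ℕ → ℚ)
      (g₁ : Fin r₁ → ℕ → ℚ) (m : ℕ) (w : Fin d), ev (Fin.append g₀ g₁) m (Hn E Y N w) =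
        ∑ β ∈ Bn E Y, mon g₁ β m * ev g₀ m (cf β (Hn E Y N w))) ∧
    (∀ (N : Fin n → Fin d₀ → MvPolynomial (Fin r₀) ℚ) (g₀ : Fin r₀ → ℕ → ℚ)
      (g₁ : Fin r₁ → ℕ → ℚ) (m : ℕ) (e₀ : ℚ) (z₀ : Fin d₀ → ℚ) (z₁ : Fin d₁ → ℚ)
      (W : Fin d → ℚ),
      (∀ j k, e₀ * (z₀ j * z₁ k) = ∑ w, ev (Fin.append g₀ g₁) m (E j k w) * W w) →
      ∑ w, ev (Fin.append g₀ g₁) m (Hn E Y N w) * W w =
        e₀ * ∑ c, (∑ j, ev g₀ m (N c j) * z₀ j) * ∑ k, ev g₁ m (Y c k) * z₁ k) ∧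
    ∀ (U : Ultrafilter ℕ) (S : Finset ℕ) (T : ℕ → ℝ) (g₀ : Fin r₀ → ℕ → ℚ) (κ : ℝ) (a : ℕ → ℚ),
      (∀ j k w, ∀ ε ∈ (E j k w).support, ∀ᶠ m in (U : Filter ℕ), ∀ v ∈ pl S,
        av v (mon g₀ (lft ε) m) ≤ Real.exp (κ * T m) * av v (a m)) →
      ∀ β w cj, Ht U S T g₀ κ a (Ln E Y β w cj)

/-- DST: the monomials of the combination are small. Uses S2T, MSM, HNL. -/
def Stmt_DST : Prop :=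
  ∀ (U : Ultrafilter ℕ) (S : Finset ℕ) (T : ℕ → ℝ) (n r₀ r₁ d₀ d₁ d : ℕ)
    (g₀ : Fin r₀ → ℕ → ℚ) (g₁ : Fin r₁ → ℕ → ℚ) (h κ₁ Λ : ℝ) (Z₀ : Fin d₀ → ℕ → ℤ)
    (Z₁ : Fin d₁ → ℕ → ℤ) (W : Fin d → ℕ → ℤ) (X : Fin n → Fin d₀ → MvPolynomial (Fin r₀) ℚ)
    (Y : Fin n → Fin d₁ → MvPolynomial (Fin r₁) ℚ) (E₀ : MvPolynomial (Fin (r₀ + r₁)) ℚ)
    (E : Fin d₀ → Fin d₁ → Fin d → MvPolynomial (Fin (r₀ + r₁)) ℚ) (νE : ℕ → ℚ)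
    (q₀ q₁ : ℕ → ℝ), Gd U S T (Fin.append g₀ g₁) → 0 ≤ h → 0 ≤ κ₁ →
    (∀ᶠ m in (U : Filter ℕ), ∀ i, |(W i m : ℝ)| ≤ Real.exp (2 * h * T m)) →
    Indp U (Fin.append g₀ g₁) W → (∀ m, IsU S (νE m)) → Ht U S T (Fin.append g₀ g₁) κ₁ νE E₀ →
    (∀ j k, ∀ᶠ m in (U : Filter ℕ),
      ev (Fin.append g₀ g₁) m E₀ * ((Z₀ j m : ℚ) * (Z₁ k m : ℚ)) =
        ∑ w, ev (Fin.append g₀ g₁) m (E j k w) * (W w m : ℚ)) →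
    (∀ᶠ m in (U : Filter ℕ), |((∑ c, (∑ j, ev g₀ m (X c j) * (Z₀ j m : ℚ)) *
      ∑ k, ev g₁ m (Y c k) * (Z₁ k m : ℚ) : ℚ) : ℝ)| ≤ Real.exp (-(Λ * T m)) * (q₀ m * q₁ m)) →
    ∀ w, ∀ e ∈ (Hn E Y X w).support, ∀ᶠ m in (U : Filter ℕ),
      av 0 (mon (Fin.append g₀ g₁) e m) ≤
        Real.exp ((d * (2 * h) + κ₁ + 2 - Λ) * T m) * (q₀ m * q₁ m * νE m)

/-- DHI: the coefficients of the high monomials of the second part are small. Uses MCF. -/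
def Stmt_DHI : Prop :=
  ∀ (U : Ultrafilter ℕ) (T : ℕ → ℝ) (r₀ r₁ : ℕ) (g₀ : Fin r₀ → ℕ → ℚ) (g₁ : Fin r₁ → ℕ → ℚ)
    (κ₃ κ₄ Λ₂ : ℝ) (G : MvPolynomial (Fin (r₀ + r₁)) ℚ) (β : Fin r₁ →₀ ℕ) (νE a b : ℕ → ℚ)
    (q₀ q₁ : ℕ → ℝ), Tendsto T (U : Filter ℕ) atTop → (∀ i m, 0 < g₀ i m) → (∀ m, 0 < a m) →
    (∀ m, 0 < b m) → (∀ᶠ m in (U : Filter ℕ), 0 < q₀ m) → (∀ᶠ m in (U : Filter ℕ), 0 < q₁ m) →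
    (∀ e ∈ G.support, ∀ᶠ m in (U : Filter ℕ), av 0 (mon (Fin.append g₀ g₁) e m) ≤
      Real.exp (κ₃ * T m) * (q₀ m * q₁ m * νE m)) →
    (∀ᶠ m in (U : Filter ℕ),
      Real.exp (-Λ₂ * T m) * (q₁ m * b m) ≤ ((mon g₁ β m : ℚ) : ℝ)) →
    (∀ᶠ m in (U : Filter ℕ), ((νE m : ℚ) : ℝ) ≤ Real.exp (κ₄ * T m) * (a m * b m)) →
    ∀ᶠ m in (U : Filter ℕ), |((ev g₀ m (cf β G) : ℚ) : ℝ)| ≤
      (Real.exp ((κ₃ + κ₄ + 1 + Λ₂) * T m) * q₀ m) * a m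

/-- DLB: the value of a combination all of whose high coefficients vanish. Uses MSM, HNL. -/
def Stmt_DLB : Prop :=
  ∀ (U : Ultrafilter ℕ) (S : Finset ℕ) (T : ℕ → ℝ) (n r₀ r₁ d₀ d₁ d : ℕ)
    (g₀ : Fin r₀ → ℕ → ℚ) (g₁ : Fin r₁ → ℕ → ℚ) (κ₂ κ₉ h Λ₂ : ℝ) (a a' b : ℕ → ℚ) (q₁ : ℕ → ℝ)
    (E : Fin d₀ → Fin d₁ → Fin d → MvPolynomial (Fin (r₀ + r₁)) ℚ)
    (Y : Fin n → Fin d₁ → MvPolynomial (Fin r₁) ℚ) (N : Fin n → Fin d₀ → MvPolynomial (Fin r₀) ℚ)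
    (W : Fin d → ℕ → ℤ), Gd U S T g₀ → 0 ≤ κ₂ → 0 ≤ κ₉ → (∀ m, IsU S (a m)) →
    (∀ m, IsU S (a' m)) → (∀ m, 0 < b m) → (∀ᶠ m in (U : Filter ℕ), 0 < q₁ m) →
    (∀ i m, 0 < g₁ i m) → (∀ β w cj, Ht U S T g₀ κ₂ a (Ln E Y β w cj)) →
    (∀ c j, Ht U S T g₀ κ₉ a' (N c j)) →
    (∀ β ∈ Bn E Y, (∀ w, ∑ cj : Fin n × Fin d₀, Ln E Y β w cj * N cj.1 cj.2 = 0) ∨
      ∀ᶠ m in (U : Filter ℕ), ((mon g₁ β m : ℚ) : ℝ) ≤ Real.exp (-Λ₂ * T m) * (q₁ m * b m)) →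
    (∀ᶠ m in (U : Filter ℕ), ∀ i, |(W i m : ℝ)| ≤ Real.exp (2 * h * T m)) →
    ∀ᶠ m in (U : Filter ℕ),
      |((∑ w, ev (Fin.append g₀ g₁) m (Hn E Y N w) * (W w m : ℚ) : ℚ) : ℝ)| ≤
        Real.exp ((κ₂ + κ₉ + 3 + 2 * h - Λ₂) * T m) * (q₁ m * b m * (a m * a' m))

/-- DC2: from small polynomials to small integers. Uses MSM. -/
def Stmt_DC2 : Prop :=
  ∀ (U : Ultrafilter ℕ) (S : Finset ℕ) (T : ℕ → ℝ) (n r d : ℕ) (g : Fin r → ℕ → ℚ) (κ h : ℝ)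
    (a : ℕ → ℚ) (Z : Fin d → ℕ → ℤ) (N : Fin n → Fin d → MvPolynomial (Fin r) ℚ),
    Gd U S T g → 0 ≤ κ → (∀ m, IsU S (a m)) → Indp U g Z →
    (∀ᶠ m in (U : Filter ℕ), ∀ i, |(Z i m : ℝ)| ≤ Real.exp (h * T m)) →
    (∀ c j, Ht U S T g κ a (N c j)) → (∃ c, N c ≠ 0) →
    ∃ (q : Fin n → ℕ → ℤ) (Δ : ℕ → ℕ),
      (∀ᶠ m in (U : Filter ℕ), 0 < Δ m ∧ (Δ m : ℝ) ≤ Real.exp ((κ * S.card + 1) * T m)) ∧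
      (∀ᶠ m in (U : Filter ℕ), ∀ c,
        (Δ m : ℚ) * ∑ j, ev g m (N c j) * (Z j m : ℚ) = (q c m : ℚ) * a m) ∧
      (∃ c, ∀ᶠ m in (U : Filter ℕ), q c m ≠ 0) ∧
      ∀ᶠ m in (U : Filter ℕ), ∀ c,
        |(q c m : ℝ)| ≤ Real.exp ((κ * S.card + 1 + (κ + h + 2)) * T m)

/-- DCO: the core of the dichotomy. Uses UNI, MSM, MLA, MCF, MSP, MPR, HNL, DST, DHI, DLB, DC2. -/
def Stmt_DCO : Prop :=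
  ∀ (S : Finset ℕ) (W₀ W₁ : Set ℚ), PS S → IsGrp W₀ → IsGrp W₁ → (∀ x ∈ W₀, IsU S x) →
    (∀ x ∈ W₁, IsU S x) → Sep S W₀ W₁ → ∃ C : ℝ, 1 ≤ C ∧
      ∀ (U : Ultrafilter ℕ) (T : ℕ → ℝ) (n r₀ r₁ d₀ d₁ s : ℕ) (g₀ : Fin r₀ → ℕ → ℚ)
        (g₁ : Fin r₁ → ℕ → ℚ) (h κ Λ Λ₂ : ℝ) (Z₀ : Fin d₀ → ℕ → ℤ) (Z₁ : Fin d₁ → ℕ → ℤ)
        (X : Fin n → Fin d₀ → MvPolynomial (Fin r₀) ℚ)
        (Y : Fin n → Fin d₁ → MvPolynomial (Fin r₁) ℚ) (q₀ q₁ : ℕ → ℝ), Gd U S T g₀ →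
        Gd U S T g₁ → Gd U S T (Fin.append g₀ g₁) → (∀ i, g₀ i ∈ Wv W₀) → (∀ i, g₁ i ∈ Wv W₁) →
        d₀ ≤ s → d₁ ≤ s → 0 ≤ h → C * ((n : ℝ) + 1) ^ 2 * ((s : ℝ) + 1) ^ 8 * (h + 1) ≤ κ →
        (∀ᶠ m in (U : Filter ℕ), ∀ i, |(Z₀ i m : ℝ)| ≤ Real.exp (h * T m)) →
        (∀ᶠ m in (U : Filter ℕ), ∀ i, |(Z₁ i m : ℝ)| ≤ Real.exp (h * T m)) →
        Indp U g₀ Z₀ → (∀ᶠ m in (U : Filter ℕ), 0 < q₀ m) →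
        (∀ᶠ m in (U : Filter ℕ), 0 < q₁ m) →
        (∀ᶠ m in (U : Filter ℕ), |((∑ c, (∑ j, ev g₀ m (X c j) * (Z₀ j m : ℚ)) *
          ∑ k, ev g₁ m (Y c k) * (Z₁ k m : ℚ) : ℚ) : ℝ)| ≤
            Real.exp (-(Λ * T m)) * (q₀ m * q₁ m)) →
        (∀ c j, ∀ᶠ m in (U : Filter ℕ), |((ev g₀ m (X c j) : ℚ) : ℝ)| ≤
          Real.exp ((κ + Λ₂ - Λ) * T m) * q₀ m) ∨
        ∃ q : Fin n → ℕ → ℤ, (∃ c, ∀ᶠ m in (U : Filter ℕ), q c m ≠ 0) ∧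
          (∀ᶠ m in (U : Filter ℕ), ∀ c, |(q c m : ℝ)| ≤ Real.exp (κ * T m)) ∧
          ∀ᶠ m in (U : Filter ℕ),
            |((∑ c, (q c m : ℚ) * ∑ k, ev g₁ m (Y c k) * (Z₁ k m : ℚ) : ℚ) : ℝ)| ≤
              Real.exp ((κ - Λ₂) * T m) * q₁ m

/-- SEF: the groups of two sets of bases. Uses SEP. -/
def Stmt_SEF : Prop :=
  ∀ (S A B : Finset ℕ), PS S → (∀ a ∈ A, 2 ≤ a) → (∀ b ∈ B, 2 ≤ b) →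
    (∀ p : ℕ, p.Prime → (∃ a ∈ A, p ∣ a) ∨ (∃ b ∈ B, p ∣ b) → p ∈ S) →
    IsGrp (Wg A) ∧ (∀ x ∈ Wg A, IsU S x) ∧ (TI A B → Sep S (Wg A) (Wg B))

/-- JOI: independence of the units of both sides. Uses nothing. -/
def Stmt_JOI : Prop :=
  ∀ (U : Ultrafilter ℕ) (S : Finset ℕ) (T : ℕ → ℝ) (W₀ W₁ : Set ℚ) (r₀ r₁ : ℕ)
    (g₀ : Fin r₀ → ℕ → ℚ) (g₁ : Fin r₁ → ℕ → ℚ), IsGrp W₀ → IsGrp W₁ → W₀ ∩ W₁ ⊆ {1} →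
    (∀ i, g₀ i ∈ Wv W₀) → (∀ i, g₁ i ∈ Wv W₁) → Gd U S T g₀ → Gd U S T g₁ →
    Gd U S T (Fin.append g₀ g₁)

/-- IRD: a basis among finitely many elements. Uses nothing. -/
def Stmt_IRD : Prop :=
  ∀ (F : Type) [Field F] (K : Subfield F) (s : ℕ) (z : Fin s → F),
    ∃ (d : ℕ) (ι : Fin d → Fin s), d ≤ s ∧ Ind K (fun i => z (ι i)) ∧
      ∀ j, ∃ κ : Fin d → F, (∀ i, κ i ∈ K) ∧ z j = ∑ i, κ i * z (ι i)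

/-- DIC: the dichotomy. Uses DCO, SEF, JOI, IRD, KQT, KWD, GAU. -/
def Stmt_DIC : Prop :=
  ∀ (A B : Finset ℕ) (n : ℕ), (∀ a ∈ A, 2 ≤ a) → (∀ b ∈ B, 2 ≤ b) → TI A B →
    ∃ E : ℕ, ∀ (σ : Sc) (s : ℕ) (h Λ Λ₂ : ℝ) (x y : Fin n → Om σ), 0 ≤ h → Dv σ A s h x →
      Dv σ B s h y → V (∑ c, x c * y c) (-Λ) →
      (∀ c, V (x c) (E * ((s : ℝ) + 1) ^ E * (h + 1) + Λ₂ - Λ)) ∨
      ∃ M : Fin n → Om σ, (∃ c, M c ≠ 0) ∧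
        (∀ c, Zi σ (E * ((s : ℝ) + 1) ^ E * (h + 1)) (M c)) ∧
        V (∑ c, M c * y c) (E * ((s : ℝ) + 1) ^ E * (h + 1) - Λ₂)

/-- KER: the vector `x` is near a space generated by few small integral vectors which are nearly
orthogonal to `y`. Uses DIC. -/
def Stmt_KER : Prop :=
  ∀ (A B : Finset ℕ) (n : ℕ), (∀ a ∈ A, 2 ≤ a) → (∀ b ∈ B, 2 ≤ b) → TI A B →
    ∃ E : ℕ, 1 ≤ E ∧ ∀ (σ : Sc) (s : ℕ) (h Λ : ℝ) (x y : Fin n → Om σ), 0 ≤ h → 0 ≤ Λ →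
      Dv σ A s h x → Dv σ B s h y → (∀ c, V (x c) h) → (∀ c, V (y c) h) →
      V (∑ c, x c * y c) (-Λ) →
      ∃ (M : Fin n → Fin n → Om σ) (t : Fin n → Om σ),
        (∀ i c, Zi σ (E * ((s : ℝ) + 1) ^ E * (h + 1)) (M i c)) ∧
        (∀ i, V (∑ c, M i c * y c) (E * ((s : ℝ) + 1) ^ E * (h + 1) - Λ / E)) ∧
        ∀ c, V (x c - ∑ i, t i * M i c) (E * ((s : ℝ) + 1) ^ E * (h + 1) - Λ / E)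

/-! ## L. The second field -/

/-- DVC: common denominators. Uses nothing. -/
def Stmt_DVC : Prop :=
  ∀ (σ : Sc) (A : Finset ℕ) (n : ℕ) (t : ℝ) (x : Fin n → Om σ), 0 ≤ t →
    (∀ c, Dc σ A t (x c)) →
    ∃ (Q : Om σ) (s : ℕ), Zi σ (n * t) Q ∧ Q ≠ 0 ∧ (s : ℝ) ≤ n * t ∧
      ∀ s' : ℕ, s ≤ s' → Dv σ A s' ((n + 1) * t) (fun c => Q * x c)

/-- LD2: the rings of two sets of bases are linearly disjoint. Uses KER, DVC. -/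
def Stmt_LD2 : Prop :=
  ∀ (σ : Sc) (A B : Finset ℕ), (∀ a ∈ A, 2 ≤ a) → (∀ b ∈ B, 2 ≤ b) → TI A B →
    ∀ (n : ℕ) (x y : Fin n → Om2 σ), (∀ c, x c ∈ R2 σ A) → (∀ c, y c ∈ R2 σ B) →
      Ind (L2 σ) y → ∑ c, x c * y c = 0 → x = 0

/-- LF2: the fields of two sets of bases are linearly disjoint. Uses LD2. -/
def Stmt_LF2 : Prop :=
  ∀ (σ : Sc) (A B : Finset ℕ), (∀ a ∈ A, 2 ≤ a) → (∀ b ∈ B, 2 ≤ b) → TI A B →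
    LDj (L2 σ) (F2 σ A) (F2 σ B)

/-- TR2: numbers which are not `U`-numbers are transcendental over `L2`. Uses nothing. -/
def Stmt_TR2 : Prop :=
  ∀ (σ : Sc) (ξ : ℝ), NU ξ → ¬ IsAlgebraic (L2 σ) (con σ (cst σ ξ))

/-! ## W. Words -/

/-- APD: described numbers. Uses KWD. -/
def Stmt_APD : Prop :=
  ∀ (σ : Sc) (b : ℕ) (S : Finset ℕ) (s : ℕ) (B Λ t : ℝ) (x : ℝ), 2 ≤ b → PS S →
    (∀ p : ℕ, p.Prime → p ∣ b → p ∈ S) → Apw σ.U S σ.T (Wg {b}) s B Λ x →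
    (s : ℝ) ≤ t → B ≤ t → 0 ≤ t →
    ∃ x' : Om σ, Dc σ {b} t x' ∧ V (cst σ x - x') (B - Λ)

/-- WSL: a place after which there are few marks at all scales. Uses nothing. -/
def Stmt_WSL : Prop :=
  ∀ C : ℝ, 0 ≤ C → ∃ C' : ℝ, 0 ≤ C' ∧ ∀ᶠ N : ℕ in atTop, ∀ P : Finset ℕ,
    (P.card : ℝ) ≤ C * (1 + Real.log N) →
    ∃ n : ℕ, N ≤ 16 * n ^ 4 ∧ n ^ 2 ≤ 2 * N ∧ ∀ m : ℕ, 1 ≤ m → m * n ≤ N →
      ((P.filter fun p => n ≤ p ∧ p < m * n).card : ℝ) ≤ C' * lg m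

/-- MZP: numbers with few phrases and few errors at all scales. Uses NAP, APD, SEF. -/
def Stmt_MZP : Prop :=
  ∀ (σ : Sc) (n N : ℕ → ℕ) (b : ℕ) (x K : ℝ), 2 ≤ b → 0 ≤ K → (∀ t, σ.T t = n t) →
    (∀ m : ℕ, 1 ≤ m → ∀ᶠ t in (σ.U : Filter ℕ), m * n t ≤ N t ∧
      ∃ (u : ℕ → ℤ) (k : ℕ) (p : ℕ → ℕ), (∀ i, 0 ≤ u i ∧ u i < b) ∧ Phr u (N t) k p ∧
        (((Finset.range k).filter fun j => n t ≤ p j ∧ p j < m * n t).card : ℝ) ≤ K * lg m ∧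
        (((Finset.range (m * n t)).filter fun i => n t ≤ i ∧ dig b x (i + 1) ≠ u i).card : ℝ) ≤
          K * lg m) →
    con σ (cst σ x) ∈ R2 σ {b}

/-- TAZ: numbers which are algebraic over two fields generated by numbers of small Lempel-Ziv
complexity with errors. Uses MZP, LF2, TR2, FRE, WSL. -/
def Stmt_TAZ : Prop :=
  ∀ (ξ : ℝ) (A B : Finset ℕ) (k l : ℕ) (a : Fin k → ℕ) (b : Fin l → ℕ) (x : Fin k → ℝ)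
    (y : Fin l → ℝ), NU ξ → (∀ c ∈ A, 2 ≤ c) → (∀ c ∈ B, 2 ≤ c) → TI A B → (∀ i, a i ∈ A) →
    (∀ j, b j ∈ B) → IsAlgebraic (IntermediateField.adjoin ℚ (Set.range x)) ξ →
    IsAlgebraic (IntermediateField.adjoin ℚ (Set.range y)) ξ →
    ∀ K : ℝ, ∀ᶠ N : ℕ in atTop, ∀ (c : Fin k → ℝ) (c' : Fin l → ℝ),
      (∀ i, LZE (a i) (x i) N (c i)) → (∀ j, LZE (b j) (y j) N (c' j)) →
      K * Real.log N ≤ ∑ i, c i + ∑ j, c' j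

end Pool.Agent.SLZ
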