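import Pool.Agent.SLZ.Stmts
import Pool.Agent.SGL.TRL

/-!
# SLZ: TR2, numbers which are not `U`-numbers are transcendental over `L2`.
-/

set_option autoImplicit false

namespace Pool.Agent.SLZ

open Filter Pool.Agent.SBT Pool.Agent.SGL

attribute [local irreducible] Pool.Agent.SGL.instFieldOm

namespace TR2_

variable {σ : Sc}

/-- classes of finite sums -/
theorem cl2_sum (s : Finset ℕ) (f : ℕ → ℕ → Om σ) (hf : ∀ i ∈ s, f i ∈ O2 σ) :
    (fun m => ∑ i ∈ s, f i m) ∈ O2 σ ∧ cl2 σ (fun m => ∑ i ∈ s, f i m) = ∑ i ∈ s, cl2 σ (f i) := by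
  classical
  induction s using Finset.induction_on with
  | empty =>
    simp only [Finset.sum_empty]
    exact ⟨con_mem 0, cl2_zero⟩
  | insert i s hi ih =>
    obtain ⟨h1, h2⟩ := ih (fun j hj => hf j (Finset.mem_insert_of_mem hj))
    have h3 := hf i (Finset.mem_insert_self i s)
    simp only [Finset.sum_insert hi]
    refine ⟨(O2 σ).add_mem h3 h1, ?_⟩
    rw [cl2_add h3 h1, h2]

/-- products of integers -/
theorem Zi_prod (s : Finset ℕ) (z : ℕ → Om σ) {t : ℝ} (hz : ∀ i ∈ s, Zi σ t (z i)) :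
    Zi σ (s.card * t) (∏ i ∈ s, z i) := by
  classical
  induction s using Finset.induction_on with
  | empty =>
    simp only [Finset.prod_empty, Finset.card_empty, Nat.cast_zero, zero_mul]
    exact Zi_one le_rfl
  | insert i s hi ih =>
    rw [Finset.prod_insert hi, Finset.card_insert_of_notMem hi]
    have h1 := ih (fun j hj => hz j (Finset.mem_insert_of_mem hj))
    have h2 := hz i (Finset.mem_insert_self i s)
    refine Zi_mono (le_of_eq ?_) (Zi_mul h2 h1)
    push_cast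
    ring

/-- the measure of transcendence at the finite level -/
theorem fin_level {ξ : ℝ} {D μ : ℕ} {c : ℝ} (hc : 0 < c)
    (hμ : ∀ (P : Polynomial ℤ) (H : ℝ), P ≠ 0 → P.natDegree ≤ D →
      (∀ i, |(P.coeff i : ℝ)| ≤ H) → c ≤ |Polynomial.aeval ξ P| * H ^ μ)
    {t s : ℝ} (ht : 0 ≤ t) {x : ℕ → Om σ} (hx : ∀ i ∈ Finset.range (D + 1), Qs σ t (x i))
    (hxD : x D ≠ 0) (hV : V (∑ i ∈ Finset.range (D + 1), x i * cst σ ξ ^ i) (-s)) :
    s ≤ ((D : ℝ) + 1) * t * (1 + μ) := by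
  classical
  by_contra hcon
  push Not at hcon
  set F : ℝ := ((D : ℝ) + 1) * t with hF
  have hF0 : 0 ≤ F := by positivity
  -- integers
  have hpq : ∀ i : ℕ, ∃ p q : Om σ, i ∈ Finset.range (D + 1) →
      (Zi σ t p ∧ Zi σ t q ∧ q ≠ 0 ∧ q * x i = p) := by
    intro i
    by_cases hi : i ∈ Finset.range (D + 1)
    · obtain ⟨p, q, h1, h2, h3, h4⟩ := hx i hi
      exact ⟨p, q, fun _ => ⟨h1, h2, h3, h4⟩⟩
    · exact ⟨0, 0, fun h => absurd h hi⟩
  choose p q hpq using hpq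
  set Q : Om σ := ∏ j ∈ Finset.range (D + 1), q j with hQ
  have hcard : ((Finset.range (D + 1)).card : ℝ) * t = F := by
    rw [Finset.card_range, hF]
    push_cast
    ring
  have hQZ : Zi σ F Q := by
    have := Zi_prod (Finset.range (D + 1)) q (t := t) (fun i hi => (hpq i hi).2.1)
    rwa [hcard] at this
  have hQ0 : Q ≠ 0 := Finset.prod_ne_zero_iff.2 fun j hj => (hpq j hj).2.2.1
  let z : ℕ → Om σ := fun i => p i * ∏ j ∈ (Finset.range (D + 1)).erase i, q j
  have hz : ∀ i ∈ Finset.range (D + 1), z i = Q * x i := by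
    intro i hi
    show p i * _ = _
    rw [hQ, ← Finset.mul_prod_erase _ q hi, ← (hpq i hi).2.2.2]
    ring
  have hzZ : ∀ i ∈ Finset.range (D + 1), Zi σ F (z i) := by
    intro i hi
    have h1 := Zi_prod ((Finset.range (D + 1)).erase i) q (t := t)
      (fun j hj => (hpq j (Finset.mem_of_mem_erase hj)).2.1)
    have h2 := Zi_mul (hpq i hi).1 h1
    refine Zi_mono (le_of_eq ?_) h2
    rw [Finset.card_erase_of_mem hi, Finset.card_range, Nat.add_sub_cancel, hF]
    ring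
  have hzD : z D ≠ 0 := by
    rw [hz D (Finset.mem_range.2 (Nat.lt_succ_self D))]
    exact mul_ne_zero hQ0 hxD
  have hex : ∀ i : ℕ, ∃ y : ℕ → ℤ, i ∈ Finset.range (D + 1) →
      ((∀ᶠ n in (σ.U : Filter ℕ), |(y n : ℝ)| ≤ Real.exp (F * σ.T n)) ∧
        cl σ (fun n => (y n : ℝ)) = z i) := by
    intro i
    by_cases hi : i ∈ Finset.range (D + 1)
    · obtain ⟨y, h1, h2⟩ := hzZ i hi
      exact ⟨y, fun _ => ⟨h1, h2⟩⟩
    · exact ⟨fun _ => 0, fun h => absurd h hi⟩
  choose y hy using hex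
  -- the value
  have hmem : ∀ i ∈ Finset.range (D + 1), (fun n => (y i n : ℝ) * ξ ^ i) ∈ OO σ := by
    intro i hi
    exact (OO σ).mul_mem (Zi_OO (hy i hi).1) (const_mem (ξ ^ i))
  obtain ⟨h1, h2⟩ := TRL_.cl_sum (σ := σ) (Finset.range (D + 1))
    (fun i n => (y i n : ℝ) * ξ ^ i) hmem
  have h3 : cl σ (fun n => ∑ i ∈ Finset.range (D + 1), (y i n : ℝ) * ξ ^ i) =
      Q * ∑ i ∈ Finset.range (D + 1), x i * cst σ ξ ^ i := by
    rw [h2, Finset.mul_sum]
    refine Finset.sum_congr rfl fun i hi => ?_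
    rw [cl_mul (Zi_OO (hy i hi).1) (const_mem (ξ ^ i)), (hy i hi).2, ← cst_apply, map_pow,
      hz i hi, mul_assoc]
  have h4 : V (cl σ (fun n => ∑ i ∈ Finset.range (D + 1), (y i n : ℝ) * ξ ^ i)) (F + -s) := by
    rw [h3]
    exact V_mul (Zi_V hQZ) hV
  rw [V_cl h1] at h4
  -- a good exponent
  have hlt : F + -s < -(F * μ) := by
    have : F * (1 + μ) < s := hcon
    linarith
  obtain ⟨c', hc1, hc2⟩ := exists_between hlt
  have h5 := h4 c' hc1
  have hlead : ∀ᶠ n in (σ.U : Filter ℕ), (y D n : ℝ) ≠ 0 := by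
    apply ne_zero_of_not_SS
    have hD := hy D (Finset.mem_range.2 (Nat.lt_succ_self D))
    rw [← cl_zero_iff (Zi_OO hD.1), hD.2]
    exact hzD
  have hht : ∀ᶠ n in (σ.U : Filter ℕ), ∀ i ∈ Finset.range (D + 1),
      |(y i n : ℝ)| ≤ Real.exp (F * σ.T n) := by
    rw [Filter.eventually_all_finset]
    intro i hi
    exact (hy i hi).1
  have hfin : ∀ᶠ n in (σ.U : Filter ℕ), c ≤ Real.exp ((c' + F * μ) * σ.T n) := by
    filter_upwards [h5, hlead, hht] with n g1 g2 g3
    have hne : TRL_.pol D (fun i => y i n) ≠ 0 := by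
      intro h
      have h4 : (TRL_.pol D (fun i => y i n)).coeff D = 0 := by rw [h, Polynomial.coeff_zero]
      rw [TRL_.coeff_pol, if_pos (Nat.lt_succ_self D)] at h4
      apply g2
      rw [h4, Int.cast_zero]
    have hcoef : ∀ i, |((TRL_.pol D (fun i => y i n)).coeff i : ℝ)| ≤ Real.exp (F * σ.T n) := by
      intro i
      rw [TRL_.coeff_pol]
      split_ifs with hi
      · exact g3 i (Finset.mem_range.2 hi)
      · rw [Int.cast_zero, abs_zero]
        positivity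
    have h6 := hμ _ (Real.exp (F * σ.T n)) hne (TRL_.natDegree_pol D _) hcoef
    rw [TRL_.aeval_pol] at h6
    refine h6.trans ?_
    have h7 : Real.exp ((c' + F * μ) * σ.T n) =
        Real.exp (c' * σ.T n) * Real.exp (F * σ.T n) ^ μ := by
      rw [← Real.exp_nat_mul, ← Real.exp_add]
      congr 1
      ring
    rw [h7]
    exact mul_le_mul_of_nonneg_right g1 (by positivity)
  set e : ℝ := c' + F * μ with he
  have he0 : e < 0 := by
    rw [he]
    linarith
  obtain ⟨n, g1, g2⟩ := (hfin.and (σ.large ((Real.log c - 1) / e))).exists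
  have g3 : e * σ.T n ≤ Real.log c - 1 := by
    have := mul_le_mul_of_nonpos_left g2 he0.le
    rwa [mul_div_cancel₀ _ he0.ne] at this
  have g4 : c ≤ Real.exp (Real.log c - 1) := g1.trans (Real.exp_le_exp.2 g3)
  rw [Real.exp_sub, Real.exp_log hc, le_div_iff₀ (Real.exp_pos 1)] at g4
  have g5 : (1 : ℝ) < Real.exp 1 := by
    rw [Real.one_lt_exp_iff]
    norm_num
  nlinarith

end TR2_

open TR2_ in
theorem tr2_proof : Stmt_TR2 := by
  classical
  intro σ ξ hξ halg
  obtain ⟨p, hp0, hp⟩ := halg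
  set D := p.natDegree with hD
  have hex : ∀ i : ℕ, ∃ (f : ℕ → Om σ) (C : ℕ), (∀ᶠ m in (HF : Filter ℕ), Qs σ (lg m ^ C) (f m)) ∧
    cl2 σ f = (p.coeff i : Om2 σ) := fun i => mem_L2.1 (p.coeff i).2
  choose f C hf hfc using hex
  obtain ⟨E, hE⟩ : ∃ E : ℕ, ∀ i ∈ Finset.range (D + 1), C i ≤ E :=
    ⟨∑ i ∈ Finset.range (D + 1), C i, fun i hi =>
      Finset.single_le_sum (f := fun i => C i) (fun _ _ => Nat.zero_le _) hi⟩
  -- the value
  have hsum : S2 σ (fun m => ∑ i ∈ Finset.range (D + 1), f i m * cst σ ξ ^ i) := by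
    have hmem : ∀ i ∈ Finset.range (D + 1), (fun m => f i m * cst σ ξ ^ i) ∈ O2 σ := by
      intro i _
      exact (O2 σ).mul_mem (Qs_O2 (hf i)) (con_mem (cst σ ξ ^ i))
    obtain ⟨h1, h2⟩ := cl2_sum (σ := σ) (Finset.range (D + 1)) (fun i m => f i m * cst σ ξ ^ i) hmem
    rw [← cl2_zero_iff h1, h2]
    rw [Polynomial.aeval_eq_sum_range] at hp
    rw [← hp]
    refine Finset.sum_congr rfl fun i _ => ?_
    rw [cl2_mul (Qs_O2 (hf i)) (con_mem (cst σ ξ ^ i)), hfc i, ← con_apply, map_pow]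
    rfl
  -- the leading coefficient
  have hlead : ∀ᶠ m in (HF : Filter ℕ), f D m ≠ 0 := by
    apply ne_zero_of_not_S2
    rw [← cl2_zero_iff (Qs_O2 (hf D)), hfc D]
    intro h
    have h3 : p.coeff D = 0 := Subtype.ext h
    exact hp0 (Polynomial.leadingCoeff_eq_zero.1 h3)
  obtain ⟨μ, c, hc, hμ⟩ := hξ D
  have hall : ∀ᶠ m in (HF : Filter ℕ), ∀ i ∈ Finset.range (D + 1), Qs σ (lg m ^ E) (f i m) := by
    rw [Filter.eventually_all_finset]
    intro i hi
    filter_upwards [hf i] with m hm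
    exact Qs_mono (lgp_mono (hE i hi) m) hm
  obtain ⟨m, h1, h2, h3, h4⟩ := (hall.and (hlead.and ((hsum (E + 1)).and
    (lg_large (((D : ℝ) + 1) * (1 + μ) + 1))))).exists
  have h5 := fin_level (σ := σ) hc hμ (lgp_nonneg m E) (x := fun i => f i m) h1 h2 h3
  rw [pow_succ] at h5
  have h6 := one_le_lgp m E
  nlinarith

end Pool.Agent.SLZ
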